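import Mathlib
import Pool.Agent.H39.Q1.Chain

set_option autoImplicit false
open Finset

/-! # First order expansion with several chains

`C c`, `c ∈ Γ` : chains (not necessarily disjoint) with ranks `rk c`. An untied element of a chain hides
the elements of smaller rank of the same chain. -/

namespace Pool.Agent.H40.Sp

open Pool.Agent.H25.Q1.Add Pool.Agent.H39.Q1

section abstract

variable {ι κ : Type*} [DecidableEq ι] [DecidableEq κ] {φ : ι → ℂ} {s J I : Finset ι}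
  {rk : κ → ι → ℤ} {F : Finset ι → ℂ} {M K : ℝ} {Γ : Finset κ} {C : κ → Finset ι}

/-- toggles without influence -/
lemma const_of {s : Finset ι} {F : Finset ι → ℂ}
    (h : ∀ A ⊆ s, ∀ i ∈ s, i ∉ A → F (insert i A) = F A) : ∀ A ⊆ s, F A = F ∅ := by
  intro A
  induction A using Finset.induction_on with
  | empty => intro _; rfl
  | insert a A ha ih =>
    intro hA
    have h1 : A ⊆ s := (subset_insert _ _).trans hA
    rw [h A h1 a (hA (mem_insert_self _ _)) ha, ih h1]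

/-- **The complex mean over a union of chains is bounded.** -/
theorem chains_bound (hK : 1 ≤ K) : ∀ (Γ : Finset κ) (s : Finset ι) (F : Finset ι → ℂ) (M : ℝ),
    s ⊆ Γ.biUnion C → (∀ i ∈ s, ‖φ i‖ ≤ 1) → (∀ i ∈ s, ‖1 - φ i‖ ≤ K * (1 - ‖φ i‖)) →
    (∀ A ⊆ s, ‖F A‖ ≤ M) →
    (∀ c ∈ Γ, ∀ A ⊆ s, ∀ i ∈ s, i ∈ C c → ∀ j ∈ s, j ∈ C c → i ∉ A → j ∉ A → i ≠ j →
      rk c i ≤ rk c j → F (insert i A) = F A) → ‖cE φ s F‖ ≤ K ^ Γ.card * M := by
  intro Γ
  induction Γ using Finset.induction_on with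
  | empty =>
    intro s F M hs _ _ hF _
    rw [biUnion_empty, subset_empty] at hs
    subst hs
    have e1 : cE φ ∅ F = F ∅ := by simp [cE, cw]
    rw [e1, card_empty, pow_zero, one_mul]
    exact hF ∅ (empty_subset _)
  | insert c Γ hc ih =>
    intro s F M hs h1 h2 hF sh
    have hM : 0 ≤ M := (norm_nonneg _).trans (hF ∅ (empty_subset _))
    set s1 := s ∩ C c with hs1
    set s2 := s \ C c with hs2
    have h11 : s1 ⊆ s := inter_subset_left
    have h21 : s2 ⊆ s := sdiff_subset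
    have hd : Disjoint s1 s2 := disjoint_left.2 fun l g1 g2 =>
      (mem_sdiff.1 g2).2 (mem_inter.1 g1).2
    have e1 : s = s1 ∪ s2 := by
      ext l
      rw [hs1, hs2, mem_union, mem_inter, mem_sdiff]
      tauto
    have hs2' : s2 ⊆ Γ.biUnion C := by
      intro l hl
      obtain ⟨g1, g2⟩ := mem_sdiff.1 hl
      have := hs g1
      rw [biUnion_insert, mem_union] at this
      exact this.resolve_left g2
    have e2 : cE φ s F = cE φ s1 (fun A => cE φ s2 (fun B => F (A ∪ B))) := by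
      conv_lhs => rw [e1]
      rw [cE_union hd]
    rw [e2, card_insert_of_notMem hc, pow_succ', mul_assoc]
    refine chain_bound (rk := rk c) hK (fun i hi => h1 i (h11 hi)) (fun i hi => h2 i (h11 hi))
      (fun A hA => ?_) ?_
    · refine ih s2 (fun B => F (A ∪ B)) M hs2' (fun i hi => h1 i (h21 hi))
        (fun i hi => h2 i (h21 hi)) (fun B hB => hF _ (union_subset (hA.trans h11)
          (hB.trans h21))) ?_
      intro c' hc' B hB i hi hiC j hj hjC hiB hjB hij hr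
      rw [union_insert]
      refine sh c' (mem_insert_of_mem hc') (A ∪ B) (union_subset (hA.trans h11) (hB.trans h21))
        i (h21 hi) hiC j (h21 hj) hjC ?_ ?_ hij hr
      · rw [mem_union, not_or]
        exact ⟨fun h => disjoint_left.1 hd (hA h) hi, hiB⟩
      · rw [mem_union, not_or]
        exact ⟨fun h => disjoint_left.1 hd (hA h) hj, hjB⟩
    · intro A hA i hi j hj hiA hjA hij hr
      refine cE_congr' fun B hB => ?_
      rw [insert_union]
      refine sh c (mem_insert_self _ _) (A ∪ B) (union_subset (hA.trans h11) (hB.trans h21))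
        i (h11 hi) (mem_inter.1 hi).2 j (h11 hj) (mem_inter.1 hj).2 ?_ ?_ hij hr
      · rw [mem_union, not_or]
        exact ⟨hiA, fun h => disjoint_left.1 hd hi (hB h)⟩
      · rw [mem_union, not_or]
        exact ⟨hjA, fun h => disjoint_left.1 hd hj (hB h)⟩

/-- **the first terms of a complex mean** -/
lemma cE_sub_le : ∀ (Q : Finset ι) (G : Finset ι → ℂ), (∀ q ∈ Q, ‖φ q‖ ≤ 1) →
    (∀ A ⊆ Q, ‖G A‖ ≤ M) → ‖cE φ Q G - G ∅‖ ≤ 2 * 3 ^ Q.card * M * ∑ q ∈ Q, ‖φ q‖ := by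
  intro Q
  induction Q using Finset.induction_on with
  | empty =>
    intro G _ _
    have e1 : cE φ ∅ G = G ∅ := by simp [cE, cw]
    rw [e1, sub_self, norm_zero, sum_empty, mul_zero]
  | insert a Q ha ih =>
    intro G h1 hG
    have hM : 0 ≤ M := (norm_nonneg _).trans (hG ∅ (empty_subset _))
    have h1' : ∀ q ∈ Q, ‖φ q‖ ≤ 1 := fun q hq => h1 q (mem_insert_of_mem hq)
    have i1 := ih G h1' fun A hA => hG A (hA.trans (subset_insert _ _))
    have hb : ‖cE φ Q (fun A => G (insert a A))‖ ≤ M * tv φ Q :=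
      norm_cE_le fun A hA => hG _ (insert_subset_insert a hA)
    have ht : tv φ Q ≤ 3 ^ Q.card := by
      unfold tv
      rw [← prod_const]
      refine prod_le_prod (fun i _ => by positivity) fun i hi => ?_
      have g1 := h1' i hi
      have g2 : ‖1 - φ i‖ ≤ 2 := by
        refine (norm_sub_le _ _).trans ?_
        rw [norm_one]; linarith
      linarith
    have hp : (1 : ℝ) ≤ 3 ^ Q.card := one_le_pow₀ (by norm_num)
    have hb' : ‖cE φ Q (fun A => G (insert a A))‖ ≤ M * 3 ^ Q.card :=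
      hb.trans (mul_le_mul_of_nonneg_left ht hM)
    have g0 := hG ∅ (empty_subset _)
    have g1 := h1 a (mem_insert_self _ _)
    have g2 : ‖1 - φ a‖ ≤ 2 := by
      refine (norm_sub_le _ _).trans ?_
      rw [norm_one]; linarith
    rw [cE_insert ha]
    simp only [smul_eq_mul]
    have e1 : (1 - φ a) * cE φ Q G + φ a * cE φ Q (fun A => G (insert a A)) - G ∅ =
        (1 - φ a) * (cE φ Q G - G ∅) + φ a * (cE φ Q (fun A => G (insert a A)) - G ∅) := by ring
    rw [e1, sum_insert ha, card_insert_of_notMem ha, pow_succ]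
    refine (norm_add_le _ _).trans ?_
    rw [norm_mul, norm_mul]
    have hS : 0 ≤ ∑ q ∈ Q, ‖φ q‖ := sum_nonneg fun _ _ => norm_nonneg _
    have n1 := norm_nonneg (φ a)
    have t1 : ‖1 - φ a‖ * ‖cE φ Q G - G ∅‖ ≤ 2 * (2 * 3 ^ Q.card * M * ∑ q ∈ Q, ‖φ q‖) :=
      mul_le_mul g2 i1 (norm_nonneg _) (by norm_num)
    have t2 : ‖cE φ Q (fun A => G (insert a A)) - G ∅‖ ≤ 2 * 3 ^ Q.card * M := by
      refine (norm_sub_le _ _).trans ?_
      nlinarith
    have t3 : ‖φ a‖ * ‖cE φ Q (fun A => G (insert a A)) - G ∅‖ ≤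
        ‖φ a‖ * (2 * 3 ^ Q.card * M) := mul_le_mul_of_nonneg_left t2 n1
    have t4 : 0 ≤ 3 ^ Q.card * M * ∑ q ∈ Q, ‖φ q‖ := by positivity
    have t5 : 0 ≤ 3 ^ Q.card * M * ‖φ a‖ := by positivity
    nlinarith

/-- the error of the first order expansion with the chains `C c` -/
noncomputable def chErrS (φ : ι → ℂ) (rk : κ → ι → ℤ) (J : Finset ι) (Γ : Finset κ)
    (C : κ → Finset ι) (M K : ℝ) : ℝ :=
  K ^ Γ.card * M * ∑ A ∈ ((J \ Γ.biUnion C) ∪ Γ.biUnion fun c => tops (rk c) (C c)).powerset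
    with 2 ≤ A.card, ∏ i ∈ A, (2 * ‖φ i‖) +
  2 * 3 ^ Γ.card * (K ^ Γ.card * M) * ∑ c ∈ Γ, ∑ n ∈ tops (rk c) (C c),
    ∑ m ∈ tops (rk c) ((C c).erase n), ‖φ n‖ * ‖φ m‖

/-- **First order expansion with several chains.** -/
theorem first_chains (hC : ∀ c ∈ Γ, C c ⊆ J) (hK : 1 ≤ K) (h1 : ∀ c ∈ Γ, ∀ i ∈ C c, ‖φ i‖ ≤ 1)
    (h2 : ∀ c ∈ Γ, ∀ i ∈ C c, ‖1 - φ i‖ ≤ K * (1 - ‖φ i‖)) (hF : ∀ A ⊆ J, ‖F A‖ ≤ M)
    (sh : ∀ c ∈ Γ, ∀ A ⊆ J, ∀ i ∈ C c, ∀ j ∈ C c, i ∉ A → j ∉ A → i ≠ j → rk c i ≤ rk c j →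
      F (insert i A) = F A) :
    ‖cE φ J F - F ∅ - ∑ i ∈ J, φ i * (F {i} - F ∅)‖ ≤ chErrS φ rk J Γ C M K := by
  classical
  have hM : 0 ≤ M := (norm_nonneg _).trans (hF ∅ (empty_subset _))
  have hnn : 0 ≤ ∑ c ∈ Γ, ∑ n ∈ tops (rk c) (C c), ∑ m ∈ tops (rk c) ((C c).erase n),
      ‖φ n‖ * ‖φ m‖ :=
    sum_nonneg fun c _ => sum_nonneg fun n _ => sum_nonneg fun m _ => by positivity
  rcases J.eq_empty_or_nonempty with hJe | ⟨i0, -⟩
  · have e1 : cE φ ∅ F = F ∅ := by simp [cE, cw]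
    rw [hJe, e1, sub_self, sum_empty, sub_self, norm_zero]
    unfold chErrS
    have g1 : 0 ≤ ∑ A ∈ ((∅ \ Γ.biUnion C) ∪ Γ.biUnion fun c => tops (rk c) (C c)).powerset
        with 2 ≤ A.card, ∏ i ∈ A, (2 * ‖φ i‖) :=
      sum_nonneg fun A _ => prod_nonneg fun i _ => by positivity
    have hK0 : 0 ≤ K := by linarith
    positivity
  -- the chosen tops
  have hsel : ∀ c : κ, ∃ n : ι, (C c).Nonempty → n ∈ tops (rk c) (C c) := by
    intro c
    by_cases h : (C c).Nonempty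
    · obtain ⟨n, hn⟩ := tops_nonempty (rk := rk c) h
      exact ⟨n, fun _ => hn⟩
    · exact ⟨i0, fun h' => absurd h' h⟩
  choose n hn using hsel
  have hsel2 : ∀ c : κ, ∃ p : ι, ((C c).erase (n c)).Nonempty →
      p ∈ tops (rk c) ((C c).erase (n c)) := by
    intro c
    by_cases h : ((C c).erase (n c)).Nonempty
    · obtain ⟨n, hn⟩ := tops_nonempty (rk := rk c) h
      exact ⟨n, fun _ => hn⟩
    · exact ⟨i0, fun h' => absurd h' h⟩
  choose p hp using hsel2
  set Γ' := Γ.filter fun c => (C c).Nonempty with hΓ'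
  set N := Γ'.image n with hN
  set m := Γ.biUnion C \ N with hm
  have hCJ : Γ.biUnion C ⊆ J := biUnion_subset.2 hC
  have hmJ : m ⊆ J := sdiff_subset.trans hCJ
  have hNC : ∀ i ∈ N, ∃ c ∈ Γ, i = n c ∧ (C c).Nonempty := by
    intro i hi
    obtain ⟨c, hc, rfl⟩ := mem_image.1 hi
    obtain ⟨g1, g2⟩ := mem_filter.1 hc
    exact ⟨c, g1, rfl, g2⟩
  have hnC : ∀ c, (C c).Nonempty → n c ∈ C c := fun c hc => (mem_tops.1 (hn c hc)).1
  have hNJ : N ⊆ J := by
    intro i hi
    obtain ⟨c, hc, rfl, g⟩ := hNC i hi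
    exact hC c hc (hnC c g)
  set T := J \ m with hT
  have hTJ : T ⊆ J := sdiff_subset
  have hd : Disjoint T m := sdiff_disjoint
  have hJ : J = T ∪ m := (sdiff_union_of_subset hmJ).symm
  have hNT : N ⊆ T := fun i hi => mem_sdiff.2 ⟨hNJ hi, fun h => (mem_sdiff.1 h).2 hi⟩
  -- members of `m`
  have hmm : ∀ i ∈ m, ∃ c ∈ Γ, i ∈ C c ∧ n c ∈ N ∧ i ≠ n c ∧ n c ∉ m := by
    intro i hi
    obtain ⟨g1, g2⟩ := mem_sdiff.1 hi
    obtain ⟨c, hc, g3⟩ := mem_biUnion.1 g1
    have hne : (C c).Nonempty := ⟨i, g3⟩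
    have g4 : n c ∈ N := mem_image_of_mem _ (mem_filter.2 ⟨hc, hne⟩)
    exact ⟨c, hc, g3, g4, fun h => g2 (h ▸ g4), fun h => (mem_sdiff.1 h).2 g4⟩
  have hmax : ∀ c, ∀ i ∈ C c, rk c i ≤ rk c (n c) := fun c i hi =>
    (mem_tops.1 (hn c ⟨i, hi⟩)).2 i hi
  set G : Finset ι → ℂ := fun A => cE φ m (fun B => F (A ∪ B)) with hG
  have hcE : cE φ J F = cE φ T G := by
    conv_lhs => rw [hJ]
    rw [cE_union hd]
  have hmb : m ⊆ Γ.biUnion C := sdiff_subset
  have h1m : ∀ i ∈ m, ‖φ i‖ ≤ 1 := by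
    intro i hi
    obtain ⟨c, hc, g3⟩ := mem_biUnion.1 (hmb hi)
    exact h1 c hc i g3
  have h2m : ∀ i ∈ m, ‖1 - φ i‖ ≤ K * (1 - ‖φ i‖) := by
    intro i hi
    obtain ⟨c, hc, g3⟩ := mem_biUnion.1 (hmb hi)
    exact h2 c hc i g3
  -- bound of partial means
  have hbd : ∀ s ⊆ m, ∀ A ⊆ J, Disjoint A s → ‖cE φ s (fun B => F (A ∪ B))‖ ≤
      K ^ Γ.card * M := by
    intro s hs A hA hAs
    refine chains_bound (rk := rk) (C := C) hK Γ s (fun B => F (A ∪ B)) M (hs.trans hmb)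
      (fun i hi => h1m i (hs hi)) (fun i hi => h2m i (hs hi))
      (fun B hB => hF _ (union_subset hA (hB.trans (hs.trans hmJ)))) ?_
    intro c hc B hB i hi hiC j hj hjC hiB hjB hij hr
    rw [union_insert]
    refine sh c hc (A ∪ B) (union_subset hA (hB.trans (hs.trans hmJ))) i hiC j hjC ?_ ?_ hij hr
    · rw [mem_union, not_or]
      exact ⟨fun h => disjoint_left.1 hAs h hi, hiB⟩
    · rw [mem_union, not_or]
      exact ⟨fun h => disjoint_left.1 hAs h hj, hjB⟩
  have hG2 : ∀ A ⊆ T, ‖G A‖ ≤ K ^ Γ.card * M := fun A hA =>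
    hbd m (Subset.refl _) A (hA.trans hTJ) (hd.mono_left hA)
  -- no chosen top untied
  have hG1 : ∀ A ⊆ T, Disjoint A N → G A = F A := by
    intro A hA hAN
    have h3 : ∀ B ⊆ m, F (A ∪ B) = F (A ∪ ∅) := by
      refine const_of (F := fun B => F (A ∪ B)) fun B hB i hi hiB => ?_
      obtain ⟨c, hc, g1, g2, g3, g4⟩ := hmm i hi
      rw [union_insert]
      refine sh c hc (A ∪ B) (union_subset (hA.trans hTJ) (hB.trans hmJ)) i g1 (n c)
        (hnC c ⟨i, g1⟩) ?_ ?_ g3 (hmax c i g1)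
      · rw [mem_union, not_or]
        exact ⟨fun h => disjoint_left.1 hd (hA h) hi, hiB⟩
      · rw [mem_union, not_or]
        exact ⟨fun h => disjoint_left.1 hAN h g2, fun h => g4 (hB h)⟩
    rw [hG]
    simp only
    rw [cE_congr' h3, cE_const, union_empty]
  have hG0 : G ∅ = F ∅ := hG1 ∅ (empty_subset _) (disjoint_empty_left _)
  have hfo := first_order (φ := φ) (s := T) (F := G) (M := K ^ Γ.card * M) hG2
  simp only [smul_eq_mul] at hfo
  -- the sum over `J`
  have hsum : ∑ i ∈ J, φ i * (F {i} - F ∅) = ∑ i ∈ T, φ i * (F {i} - F ∅) := by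
    symm
    refine sum_subset hTJ fun i hi hi' => ?_
    have him : i ∈ m := by
      by_contra h
      exact hi' (mem_sdiff.2 ⟨hi, h⟩)
    obtain ⟨c, hc, g1, g2, g3, g4⟩ := hmm i him
    have h3 := sh c hc ∅ (empty_subset _) i g1 (n c) (hnC c ⟨i, g1⟩) (notMem_empty _)
      (notMem_empty _) g3 (hmax c i g1)
    have e1 : ({i} : Finset ι) = insert i ∅ := rfl
    rw [e1, h3, sub_self, mul_zero]
  have hsum2 : ∑ i ∈ T, φ i * (G {i} - G ∅) = ∑ i ∈ T, φ i * (F {i} - F ∅) +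
      ∑ i ∈ N, φ i * (G {i} - F {i}) := by
    rw [← sum_sdiff hNT, ← sum_sdiff hNT (f := fun i => φ i * (F {i} - F ∅))]
    have e1 : ∑ i ∈ T \ N, φ i * (G {i} - G ∅) = ∑ i ∈ T \ N, φ i * (F {i} - F ∅) := by
      refine sum_congr rfl fun i hi => ?_
      obtain ⟨g1, g2⟩ := mem_sdiff.1 hi
      rw [hG0, hG1 {i} (singleton_subset_iff.2 g1) (disjoint_singleton_left.2 g2)]
    have e2 : ∑ i ∈ N, φ i * (G {i} - G ∅) = ∑ i ∈ N, φ i * (F {i} - F ∅) +
        ∑ i ∈ N, φ i * (G {i} - F {i}) := by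
      rw [← sum_add_distrib]
      refine sum_congr rfl fun i _ => ?_
      rw [hG0]; ring
    rw [e1, e2, add_assoc]
  -- one chosen top untied
  have hmain : ∀ i ∈ N, ‖G {i} - F {i}‖ ≤ 2 * 3 ^ Γ.card * (K ^ Γ.card * M) *
      ∑ c ∈ Γ with n c = i ∧ i ∈ tops (rk c) (C c), ∑ q ∈ tops (rk c) ((C c).erase i), ‖φ q‖ := by
    intro i hi
    have hiJ := hNJ hi
    have him : i ∉ m := fun h => (mem_sdiff.1 h).2 hi
    set Γi := Γ.filter fun c => n c = i ∧ i ∈ tops (rk c) (C c) with hΓi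
    set Q := ((Γi.filter fun c => ((C c).erase (n c)).Nonempty).image p) ∩ m with hQ
    have hQm : Q ⊆ m := inter_subset_right
    set m2 := m \ Q with hm2
    have hd2 : Disjoint Q m2 := disjoint_sdiff
    have emQ : m = Q ∪ m2 := (union_sdiff_of_subset hQm).symm
    have eG : G {i} = cE φ Q (fun A => cE φ m2 (fun B => F ({i} ∪ (A ∪ B)))) := by
      rw [hG]
      simp only
      conv_lhs => rw [emQ]
      rw [cE_union hd2]
    set G2 : Finset ι → ℂ := fun A => cE φ m2 (fun B => F ({i} ∪ (A ∪ B))) with hG2'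
    have hm2J : m2 ⊆ J := sdiff_subset.trans hmJ
    have hG20 : G2 ∅ = F {i} := by
      have h3 : ∀ B ⊆ m2, F ({i} ∪ (∅ ∪ B)) = F ({i} ∪ (∅ ∪ ∅)) := by
        refine const_of (F := fun B => F ({i} ∪ (∅ ∪ B))) fun B hB l hl hlB => ?_
        obtain ⟨hlm, hlQ⟩ := mem_sdiff.1 hl
        obtain ⟨c, hc, g1, g2, g3, g4⟩ := hmm l hlm
        rw [empty_union, empty_union, union_insert]
        have hli : l ≠ i := fun h => him (h ▸ hlm)
        have hsub : {i} ∪ B ⊆ J := union_subset (singleton_subset_iff.2 hiJ) (hB.trans hm2J)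
        have hlA : l ∉ {i} ∪ B := by
          rw [mem_union, mem_singleton, not_or]
          exact ⟨hli, hlB⟩
        by_cases hnc : n c = i
        · -- hidden by `p c`
          have hne : ((C c).erase (n c)).Nonempty := ⟨l, mem_erase.2 ⟨g3, g1⟩⟩
          obtain ⟨k1, k2⟩ := mem_tops.1 (hp c hne)
          obtain ⟨k3, k4⟩ := mem_erase.1 k1
          have hcΓi : c ∈ Γi := mem_filter.2 ⟨hc, hnc, by rw [← hnc]; exact hn c ⟨l, g1⟩⟩
          have k5 : p c ∉ m2 := by
            intro h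
            obtain ⟨h5, h6⟩ := mem_sdiff.1 h
            exact h6 (mem_inter.2 ⟨mem_image_of_mem _ (mem_filter.2 ⟨hcΓi, hne⟩), h5⟩)
          refine sh c hc _ hsub l g1 (p c) k4 hlA ?_ (fun h => k5 (h ▸ hl))
            (k2 l (mem_erase.2 ⟨g3, g1⟩))
          rw [mem_union, mem_singleton, not_or]
          exact ⟨fun h => k3 (h.trans hnc.symm), fun h => k5 (hB h)⟩
        · refine sh c hc _ hsub l g1 (n c) (hnC c ⟨l, g1⟩) hlA ?_ g3 (hmax c l g1)
          rw [mem_union, mem_singleton, not_or]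
          exact ⟨hnc, fun h => g4 ((hB.trans sdiff_subset) h)⟩
      rw [hG2']
      simp only
      rw [cE_congr' h3, cE_const, empty_union, union_empty]
    have hG2b : ∀ A ⊆ Q, ‖G2 A‖ ≤ K ^ Γ.card * M := by
      intro A hA
      have := hbd m2 sdiff_subset ({i} ∪ A) (union_subset (singleton_subset_iff.2 hiJ)
        (hA.trans (hQm.trans hmJ))) (by
          rw [disjoint_union_left]
          exact ⟨disjoint_singleton_left.2 fun h => him (mem_sdiff.1 h).1, hd2.mono_left hA⟩)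
      rw [hG2']
      simp only
      have e2 : (fun B => F ({i} ∪ (A ∪ B))) = fun B => F ({i} ∪ A ∪ B) := by
        funext B; rw [union_assoc]
      rw [e2]
      exact this
    have hcard : Q.card ≤ Γ.card := by
      refine (card_le_card inter_subset_left).trans (card_image_le.trans ?_)
      exact card_le_card ((filter_subset _ _).trans (filter_subset _ _))
    have h5 := cE_sub_le (φ := φ) (M := K ^ Γ.card * M) Q G2 (fun q hq => h1m q (hQm hq)) hG2b
    rw [eG, ← hG20]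
    refine h5.trans ?_
    have h6 : ∑ q ∈ Q, ‖φ q‖ ≤ ∑ c ∈ Γi, ∑ q ∈ tops (rk c) ((C c).erase i), ‖φ q‖ := by
      calc ∑ q ∈ Q, ‖φ q‖ ≤ ∑ q ∈ (Γi.filter fun c => ((C c).erase (n c)).Nonempty).image p,
            ‖φ q‖ := sum_le_sum_of_subset_of_nonneg inter_subset_left fun _ _ _ => norm_nonneg _
        _ ≤ ∑ c ∈ Γi.filter fun c => ((C c).erase (n c)).Nonempty, ‖φ (p c)‖ :=
            sum_image_le_of_nonneg fun _ _ => norm_nonneg _
        _ ≤ ∑ c ∈ Γi.filter fun c => ((C c).erase (n c)).Nonempty,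
            ∑ q ∈ tops (rk c) ((C c).erase i), ‖φ q‖ := by
            refine sum_le_sum fun c hc => ?_
            obtain ⟨g1, g2⟩ := mem_filter.1 hc
            have g3 := hp c g2
            rw [(mem_filter.1 g1).2.1] at g3
            exact single_le_sum (f := fun q => ‖φ q‖) (fun _ _ => norm_nonneg _) g3
        _ ≤ _ := sum_le_sum_of_subset_of_nonneg (filter_subset _ _) fun c _ _ =>
            sum_nonneg fun q _ => norm_nonneg _
    have hKM : 0 ≤ K ^ Γ.card * M := mul_nonneg (by positivity) hM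
    have h7 : (3 : ℝ) ^ Q.card ≤ 3 ^ Γ.card := pow_le_pow_right₀ (by norm_num) hcard
    have h8 : 0 ≤ ∑ q ∈ Q, ‖φ q‖ := sum_nonneg fun _ _ => norm_nonneg _
    exact mul_le_mul (mul_le_mul_of_nonneg_right (mul_le_mul_of_nonneg_left h7 (by norm_num)) hKM)
      h6 h8 (by positivity)
  -- conclusion
  have e3 : cE φ J F - F ∅ - ∑ i ∈ J, φ i * (F {i} - F ∅) =
      (cE φ T G - G ∅ - ∑ i ∈ T, φ i * (G {i} - G ∅)) + ∑ i ∈ N, φ i * (G {i} - F {i}) := by
    rw [hcE, hsum2, hG0, hsum]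
    ring
  rw [e3]
  refine (norm_add_le _ _).trans ?_
  unfold chErrS
  have hKM : 0 ≤ K ^ Γ.card * M := mul_nonneg (by positivity) hM
  refine add_le_add (hfo.trans ?_) ?_
  · refine mul_le_mul_of_nonneg_left ?_ hKM
    refine sum_le_sum_of_subset_of_nonneg ?_ fun A _ _ => prod_nonneg fun i _ => by positivity
    refine filter_subset_filter _ (powerset_mono.2 ?_)
    intro i hi
    obtain ⟨g1, g2⟩ := mem_sdiff.1 hi
    by_cases hiC : i ∈ Γ.biUnion C
    · have hiN : i ∈ N := by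
        by_contra h
        exact g2 (mem_sdiff.2 ⟨hiC, h⟩)
      obtain ⟨c, hc, rfl, g3⟩ := hNC i hiN
      exact mem_union_right _ (mem_biUnion.2 ⟨c, hc, hn c g3⟩)
    · exact mem_union_left _ (mem_sdiff.2 ⟨g1, hiC⟩)
  · calc ‖∑ i ∈ N, φ i * (G {i} - F {i})‖ ≤ ∑ i ∈ N, ‖φ i‖ * ‖G {i} - F {i}‖ := by
          refine (norm_sum_le _ _).trans (le_of_eq (sum_congr rfl fun i _ => norm_mul _ _))
      _ ≤ ∑ i ∈ N, ‖φ i‖ * (2 * 3 ^ Γ.card * (K ^ Γ.card * M) *
          ∑ c ∈ Γ with n c = i ∧ i ∈ tops (rk c) (C c),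
            ∑ q ∈ tops (rk c) ((C c).erase i), ‖φ q‖) :=
          sum_le_sum fun i hi => mul_le_mul_of_nonneg_left (hmain i hi) (norm_nonneg _)
      _ = 2 * 3 ^ Γ.card * (K ^ Γ.card * M) * ∑ i ∈ N,
          ∑ c ∈ Γ with n c = i ∧ i ∈ tops (rk c) (C c),
            ∑ q ∈ tops (rk c) ((C c).erase i), ‖φ i‖ * ‖φ q‖ := by
          rw [mul_sum]
          refine sum_congr rfl fun i _ => ?_
          rw [mul_left_comm, mul_sum]
          congr 1
          refine sum_congr rfl fun c _ => ?_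
          rw [mul_sum]
      _ ≤ _ := by
          refine mul_le_mul_of_nonneg_left ?_ (mul_nonneg (by positivity) hKM)
          have e5 : ∀ i ∈ N, (∑ c ∈ Γ with n c = i ∧ i ∈ tops (rk c) (C c),
              ∑ q ∈ tops (rk c) ((C c).erase i), ‖φ i‖ * ‖φ q‖) =
              ∑ c ∈ Γ, if n c = i ∧ i ∈ tops (rk c) (C c) then
                ∑ q ∈ tops (rk c) ((C c).erase i), ‖φ i‖ * ‖φ q‖ else 0 := by
            intro i _
            rw [sum_filter]
          rw [sum_congr rfl e5, sum_comm]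
          refine sum_le_sum fun c hc => ?_
          by_cases hcN : n c ∈ N ∧ n c ∈ tops (rk c) (C c)
          · calc ∑ i ∈ N, (if n c = i ∧ i ∈ tops (rk c) (C c) then
                  ∑ q ∈ tops (rk c) ((C c).erase i), ‖φ i‖ * ‖φ q‖ else 0)
                = ∑ q ∈ tops (rk c) ((C c).erase (n c)), ‖φ (n c)‖ * ‖φ q‖ := by
                  rw [sum_eq_single (n c)]
                  · rw [if_pos ⟨rfl, hcN.2⟩]
                  · intro i _ hi
                    rw [if_neg]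
                    exact fun h => hi h.1.symm
                  · intro h
                    exact absurd hcN.1 h
              _ ≤ _ := single_le_sum (f := fun n => ∑ m ∈ tops (rk c) ((C c).erase n),
                  ‖φ n‖ * ‖φ m‖) (fun n _ => sum_nonneg fun m _ => by positivity) hcN.2
          · have : ∑ i ∈ N, (if n c = i ∧ i ∈ tops (rk c) (C c) then
                ∑ q ∈ tops (rk c) ((C c).erase i), ‖φ i‖ * ‖φ q‖ else 0) = 0 := by
              refine sum_eq_zero fun i hi => ?_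
              rw [if_neg]
              rintro ⟨rfl, h⟩
              exact hcN ⟨hi, h⟩
            rw [this]
            exact sum_nonneg fun n _ => sum_nonneg fun m _ => by positivity

open Classical in
/-- elements without influence -/
noncomputable def Ir (J : Finset ι) (F : Finset ι → ℂ) : Finset ι :=
  J.filter fun i => ∀ A ⊆ J, i ∉ A → F (insert i A) = F A

lemma mem_Ir {i : ι} : i ∈ Ir J F ↔ i ∈ J ∧ ∀ A ⊆ J, i ∉ A → F (insert i A) = F A := by
  classical
  unfold Ir; rw [mem_filter]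

/-- an element below an element without influence has no influence -/
lemma Ir_down {i j : ι} (hi : i ∈ J) (hj : j ∈ Ir J F)
    (h : ∀ A ⊆ J, i ∉ A → j ∉ A → F (insert i A) = F A) : i ∈ Ir J F := by
  classical
  obtain ⟨hjJ, hj2⟩ := mem_Ir.1 hj
  refine mem_Ir.2 ⟨hi, fun A hA hiA => ?_⟩
  by_cases hij : i = j
  · subst hij; exact hj2 A hA hiA
  by_cases hjA : j ∈ A
  · have e1 : A = insert j (A.erase j) := (insert_erase hjA).symm
    have h1 : A.erase j ⊆ J := (erase_subset _ _).trans hA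
    have h2 : j ∉ A.erase j := notMem_erase _ _
    have h3 : i ∉ A.erase j := fun h => hiA (mem_of_mem_erase h)
    have e2 : F A = F (A.erase j) := by
      conv_lhs => rw [e1]
      exact hj2 _ h1 h2
    have e3 : F (insert i A) = F (insert i (A.erase j)) := by
      conv_lhs => rw [e1, Finset.insert_comm]
      refine hj2 _ (insert_subset hi h1) ?_
      rw [mem_insert, not_or]
      exact ⟨fun h => hij h.symm, h2⟩
    rw [e3, e2, h _ h1 h3 h2]
  · exact h A hA hiA hjA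

/-- **First order expansion with several chains**, elements without influence removed. -/
theorem first_chains' (hC : ∀ c ∈ Γ, C c ⊆ J) (hK : 1 ≤ K) (h1 : ∀ c ∈ Γ, ∀ i ∈ C c, ‖φ i‖ ≤ 1)
    (h2 : ∀ c ∈ Γ, ∀ i ∈ C c, ‖1 - φ i‖ ≤ K * (1 - ‖φ i‖)) (hF : ∀ A ⊆ J, ‖F A‖ ≤ M)
    (sh : ∀ c ∈ Γ, ∀ A ⊆ J, ∀ i ∈ C c, ∀ j ∈ C c, i ∉ A → j ∉ A → i ≠ j → rk c i ≤ rk c j →
      F (insert i A) = F A) :
    ‖cE φ J F - F ∅ - ∑ i ∈ J, φ i * (F {i} - F ∅)‖ ≤
      chErrS φ rk (J \ Ir J F) Γ (fun c => C c \ Ir J F) M K := by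
  classical
  set I := Ir J F with hIdef
  have hI : I ⊆ J := filter_subset _ _
  have irr : ∀ A ⊆ J, ∀ i ∈ I, i ∉ A → F (insert i A) = F A := fun A hA i hi =>
    (mem_Ir.1 hi).2 A hA
  have e1 : J = (J \ I) ∪ I := (sdiff_union_of_subset hI).symm
  have hd : Disjoint (J \ I) I := sdiff_disjoint
  have hconst : ∀ A ⊆ J \ I, ∀ B ⊆ I, F (A ∪ B) = F A := by
    intro A hA B hB
    have h3 := const_of (s := I) (F := fun B => F (A ∪ B)) (fun B hB i hi hiB => by
      rw [union_insert]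
      refine irr (A ∪ B) (union_subset (hA.trans sdiff_subset) (hB.trans hI)) i hi ?_
      rw [mem_union, not_or]
      exact ⟨fun h5 => (mem_sdiff.1 (hA h5)).2 hi, hiB⟩) B hB
    simp only [union_empty] at h3
    exact h3
  have e2 : cE φ J F = cE φ (J \ I) F := by
    have h3 : cE φ J F = cE φ ((J \ I) ∪ I) F := by rw [← e1]
    rw [h3, cE_union hd]
    refine cE_congr' fun A hA => ?_
    rw [cE_congr' (F' := fun _ => F A) (fun B hB => hconst A hA B hB), cE_const]
  have e3 : ∑ i ∈ J, φ i * (F {i} - F ∅) = ∑ i ∈ J \ I, φ i * (F {i} - F ∅) := by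
    symm
    refine sum_subset sdiff_subset fun i hi hi' => ?_
    have h3 : i ∈ I := by
      by_contra h4
      exact hi' (mem_sdiff.2 ⟨hi, h4⟩)
    have h4 := irr ∅ (empty_subset _) i h3 (notMem_empty _)
    have e4 : ({i} : Finset ι) = insert i ∅ := rfl
    rw [e4, h4, sub_self, mul_zero]
  rw [e2, e3]
  refine first_chains (C := fun c => C c \ I)
    (fun c hc => sdiff_subset_sdiff (hC c hc) (Subset.refl _)) hK
    (fun c hc i hi => h1 c hc i (mem_sdiff.1 hi).1)
    (fun c hc i hi => h2 c hc i (mem_sdiff.1 hi).1) (fun A hA => hF A (hA.trans sdiff_subset)) ?_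
  intro c hc A hA i hi j hj hiA hjA hij hr
  exact sh c hc A (hA.trans sdiff_subset) i (mem_sdiff.1 hi).1 j (mem_sdiff.1 hj).1 hiA hjA hij hr

end abstract

end Pool.Agent.H40.Sp
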