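import Mathlib
import Pool.Agent.H39.Q1.SurrI

set_option autoImplicit false
open Finset

/-! # Charts of corners

The charts of helper39's `Hide.lean` (cones which open upwards or downwards, the corner point belongs to
the wall `U = 0`) and their images under the symmetries of the square. The hiding lemmas in all charts. -/

namespace Pool.Agent.H40.Sp

open Pool.Agent.H75.Perc Pool.Agent.H75.TwoArm Pool.Agent.H75.TwoArm.DecayAux
open Pool.Agent.H39.Q1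

/-! ### The four hiding lemmas and the surrounding property as statements on coordinates -/

/-- points outside -/
def FarC (U V : ℤ × ℤ → ℤ) (h Um Vm : ℤ) (q : ℤ × ℤ) : Prop :=
  (2 * h < U q ∧ 2 * h < V q) ∨ Um < U q ∨ Vm < V q

/-- statement (1) -/
def SLL (U V : ℤ × ℤ → ℤ) : Prop :=
  ∀ (c : Bool) (H H' : Finset (ℤ × ℤ)) (h Um Vm : ℤ) (p r t x q : ℤ × ℤ), 1 ≤ h →
    (∀ x y, IsUnit4 (y - x) → x + y ∈ H →
      (1 ≤ U (el c x y) ∧ 1 ≤ V (el c x y)) ∧ (U (el c x y) < Um ∧ V (el c x y) < Vm) ∧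
        (U (el c x y) < 2 * h ∨ V (el c x y) < 2 * h)) →
    (∀ x y, IsUnit4 (y - x) → x + y ∈ H' → 1 ≤ U (el c x y) ∧ -1 ≤ V (el c x y)) →
    0 ≤ Um → U (nd c p) = 0 → 1 ≤ V (nd c p) → U (nd c r) = 0 → V (nd c p) < V (nd c r) →
    V (nd c r) ≤ Vm → Co H r t → V (nd c t) = 0 → Co H' p x →
    IsUnit4 (q - nd c x) → (0 ≤ U q ∧ -2 ≤ V q) → FarC U V h Um Vm q → ∃ w, Co H r w ∧ Co H' p w

/-- statement (4) -/
def SFF (U V : ℤ × ℤ → ℤ) : Prop :=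
  ∀ (c : Bool) (H H' : Finset (ℤ × ℤ)) (h Um Vm : ℤ) (p g f x q : ℤ × ℤ), 1 ≤ h →
    (∀ x y, IsUnit4 (y - x) → x + y ∈ H →
      (1 ≤ U (el c x y) ∧ 1 ≤ V (el c x y)) ∧ (U (el c x y) < Um ∧ V (el c x y) < Vm) ∧
        (U (el c x y) < 2 * h ∨ V (el c x y) < 2 * h)) →
    (∀ x y, IsUnit4 (y - x) → x + y ∈ H' → -1 ≤ U (el c x y) ∧ 1 ≤ V (el c x y)) →
    0 ≤ Vm → U (nd c p) = 0 → 1 ≤ V (nd c p) → U (nd c g) = 0 → V (nd c p) < V (nd c g) →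
    Co H g f → V (nd c f) = 0 → U (nd c f) ≤ Um → Co H' p x →
    IsUnit4 (q - nd c x) → (-2 ≤ U q ∧ 0 ≤ V q) → FarC U V h Um Vm q → ∃ w, Co H g w ∧ Co H' p w

/-- statement (2) -/
def SLF (U V : ℤ × ℤ → ℤ) : Prop :=
  ∀ (c c' : Bool) (H H' : Finset (ℤ × ℤ)) (h Um Vm : ℤ) (p g f o e x q : ℤ × ℤ), 1 ≤ h → c ≠ c' →
    (∀ x y, IsUnit4 (y - x) → x + y ∈ H →
      (1 ≤ U (el c' x y) ∧ 1 ≤ V (el c' x y)) ∧ (U (el c' x y) < Um ∧ V (el c' x y) < Vm) ∧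
        (U (el c' x y) < 2 * h ∨ V (el c' x y) < 2 * h)) →
    (∀ x y, IsUnit4 (y - x) → x + y ∈ H' → 1 ≤ U (el c x y) ∧ -1 ≤ V (el c x y)) →
    (∀ x y x' y', IsUnit4 (y - x) → x + y ∈ H → IsUnit4 (y' - x') → x' + y' ∈ H' →
      el c' x y ≠ el c x' y') → 0 ≤ Vm →
    U (nd c p) = 0 → 1 ≤ V (nd c p) → U (nd c' g) = 0 → V (nd c p) < V (nd c' g) →
    Co H g f → V (nd c' f) = 0 → U (nd c' f) ≤ Um →
    IsUnit4 (o - f) → e = el c' f o → V e = -1 → U e ≤ Um → V (nd c' o) = -2 →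
    U (nd c' o) ≤ Um → (∀ x y, IsUnit4 (y - x) → x + y ∈ H' → el c x y ≠ e) →
    Co H' p x → IsUnit4 (q - nd c x) → (0 ≤ U q ∧ -2 ≤ V q) → FarC U V h Um Vm q → False

/-- statement (3) -/
def SFL (U V : ℤ × ℤ → ℤ) : Prop :=
  ∀ (c c' : Bool) (H H' : Finset (ℤ × ℤ)) (h Um Vm : ℤ) (p r t o e x q : ℤ × ℤ), 1 ≤ h → c ≠ c' →
    (∀ x y, IsUnit4 (y - x) → x + y ∈ H →
      (1 ≤ U (el c' x y) ∧ 1 ≤ V (el c' x y)) ∧ (U (el c' x y) < Um ∧ V (el c' x y) < Vm) ∧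
        (U (el c' x y) < 2 * h ∨ V (el c' x y) < 2 * h)) →
    (∀ x y, IsUnit4 (y - x) → x + y ∈ H' → -1 ≤ U (el c x y) ∧ 1 ≤ V (el c x y)) →
    (∀ x y x' y', IsUnit4 (y - x) → x + y ∈ H → IsUnit4 (y' - x') → x' + y' ∈ H' →
      el c' x y ≠ el c x' y') → 0 ≤ Um →
    U (nd c p) = 0 → 1 ≤ V (nd c p) → U (nd c' r) = 0 → V (nd c p) < V (nd c' r) →
    V (nd c' r) ≤ Vm → Co H r t → V (nd c' t) = 0 → IsUnit4 (o - r) → e = el c' r o →
    U e = -1 → V e ≤ Vm → U (nd c' o) = -2 → V (nd c' o) ≤ Vm →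
    (∀ x y, IsUnit4 (y - x) → x + y ∈ H' → el c x y ≠ e) →
    Co H' p x → IsUnit4 (q - nd c x) → (-2 ≤ U q ∧ 0 ≤ V q) → FarC U V h Um Vm q → False

/-- the surrounding property -/
def SurC (U V : ℤ × ℤ → ℤ) (h : ℤ) (L ω : Finset (ℤ × ℤ)) : Prop :=
  ∀ c c' : Bool, c ≠ c' → ∀ u t : ℤ × ℤ, U (nd c u) = 0 → 0 ≤ V (nd c u) →
    Co (HS c L ω) u t → V (nd c t) = 0 →
    (∀ x, Co (HS c L ω) u x → U (nd c x) < 2 * h ∧ V (nd c x) < 2 * h) →
    ∃ g f, Co (HS c' L ω) g f ∧ U (nd c' g) = 0 ∧ V (nd c' f) = 0 ∧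
      (∀ x, Co (HS c L ω) u x → U (nd c x) = 0 → V (nd c x) < V (nd c' g)) ∧
      (∀ x, Co (HS c L ω) u x → V (nd c x) = 0 → U (nd c x) < U (nd c' f)) ∧
      V (nd c' g) ≤ 2 * h ∧ U (nd c' f) ≤ 2 * h

/-- statement: the surrounding property holds -/
def SSur (U V : ℤ × ℤ → ℤ) : Prop :=
  ∀ (h : ℤ) (L : Finset (ℤ × ℤ)), (∀ l ∈ L, 1 ≤ U l ∧ 1 ≤ V l) →
    (∀ l : ℤ × ℤ, (l.1 + l.2) % 2 = 1 → 1 ≤ U l → 1 ≤ V l → U l < 2 * h → V l < 2 * h → l ∈ L) →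
    ∀ ω, SurC U V h L ω

/-- all statements -/
structure Hid (U V : ℤ × ℤ → ℤ) : Prop where
  LL : SLL U V
  FF : SFF U V
  LF : SLF U V
  FL : SFL U V
  sur : SSur U V

theorem hid_base {ε x0 y0 : ℤ} (hε : ε = 1 ∨ ε = -1) : Hid (cU ε x0 y0) (cV ε x0 y0) where
  LL := fun _ _ _ _ _ _ _ _ _ _ _ hh hH hH' h1 h2 h3 h4 h5 h6 h7 h8 h9 h10 h11 h12 =>
    hide_LL hε hh hH hH' h1 h2 h3 h4 h5 h6 h7 h8 h9 h10 h11 h12
  FF := fun _ _ _ _ _ _ _ _ _ _ _ hh hH hH' h1 h2 h3 h4 h5 h6 h7 h8 h9 h10 h11 h12 =>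
    hide_FF hε hh hH hH' h1 h2 h3 h4 h5 h6 h7 h8 h9 h10 h11 h12
  LF := fun _ _ _ _ _ _ _ _ _ _ _ _ _ _ hh hc hH hH' hne h1 h2 h3 h4 h5 h6 h7 h8 h9 h10 h11 h12 h13
      h14 h15 h16 h17 h18 h19 =>
    hide_LF hε hh hc hH hH' hne h1 h2 h3 h4 h5 h6 h7 h8 h9 h10 h11 h12 h13 h14 h15 h16 h17 h18 h19
  FL := fun _ _ _ _ _ _ _ _ _ _ _ _ _ _ hh hc hH hH' hne h1 h2 h3 h4 h5 h6 h7 h8 h9 h10 h11 h12 h13
      h14 h15 h16 h17 h18 h19 =>
    hide_FL hε hh hc hH hH' hne h1 h2 h3 h4 h5 h6 h7 h8 h9 h10 h11 h12 h13 h14 h15 h16 h17 h18 h19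
  sur := fun _ _ hL1 hL2 ω => surr_of hε hL1 hL2 ω

/-! ### Symmetries -/

/-- an involution of the doubled grid and its action on the nodes of both colours -/
structure Sym where
  nm : Bool → ℤ × ℤ → ℤ × ℤ
  dm : ℤ × ℤ → ℤ × ℤ
  gs : Bool → Finset (ℤ × ℤ) → Finset (ℤ × ℤ)
  ds : Finset (ℤ × ℤ) → Finset (ℤ × ℤ)
  nm_nm : ∀ c x, nm c (nm c x) = x
  dm_dm : ∀ z, dm (dm z) = z
  mem : ∀ c H x y, x + y ∈ gs c H ↔ nm c x + nm c y ∈ H
  mem_ds : ∀ H z, z ∈ ds H ↔ dm z ∈ H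
  ndm : ∀ c x, nd c (nm c x) = dm (nd c x)
  elm : ∀ c x y, el c (nm c x) (nm c y) = dm (el c x y)
  unit : ∀ c x y, IsUnit4 (nm c y - nm c x) ↔ IsUnit4 (y - x)
  dunit : ∀ x y, IsUnit4 (dm y - dm x) ↔ IsUnit4 (y - x)
  odd : ∀ z, ((dm z).1 + (dm z).2) % 2 = 1 ↔ (z.1 + z.2) % 2 = 1

namespace Sym

variable (S : Sym) {c c' : Bool} {H H' L ω : Finset (ℤ × ℤ)} {a b p x y z : ℤ × ℤ}
  {U V : ℤ × ℤ → ℤ}

lemma co (h : Co H a b) : Co (S.gs c H) (S.nm c a) (S.nm c b) := by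
  induction h with
  | refl => exact Co.refl _ _
  | tail _ hbc ih =>
    refine ih.tail ⟨(S.unit c _ _).2 hbc.1, ?_⟩
    rw [S.mem, S.nm_nm, S.nm_nm]
    exact hbc.2

lemma co' (h : Co (S.gs c H) a b) : Co H (S.nm c a) (S.nm c b) := by
  induction h with
  | refl => exact Co.refl _ _
  | tail _ hbc ih => exact ih.tail ⟨(S.unit c _ _).2 hbc.1, (S.mem c H _ _).1 hbc.2⟩

lemma HS_mem (_hu : IsUnit4 (y - x)) :
    x + y ∈ HS c (S.ds L) (S.ds ω) ↔ S.nm c x + S.nm c y ∈ HS c L ω := by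
  rw [mem_HS, mem_HS, S.elm, S.mem_ds]
  unfold ps
  rw [S.mem_ds]

lemma coHS (h : Co (HS c L ω) a b) : Co (HS c (S.ds L) (S.ds ω)) (S.nm c a) (S.nm c b) := by
  induction h with
  | refl => exact Co.refl _ _
  | tail _ hbc ih =>
    refine ih.tail ⟨(S.unit c _ _).2 hbc.1, ?_⟩
    rw [S.HS_mem ((S.unit c _ _).2 hbc.1), S.nm_nm, S.nm_nm]
    exact hbc.2

lemma coHS' (h : Co (HS c (S.ds L) (S.ds ω)) a b) : Co (HS c L ω) (S.nm c a) (S.nm c b) := by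
  induction h with
  | refl => exact Co.refl _ _
  | tail _ hbc ih => exact ih.tail ⟨(S.unit c _ _).2 hbc.1, (S.HS_mem hbc.1).1 hbc.2⟩

lemma tr {P : ℤ → ℤ → Prop} (hH : ∀ x y, IsUnit4 (y - x) → x + y ∈ H →
      P (U (S.dm (el c x y))) (V (S.dm (el c x y)))) : ∀ x y, IsUnit4 (y - x) →
      x + y ∈ S.gs c H → P (U (el c x y)) (V (el c x y)) := by
  intro x y h1 h2
  have := hH (S.nm c x) (S.nm c y) ((S.unit c _ _).2 h1) ((S.mem c H _ _).1 h2)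
  rwa [S.elm, S.dm_dm] at this

lemma q_unit (hq : IsUnit4 (z - nd c x)) : IsUnit4 (S.dm z - nd c (S.nm c x)) := by
  rw [S.ndm]; exact (S.dunit _ _).2 hq

theorem hid (h : Hid U V) : Hid (fun z => U (S.dm z)) (fun z => V (S.dm z)) where
  LL := by
    intro c H H' h' Um Vm p r t x q hh hH hH' h1 h2 h3 h4 h5 h6 h7 h8 h9 h10 h11 h12
    simp only [← S.ndm] at h2 h3 h4 h5 h6 h8
    obtain ⟨w, k1, k2⟩ := h.LL c (S.gs c H) (S.gs c H') h' Um Vm (S.nm c p) (S.nm c r) (S.nm c t)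
      (S.nm c x) (S.dm q) hh
      (S.tr (P := fun u v => (1 ≤ u ∧ 1 ≤ v) ∧ (u < Um ∧ v < Vm) ∧ (u < 2 * h' ∨ v < 2 * h')) hH)
      (S.tr (P := fun u v => 1 ≤ u ∧ -1 ≤ v) hH') h1 h2 h3 h4 h5 h6 (S.co h7) h8 (S.co h9)
      (S.q_unit h10) h11 h12
    refine ⟨S.nm c w, ?_, ?_⟩
    · have := S.co' k1; rwa [S.nm_nm] at this
    · have := S.co' k2; rwa [S.nm_nm] at this
  FF := by
    intro c H H' h' Um Vm p g f x q hh hH hH' h1 h2 h3 h4 h5 h6 h7 h8 h9 h10 h11 h12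
    simp only [← S.ndm] at h2 h3 h4 h5 h7 h8
    obtain ⟨w, k1, k2⟩ := h.FF c (S.gs c H) (S.gs c H') h' Um Vm (S.nm c p) (S.nm c g) (S.nm c f)
      (S.nm c x) (S.dm q) hh
      (S.tr (P := fun u v => (1 ≤ u ∧ 1 ≤ v) ∧ (u < Um ∧ v < Vm) ∧ (u < 2 * h' ∨ v < 2 * h')) hH)
      (S.tr (P := fun u v => -1 ≤ u ∧ 1 ≤ v) hH') h1 h2 h3 h4 h5 (S.co h6) h7 h8 (S.co h9)
      (S.q_unit h10) h11 h12
    refine ⟨S.nm c w, ?_, ?_⟩
    · have := S.co' k1; rwa [S.nm_nm] at this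
    · have := S.co' k2; rwa [S.nm_nm] at this
  LF := by
    intro c c' H H' h' Um Vm p g f o e x q hh hc hH hH' hne h1 h2 h3 h4 h5 h6 h7 h8 h9 h10 h11 h12
      h13 h14 h15 h16 h17 h18 h19
    simp only [← S.ndm] at h2 h3 h4 h5 h7 h8 h13 h14
    refine h.LF c c' (S.gs c' H) (S.gs c H') h' Um Vm (S.nm c p) (S.nm c' g) (S.nm c' f)
      (S.nm c' o) (S.dm e) (S.nm c x) (S.dm q) hh hc
      (S.tr (P := fun u v => (1 ≤ u ∧ 1 ≤ v) ∧ (u < Um ∧ v < Vm) ∧ (u < 2 * h' ∨ v < 2 * h')) hH)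
      (S.tr (P := fun u v => 1 ≤ u ∧ -1 ≤ v) hH') ?_ h1 h2 h3 h4 h5 (S.co h6) h7 h8
      ((S.unit c' _ _).2 h9) (by rw [h10, S.elm]) h11 h12 h13 h14 ?_ (S.co h16)
      (S.q_unit h17) h18 h19
    · intro x y x' y' g1 g2 g3 g4 g5
      refine hne _ _ _ _ ((S.unit c' _ _).2 g1) ((S.mem c' H _ _).1 g2) ((S.unit c _ _).2 g3)
        ((S.mem c H' _ _).1 g4) ?_
      rw [S.elm, S.elm, g5]
    · intro x y g1 g2 g3
      refine h15 _ _ ((S.unit c _ _).2 g1) ((S.mem c H' _ _).1 g2) ?_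
      rw [S.elm, g3, S.dm_dm]
  FL := by
    intro c c' H H' h' Um Vm p r t o e x q hh hc hH hH' hne h1 h2 h3 h4 h5 h6 h7 h8 h9 h10 h11 h12
      h13 h14 h15 h16 h17 h18 h19
    simp only [← S.ndm] at h2 h3 h4 h5 h6 h8 h13 h14
    refine h.FL c c' (S.gs c' H) (S.gs c H') h' Um Vm (S.nm c p) (S.nm c' r) (S.nm c' t)
      (S.nm c' o) (S.dm e) (S.nm c x) (S.dm q) hh hc
      (S.tr (P := fun u v => (1 ≤ u ∧ 1 ≤ v) ∧ (u < Um ∧ v < Vm) ∧ (u < 2 * h' ∨ v < 2 * h')) hH)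
      (S.tr (P := fun u v => -1 ≤ u ∧ 1 ≤ v) hH') ?_ h1 h2 h3 h4 h5 h6 (S.co h7) h8
      ((S.unit c' _ _).2 h9) (by rw [h10, S.elm]) h11 h12 h13 h14 ?_ (S.co h16)
      (S.q_unit h17) h18 h19
    · intro x y x' y' g1 g2 g3 g4 g5
      refine hne _ _ _ _ ((S.unit c' _ _).2 g1) ((S.mem c' H _ _).1 g2) ((S.unit c _ _).2 g3)
        ((S.mem c H' _ _).1 g4) ?_
      rw [S.elm, S.elm, g5]
    · intro x y g1 g2 g3
      refine h15 _ _ ((S.unit c _ _).2 g1) ((S.mem c H' _ _).1 g2) ?_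
      rw [S.elm, g3, S.dm_dm]
  sur := by
    intro h' L hL1 hL2 ω c c' hc u t h1 h2 h3 h4 h5
    simp only [← S.ndm] at h1 h2 h4
    have hS := h.sur h' (S.ds L) (fun l hl => by
        have := hL1 _ ((S.mem_ds L l).1 hl)
        simp only [S.dm_dm] at this
        exact this)
      (fun l hl g1 g2 g3 g4 => by
        rw [S.mem_ds]
        refine hL2 _ ((S.odd l).2 hl) ?_ ?_ ?_ ?_ <;> simp only [S.dm_dm] <;> assumption)
      (S.ds ω)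
    obtain ⟨g, f, k1, k2, k3, k4, k5, k6, k7⟩ := hS c c' hc (S.nm c u) (S.nm c t) h1 h2
      (S.coHS h3) h4 (fun x hx => by
        have := h5 (S.nm c x) (by have := S.coHS' hx; rwa [S.nm_nm] at this)
        simp only [S.ndm, S.dm_dm] at this
        exact this)
    refine ⟨S.nm c' g, S.nm c' f, S.coHS' k1, ?_, ?_, fun x hx hx0 => ?_, fun x hx hx0 => ?_, ?_, ?_⟩
    · simp only [S.ndm, S.dm_dm]; exact k2
    · simp only [S.ndm, S.dm_dm]; exact k3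
    · simp only [← S.ndm] at hx0
      have := k4 _ (S.coHS hx) hx0
      simp only [S.ndm, S.dm_dm] at this ⊢
      exact this
    · simp only [← S.ndm] at hx0
      have := k5 _ (S.coHS hx) hx0
      simp only [S.ndm, S.dm_dm] at this ⊢
      exact this
    · simp only [S.ndm, S.dm_dm]; exact k6
    · simp only [S.ndm, S.dm_dm]; exact k7

end Sym

/-- exchange of the coordinates -/
def sw (z : ℤ × ℤ) : ℤ × ℤ := (z.2, z.1)

/-- reflection of the doubled grid -/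
def rf (z : ℤ × ℤ) : ℤ × ℤ := (-z.1, z.2)

/-- reflection of the nodes -/
def rn (c : Bool) (z : ℤ × ℤ) : ℤ × ℤ := if c = true then (-z.1, z.2) else (1 - z.1, z.2)

lemma mem_image_inv {α : Type*} [DecidableEq α] {f : α → α} (hf : ∀ x, f (f x) = x)
    {H : Finset α} {z : α} : z ∈ H.image f ↔ f z ∈ H := by
  rw [mem_image]
  constructor
  · rintro ⟨a, h, rfl⟩; rw [hf]; exact h
  · intro h; exact ⟨_, h, hf z⟩

/-- exchange of the coordinates -/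
def symSw : Sym where
  nm := fun _ => sw
  dm := sw
  gs := fun _ H => H.image sw
  ds := fun H => H.image sw
  nm_nm := fun _ _ => rfl
  dm_dm := fun _ => rfl
  mem := fun _ _ _ _ => mem_image_inv fun _ => rfl
  mem_ds := fun _ _ => mem_image_inv fun _ => rfl
  ndm := fun c x => by cases c <;> rfl
  elm := fun c x y => by
    cases c
    · rw [el_false, el_false]; rfl
    · rw [el_true, el_true]; rfl
  unit := fun _ x y => by
    unfold IsUnit4 sw; simp only [Prod.ext_iff, Prod.fst_sub, Prod.snd_sub]; omega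
  dunit := fun x y => by
    unfold IsUnit4 sw; simp only [Prod.ext_iff, Prod.fst_sub, Prod.snd_sub]; omega
  odd := fun z => by unfold sw; simp only; omega

/-- reflection -/
def symRf : Sym where
  nm := rn
  dm := rf
  gs := fun c H => H.image (fun z => if c = true then (-z.1, z.2) else (2 - z.1, z.2))
  ds := fun H => H.image rf
  nm_nm := fun c x => by
    cases c
    · unfold rn; rw [if_neg Bool.false_ne_true, if_neg Bool.false_ne_true]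
      refine Prod.ext ?_ rfl; simp only; ring
    · unfold rn; rw [if_pos rfl, if_pos rfl]
      refine Prod.ext ?_ rfl; simp only; ring
  dm_dm := fun z => by unfold rf; refine Prod.ext ?_ rfl; simp only; ring
  mem := fun c H x y => by
    cases c
    · rw [mem_image_inv (f := fun z : ℤ × ℤ => if false = true then (-z.1, z.2) else (2 - z.1, z.2))
        (fun x => by
          rw [if_neg Bool.false_ne_true, if_neg Bool.false_ne_true]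
          refine Prod.ext ?_ rfl; simp only; ring)]
      rw [if_neg Bool.false_ne_true]
      unfold rn
      rw [if_neg Bool.false_ne_true, if_neg Bool.false_ne_true]
      have : (2 - (x + y).1, (x + y).2) = ((1 - x.1, x.2) + (1 - y.1, y.2) : ℤ × ℤ) := by
        refine Prod.ext ?_ ?_
        · simp only [Prod.fst_add]; ring
        · rfl
      rw [this]
    · rw [mem_image_inv (f := fun z : ℤ × ℤ => if true = true then (-z.1, z.2) else (2 - z.1, z.2))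
        (fun x => by
          rw [if_pos rfl, if_pos rfl]
          refine Prod.ext ?_ rfl; simp only; ring)]
      rw [if_pos rfl]
      unfold rn
      rw [if_pos rfl, if_pos rfl]
      have : (-(x + y).1, (x + y).2) = ((-x.1, x.2) + (-y.1, y.2) : ℤ × ℤ) := by
        refine Prod.ext ?_ ?_
        · simp only [Prod.fst_add]; ring
        · rfl
      rw [this]
  mem_ds := fun _ _ => mem_image_inv fun z => by
    unfold rf; refine Prod.ext ?_ rfl; simp only; ring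
  ndm := fun c x => by
    cases c
    · unfold rn rf
      rw [if_neg Bool.false_ne_true, nd_false, nd_false]
      refine Prod.ext ?_ rfl; simp only; ring
    · unfold rn rf
      rw [if_pos rfl, nd_true, nd_true]
      refine Prod.ext ?_ rfl; simp only; ring
  elm := fun c x y => by
    cases c
    · unfold rn rf
      rw [if_neg Bool.false_ne_true, if_neg Bool.false_ne_true, el_false, el_false]
      refine Prod.ext ?_ ?_
      · simp only [Prod.fst_sub, Prod.fst_add]; ring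
      · rfl
    · unfold rn rf
      rw [if_pos rfl, if_pos rfl, el_true, el_true]
      refine Prod.ext ?_ ?_
      · simp only [Prod.fst_add]; ring
      · rfl
  unit := fun c x y => by
    cases c
    · unfold rn
      rw [if_neg Bool.false_ne_true, if_neg Bool.false_ne_true]
      unfold IsUnit4; simp only [Prod.ext_iff, Prod.fst_sub, Prod.snd_sub]; omega
    · unfold rn
      rw [if_pos rfl, if_pos rfl]
      unfold IsUnit4; simp only [Prod.ext_iff, Prod.fst_sub, Prod.snd_sub]; omega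
  dunit := fun x y => by
    unfold IsUnit4 rf; simp only [Prod.ext_iff, Prod.fst_sub, Prod.snd_sub]; omega
  odd := fun z => by unfold rf; simp only; omega

/-! ### Charts -/

/-- charts: `s` : the cone opens to a side, `r` : the corner point belongs to the other wall -/
structure Cht where
  s : Bool
  r : Bool
  ε : ℤ
  x0 : ℤ
  y0 : ℤ
  hε : ε = 1 ∨ ε = -1

/-- first coordinate without exchange -/
def cU' (r : Bool) (ε x0 y0 : ℤ) (z : ℤ × ℤ) : ℤ := if r = true then cV ε x0 y0 z else cU ε x0 y0 z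

/-- second coordinate without exchange -/
def cV' (r : Bool) (ε x0 y0 : ℤ) (z : ℤ × ℤ) : ℤ := if r = true then cU ε x0 y0 z else cV ε x0 y0 z

theorem hid_r {r : Bool} {ε x0 y0 : ℤ} (hε : ε = 1 ∨ ε = -1) :
    Hid (cU' r ε x0 y0) (cV' r ε x0 y0) := by
  cases r
  · exact hid_base hε
  · have h := symRf.hid (hid_base (x0 := -x0) (y0 := y0) hε)
    have e1 : (fun z => cU ε (-x0) y0 (symRf.dm z)) = cU' true ε x0 y0 := by
      funext z
      show cU ε (-x0) y0 (rf z) = cU' true ε x0 y0 z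
      unfold cU' rf cV cU cx cy
      rw [if_pos rfl]; simp only; ring
    have e2 : (fun z => cV ε (-x0) y0 (symRf.dm z)) = cV' true ε x0 y0 := by
      funext z
      show cV ε (-x0) y0 (rf z) = cV' true ε x0 y0 z
      unfold cV' rf cV cU cx cy
      rw [if_pos rfl]; simp only; ring
    rw [e1, e2] at h
    exact h

namespace Cht

variable (κ : Cht)

/-- first coordinate -/
def U (z : ℤ × ℤ) : ℤ := cU' κ.r κ.ε κ.x0 κ.y0 (if κ.s = true then sw z else z)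

/-- second coordinate -/
def V (z : ℤ × ℤ) : ℤ := cV' κ.r κ.ε κ.x0 κ.y0 (if κ.s = true then sw z else z)

theorem hid : Hid κ.U κ.V := by
  obtain ⟨s, r, ε, x0, y0, hε⟩ := κ
  cases s
  · exact hid_r hε
  · exact symSw.hid (hid_r hε)

lemma unit_UV {a b : ℤ × ℤ} (hab : IsUnit4 (b - a)) :
    (κ.U b - κ.U a = 1 ∨ κ.U b - κ.U a = -1) ∧ (κ.V b - κ.V a = 1 ∨ κ.V b - κ.V a = -1) := by
  obtain ⟨s, r, ε, x0, y0, hε⟩ := κ
  have h1 : ∀ {a b : ℤ × ℤ}, IsUnit4 (b - a) → (cU' r ε x0 y0 b - cU' r ε x0 y0 a = 1 ∨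
      cU' r ε x0 y0 b - cU' r ε x0 y0 a = -1) ∧ (cV' r ε x0 y0 b - cV' r ε x0 y0 a = 1 ∨
      cV' r ε x0 y0 b - cV' r ε x0 y0 a = -1) := by
    intro a b h
    have := Pool.Agent.H39.Q1.unit_UV (x0 := x0) (y0 := y0) hε h
    cases r
    · exact this
    · exact ⟨this.2, this.1⟩
  cases s
  · exact h1 hab
  · exact h1 ((symSw.dunit _ _).2 hab)

lemma inj {a b : ℤ × ℤ} (h1 : κ.U a = κ.U b) (h2 : κ.V a = κ.V b) : a = b := by
  obtain ⟨s, r, ε, x0, y0, hε⟩ := κ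
  have h3 : ∀ {a b : ℤ × ℤ}, cU' r ε x0 y0 a = cU' r ε x0 y0 b →
      cV' r ε x0 y0 a = cV' r ε x0 y0 b → a = b := by
    intro a b g1 g2
    refine chart_inj (ε := ε) (x0 := x0) (y0 := y0) hε ?_
    unfold cU' at g1
    unfold cV' at g2
    unfold cU cV at g1 g2
    cases r
    · rw [if_neg Bool.false_ne_true, if_neg Bool.false_ne_true] at g1 g2
      refine Prod.ext ?_ ?_ <;> simp only <;> omega
    · rw [if_pos rfl, if_pos rfl] at g1 g2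
      refine Prod.ext ?_ ?_ <;> simp only <;> omega
  cases s
  · exact h3 h1 h2
  · have := h3 (a := sw a) (b := sw b) h1 h2
    have h4 := congrArg sw this
    exact h4

/-- points outside -/
def Far (h Um Vm : ℤ) (q : ℤ × ℤ) : Prop := (2 * h < κ.U q ∧ 2 * h < κ.V q) ∨ Um < κ.U q ∨ Vm < κ.V q

/-- the surrounding property -/
def Sur (h : ℤ) (L ω : Finset (ℤ × ℤ)) : Prop := SurC κ.U κ.V h L ω

variable {κ} {c c' : Bool} {H H' L ω : Finset (ℤ × ℤ)} {h Um Vm : ℤ}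

theorem sur_of (hL1 : ∀ l ∈ L, 1 ≤ κ.U l ∧ 1 ≤ κ.V l)
    (hL2 : ∀ l : ℤ × ℤ, (l.1 + l.2) % 2 = 1 → 1 ≤ κ.U l → 1 ≤ κ.V l →
      κ.U l < 2 * h → κ.V l < 2 * h → l ∈ L) (ω : Finset (ℤ × ℤ)) : κ.Sur h L ω :=
  κ.hid.sur h L hL1 hL2 ω

/-- **(1)** -/
theorem hide_LL (hh : 1 ≤ h) {p r t x q : ℤ × ℤ}
    (hH : ∀ x y, IsUnit4 (y - x) → x + y ∈ H →
      (1 ≤ κ.U (el c x y) ∧ 1 ≤ κ.V (el c x y)) ∧
      (κ.U (el c x y) < Um ∧ κ.V (el c x y) < Vm) ∧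
        (κ.U (el c x y) < 2 * h ∨ κ.V (el c x y) < 2 * h))
    (hH' : ∀ x y, IsUnit4 (y - x) → x + y ∈ H' →
      1 ≤ κ.U (el c x y) ∧ -1 ≤ κ.V (el c x y))
    (hUm : 0 ≤ Um)
    (hpU : κ.U (nd c p) = 0) (hpV : 1 ≤ κ.V (nd c p))
    (hrU : κ.U (nd c r) = 0) (hrV : κ.V (nd c p) < κ.V (nd c r))
    (hrm : κ.V (nd c r) ≤ Vm)
    (hrt : Co H r t) (ht : κ.V (nd c t) = 0) (hx : Co H' p x)
    (hq : IsUnit4 (q - nd c x)) (hq0 : 0 ≤ κ.U q ∧ -2 ≤ κ.V q)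
    (hqF : κ.Far h Um Vm q) :
    ∃ w, Co H r w ∧ Co H' p w :=
  κ.hid.LL c H H' h Um Vm p r t x q hh hH hH' hUm hpU hpV hrU hrV hrm hrt ht hx hq hq0 hqF

/-- **(4)** -/
theorem hide_FF (hh : 1 ≤ h) {p g f x q : ℤ × ℤ}
    (hH : ∀ x y, IsUnit4 (y - x) → x + y ∈ H →
      (1 ≤ κ.U (el c x y) ∧ 1 ≤ κ.V (el c x y)) ∧
      (κ.U (el c x y) < Um ∧ κ.V (el c x y) < Vm) ∧
        (κ.U (el c x y) < 2 * h ∨ κ.V (el c x y) < 2 * h))
    (hH' : ∀ x y, IsUnit4 (y - x) → x + y ∈ H' →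
      -1 ≤ κ.U (el c x y) ∧ 1 ≤ κ.V (el c x y)) (hVm : 0 ≤ Vm)
    (hpU : κ.U (nd c p) = 0) (hpV : 1 ≤ κ.V (nd c p))
    (hgU : κ.U (nd c g) = 0) (hgV : κ.V (nd c p) < κ.V (nd c g))
    (hgf : Co H g f) (hf : κ.V (nd c f) = 0) (hfm : κ.U (nd c f) ≤ Um)
    (hx : Co H' p x)
    (hq : IsUnit4 (q - nd c x)) (hq0 : -2 ≤ κ.U q ∧ 0 ≤ κ.V q)
    (hqF : κ.Far h Um Vm q) :
    ∃ w, Co H g w ∧ Co H' p w :=
  κ.hid.FF c H H' h Um Vm p g f x q hh hH hH' hVm hpU hpV hgU hgV hgf hf hfm hx hq hq0 hqF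

/-- **(2)** -/
theorem hide_LF (hh : 1 ≤ h) (hc : c ≠ c') {p g f o e x q : ℤ × ℤ}
    (hH : ∀ x y, IsUnit4 (y - x) → x + y ∈ H →
      (1 ≤ κ.U (el c' x y) ∧ 1 ≤ κ.V (el c' x y)) ∧
      (κ.U (el c' x y) < Um ∧ κ.V (el c' x y) < Vm) ∧
        (κ.U (el c' x y) < 2 * h ∨ κ.V (el c' x y) < 2 * h))
    (hH' : ∀ x y, IsUnit4 (y - x) → x + y ∈ H' →
      1 ≤ κ.U (el c x y) ∧ -1 ≤ κ.V (el c x y))
    (hne : ∀ x y x' y', IsUnit4 (y - x) → x + y ∈ H → IsUnit4 (y' - x') → x' + y' ∈ H' →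
      el c' x y ≠ el c x' y') (hVm : 0 ≤ Vm)
    (hpU : κ.U (nd c p) = 0) (hpV : 1 ≤ κ.V (nd c p))
    (hgU : κ.U (nd c' g) = 0) (hgV : κ.V (nd c p) < κ.V (nd c' g))
    (hgf : Co H g f) (hf : κ.V (nd c' f) = 0) (hfm : κ.U (nd c' f) ≤ Um)
    (hfo : IsUnit4 (o - f)) (he : e = el c' f o)
    (heV : κ.V e = -1) (hem : κ.U e ≤ Um)
    (hoV : κ.V (nd c' o) = -2) (hom : κ.U (nd c' o) ≤ Um)
    (heH : ∀ x y, IsUnit4 (y - x) → x + y ∈ H' → el c x y ≠ e)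
    (hx : Co H' p x)
    (hq : IsUnit4 (q - nd c x)) (hq0 : 0 ≤ κ.U q ∧ -2 ≤ κ.V q)
    (hqF : κ.Far h Um Vm q) :
    False :=
  κ.hid.LF c c' H H' h Um Vm p g f o e x q hh hc hH hH' hne hVm hpU hpV hgU hgV hgf hf hfm hfo he
    heV hem hoV hom heH hx hq hq0 hqF

/-- **(3)** -/
theorem hide_FL (hh : 1 ≤ h) (hc : c ≠ c') {p r t o e x q : ℤ × ℤ}
    (hH : ∀ x y, IsUnit4 (y - x) → x + y ∈ H →
      (1 ≤ κ.U (el c' x y) ∧ 1 ≤ κ.V (el c' x y)) ∧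
      (κ.U (el c' x y) < Um ∧ κ.V (el c' x y) < Vm) ∧
        (κ.U (el c' x y) < 2 * h ∨ κ.V (el c' x y) < 2 * h))
    (hH' : ∀ x y, IsUnit4 (y - x) → x + y ∈ H' →
      -1 ≤ κ.U (el c x y) ∧ 1 ≤ κ.V (el c x y))
    (hne : ∀ x y x' y', IsUnit4 (y - x) → x + y ∈ H → IsUnit4 (y' - x') → x' + y' ∈ H' →
      el c' x y ≠ el c x' y') (hUm : 0 ≤ Um)
    (hpU : κ.U (nd c p) = 0) (hpV : 1 ≤ κ.V (nd c p))
    (hrU : κ.U (nd c' r) = 0) (hrV : κ.V (nd c p) < κ.V (nd c' r))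
    (hrm : κ.V (nd c' r) ≤ Vm)
    (hrt : Co H r t) (ht : κ.V (nd c' t) = 0) (hro : IsUnit4 (o - r)) (he : e = el c' r o)
    (heU : κ.U e = -1) (hem : κ.V e ≤ Vm)
    (hoU : κ.U (nd c' o) = -2) (hom : κ.V (nd c' o) ≤ Vm)
    (heH : ∀ x y, IsUnit4 (y - x) → x + y ∈ H' → el c x y ≠ e)
    (hx : Co H' p x)
    (hq : IsUnit4 (q - nd c x)) (hq0 : -2 ≤ κ.U q ∧ 0 ≤ κ.V q)
    (hqF : κ.Far h Um Vm q) :
    False :=
  κ.hid.FL c c' H H' h Um Vm p r t o e x q hh hc hH hH' hne hUm hpU hpV hrU hrV hrm hrt ht hro he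
    heU hem hoU hom heH hx hq hq0 hqF

end Cht

end Pool.Agent.H40.Sp
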