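import Mathlib
import Pool.Agent.H39.Q1.ChainG
import Pool.Agent.H40.Sp.Chart
import Pool.Agent.H40.Sp.ChainS

set_option autoImplicit false
open Finset

/-! # A marked corner of a window

The families are arcs, their layers `La` are not confined to the corner. `Tn` : the ties near the corner,
`L` : the bulk labels near the corner and near its walls, `D` : size of the zone in which the window is
a quadrant. -/

namespace Pool.Agent.H40.Sp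

open Pool.Agent.H75.Perc Pool.Agent.H75.TwoArm Pool.Agent.H75.Four Pool.Agent.H69.Q1
open Pool.Agent.Q1 Pool.Agent.H25.Q1.Add Pool.Agent.H99.NC Pool.Agent.H49.Perc
open Pool.Agent.H20.Q1 (Eh CS hf)
open Pool.Agent.H39.Q1 hiding hide_LL hide_LF hide_FL hide_FF

variable {ι : Type*} [DecidableEq ι]

/-- labels and nodes near the corner -/
def NB (κ : Cht) (D : ℤ) (z : ℤ × ℤ) : Prop :=
  (-3 ≤ κ.U z ∧ κ.U z ≤ D + 2) ∧ -3 ≤ κ.V z ∧ κ.V z ≤ D + 2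

/-- **Geometry at a marked corner with ties on both walls.** -/
structure CnrW (W Bb B TT Tn : Finset (ℤ × ℤ)) (fm : ℤ × ℤ → ι) (co : ι → Bool)
    (Wl La Λ : ι → Finset (ℤ × ℤ)) (b o : ℤ × ℤ → ℤ × ℤ) (L : Finset (ℤ × ℤ)) (iL iF : ι)
    (κ : Cht) (h Um Vm D : ℤ) : Prop where
  hh : 1 ≤ h
  Um0 : 0 ≤ Um
  Vm0 : 0 ≤ Vm
  UD : Um ≤ D
  VD : Vm ≤ D
  col : co iF = !(co iL)
  LB : L ⊆ B
  Lr : ∀ l ∈ L, (1 ≤ κ.U l ∧ 1 ≤ κ.V l) ∧ (κ.U l < Um ∧ κ.V l < Vm) ∧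
    (κ.U l < 2 * h ∨ κ.V l < 2 * h)
  LΛL : L ⊆ Λ iL
  LΛF : L ⊆ Λ iF
  LaL : La iL ⊆ Λ iL
  LaF : La iF ⊆ Λ iF
  ΛL : ∀ l ∈ Λ iL, NB κ D l → 1 ≤ κ.U l ∧ -1 ≤ κ.V l
  ΛF : ∀ l ∈ Λ iF, NB κ D l → -1 ≤ κ.U l ∧ 1 ≤ κ.V l
  dL : Disjoint (Λ iL) (TF TT fm iL)
  dF : Disjoint (Λ iF) (TF TT fm iF)
  tn : Tn ⊆ TT
  tL : ∀ e ∈ Tn, fm e = iL → IsUnit4 (o e - b e) ∧ e = el (co iL) (b e) (o e) ∧
    κ.U (nd (co iL) (b e)) = 0 ∧ 1 ≤ κ.V (nd (co iL) (b e)) ∧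
    κ.U e = -1 ∧ κ.U (nd (co iL) (o e)) = -2
  tLm : ∀ e ∈ Tn, fm e = iL → κ.V (nd (co iL) (b e)) ≤ Vm ∧ κ.V e ≤ Vm ∧
    κ.V (nd (co iL) (o e)) ≤ Vm
  tF : ∀ f ∈ Tn, fm f = iF → IsUnit4 (o f - b f) ∧ f = el (co iF) (b f) (o f) ∧
    κ.V (nd (co iF) (b f)) = 0 ∧ κ.V f = -1 ∧ κ.V (nd (co iF) (o f)) = -2
  tFm : ∀ f ∈ Tn, fm f = iF → κ.U (nd (co iF) (b f)) ≤ Um ∧ κ.U f ≤ Um ∧
    κ.U (nd (co iF) (o f)) ≤ Um
  exL : ∀ x y, IsUnit4 (y - x) → NB κ D (nd (co iL) x) →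
    VN (co iL) (Λ iL) (TF TT fm iL) b x →
    av Bb W TT fm co Wl iL (el (co iL) x y) → el (co iL) x y ∈ Λ iL ∨
      ∃ q, IsUnit4 (q - nd (co iL) x) ∧ (0 ≤ κ.U q ∧ -2 ≤ κ.V q) ∧ κ.Far h Um Vm q
  exF : ∀ x y, IsUnit4 (y - x) → NB κ D (nd (co iF) x) →
    VN (co iF) (Λ iF) (TF TT fm iF) b x →
    av Bb W TT fm co Wl iF (el (co iF) x y) → el (co iF) x y ∈ Λ iF ∨
      ∃ q, IsUnit4 (q - nd (co iF) x) ∧ (-2 ≤ κ.U q ∧ 0 ≤ κ.V q) ∧ κ.Far h Um Vm q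

/-- heights on the left wall -/
def hW (Tn : Finset (ℤ × ℤ)) (fm : ℤ × ℤ → ι) (co : ι → Bool) (b : ℤ × ℤ → ℤ × ℤ)
    (L : Finset (ℤ × ℤ)) (iL iF : ι) (κ : Cht) (ω k : Finset (ℤ × ℤ)) : Set ℤ :=
  {v | ∃ e ∈ k, e ∈ Tn ∧ ((fm e = iL ∧
      (∃ t, Co (HS (co iL) L ω) (b e) t ∧ κ.V (nd (co iL) t) = 0) ∧
      v = κ.V (nd (co iL) (b e))) ∨
    (fm e = iF ∧ ∃ g, Co (HS (co iF) L ω) (b e) g ∧ κ.U (nd (co iF) g) = 0 ∧
      1 ≤ κ.V (nd (co iF) g) ∧ v = κ.V (nd (co iF) g)))}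

/-- rank of a class -/
noncomputable def rkW (Tn : Finset (ℤ × ℤ)) (fm : ℤ × ℤ → ι) (co : ι → Bool)
    (b : ℤ × ℤ → ℤ × ℤ) (L : Finset (ℤ × ℤ)) (iL iF : ι) (κ : Cht) (ω k : Finset (ℤ × ℤ)) : ℤ :=
  sSup (hW Tn fm co b L iL iF κ ω k)

open Classical in
/-- the classes which touch both walls near the corner -/
noncomputable def CMW (W TT Tn : Finset (ℤ × ℤ)) (fm : ℤ × ℤ → ι) (co : ι → Bool)
    (Wl La : ι → Finset (ℤ × ℤ)) (b o : ℤ × ℤ → ℤ × ℤ) (L : Finset (ℤ × ℤ)) (iL iF : ι)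
    (κ : Cht) (ω : Finset (ℤ × ℤ)) : Finset (Finset (ℤ × ℤ)) :=
  (JM W TT fm co Wl La b o ω).filter fun k => (hW Tn fm co b L iL iF κ ω k).Nonempty

variable {X : Env} {W Bb B TT Tn Cs ω ω' θ P k k1 k2 G : Finset (ℤ × ℤ)}
  {fm : ℤ × ℤ → ι} {co : ι → Bool} {Wl La Λ : ι → Finset (ℤ × ℤ)}
  {b o : ℤ × ℤ → ℤ × ℤ} {a : ℤ × ℤ → ℂ} {s : ℤ × ℤ → ℂ} {e e0 f x y g g1 g2 t u : ℤ × ℤ} {i : ι}
  {L : Finset (ℤ × ℤ)} {iL iF : ι} {κ : Cht} {h Um Vm D : ℤ}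

/-- labels near the corner -/
def NL (κ : Cht) (D α β : ℤ) (Λ : Finset (ℤ × ℤ)) : Finset (ℤ × ℤ) :=
  Λ.filter fun l => (α + 1 ≤ κ.U l ∧ κ.U l ≤ D) ∧ β + 1 ≤ κ.V l ∧ κ.V l ≤ D

/-- a path from a node near the corner stays near the corner or has a first exit -/
lemma near_path {c : Bool} {Λ : Finset (ℤ × ℤ)} {α β : ℤ} (hα : -2 ≤ α) (hβ : -2 ≤ β)
    (hΛ : ∀ l ∈ Λ, NB κ D l → α + 1 ≤ κ.U l ∧ β + 1 ≤ κ.V l) (hUD : Um ≤ D) (hVD : Vm ≤ D)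
    (hu : (α ≤ κ.U (nd c u) ∧ κ.U (nd c u) ≤ D + 1) ∧ β ≤ κ.V (nd c u) ∧
      κ.V (nd c u) ≤ D + 1) (hx : Co (HS c Λ G) u x) :
    (Co (HS c (NL κ D α β Λ) G) u x ∧ (α ≤ κ.U (nd c x) ∧ κ.U (nd c x) ≤ D + 1) ∧
      β ≤ κ.V (nd c x) ∧ κ.V (nd c x) ≤ D + 1) ∨
    ∃ x' q, Co (HS c (NL κ D α β Λ) G) u x' ∧ IsUnit4 (q - nd c x') ∧
      (α ≤ κ.U q ∧ β ≤ κ.V q) ∧ κ.Far h Um Vm q := by
  induction hx with
  | refl => exact Or.inl ⟨Co.refl _ _, hu⟩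
  | @tail p q _ hpq ih =>
    rcases ih with ⟨h1, h2⟩ | h1
    · obtain ⟨g1, g2⟩ := mem_HS.1 hpq.2
      have s1 := nd_el (c := c) hpq.1
      have u1 := κ.unit_UV s1.1
      have u2 := κ.unit_UV s1.2
      have h3 := hΛ _ g1 (by unfold NB; omega)
      by_cases h4 : κ.U (el c p q) ≤ D ∧ κ.V (el c p q) ≤ D
      · left
        refine ⟨h1.tail ⟨hpq.1, mem_HS.2 ⟨mem_filter.2 ⟨g1, ⟨h3.1, h4.1⟩, h3.2, h4.2⟩, g2⟩⟩, ?_⟩
        omega
      · right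
        refine ⟨p, el c p q, h1, s1.1, ⟨by omega, by omega⟩, ?_⟩
        unfold Cht.Far
        rw [not_and_or] at h4
        right
        omega
    · exact Or.inr h1

lemma NL_H {c : Bool} {Λ : Finset (ℤ × ℤ)} {α β : ℤ} : ∀ x y, IsUnit4 (y - x) →
    x + y ∈ HS c (NL κ D α β Λ) G → α + 1 ≤ κ.U (el c x y) ∧ β + 1 ≤ κ.V (el c x y) := by
  intro x y _ h2
  have := (mem_filter.1 (mem_HS.1 h2).1).2
  exact ⟨this.1.1, this.2.1⟩

lemma NL_co {c : Bool} {Λ : Finset (ℤ × ℤ)} {α β : ℤ} (h : Co (HS c (NL κ D α β Λ) G) x y) :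
    Co (HS c Λ G) x y := co_HS_mono (filter_subset _ _) (fun _ _ => Iff.rfl) h

namespace CnrW

lemma neq (hC : CnrW W Bb B TT Tn fm co Wl La Λ b o L iL iF κ h Um Vm D) : co iL ≠ co iF := by
  rw [hC.col]; cases co iL <;> simp

lemma ine (hC : CnrW W Bb B TT Tn fm co Wl La Λ b o L iL iF κ h Um Vm D) : iL ≠ iF :=
  fun h1 => hC.neq (by rw [h1])

lemma H1 (hC : CnrW W Bb B TT Tn fm co Wl La Λ b o L iL iF κ h Um Vm D) {c : Bool} :
    ∀ x y, IsUnit4 (y - x) → x + y ∈ HS c L ω →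
      (1 ≤ κ.U (el c x y) ∧ 1 ≤ κ.V (el c x y)) ∧
      (κ.U (el c x y) < Um ∧ κ.V (el c x y) < Vm) ∧
        (κ.U (el c x y) < 2 * h ∨ κ.V (el c x y) < 2 * h) :=
  fun _ _ _ h1 => hC.Lr _ (mem_HS.1 h1).1

/-- bounds for the nodes of clusters of `L` -/
lemma node (hC : CnrW W Bb B TT Tn fm co Wl La Λ b o L iL iF κ h Um Vm D) {c : Bool}
    (hx : Co (HS c L ω) u x) : x = u ∨ ((0 ≤ κ.U (nd c x) ∧ κ.U (nd c x) ≤ Um) ∧
      0 ≤ κ.V (nd c x) ∧ κ.V (nd c x) ≤ Vm) := by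
  rcases Relation.ReflTransGen.cases_tail hx with h1 | ⟨w, -, h1⟩
  · exact Or.inl h1
  · right
    have h2 := hC.H1 _ _ h1.1 h1.2
    have h3 := κ.unit_UV (nd_el (c := c) h1.1).2
    omega

/-- the graph of the labels of `L` is part of the graph of the extended layer -/
lemma mono (hM : Multi X W Bb B TT fm co Wl La b o)
    (hC : CnrW W Bb B TT Tn fm co Wl La Λ b o L iL iF κ h Um Vm D) (hω' : ω' ⊆ Bb \ B)
    (hΛ : L ⊆ Λ i) {c : Bool} {p q : ℤ × ℤ} (hpq : Co (HS c L ω) p q) :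
    Co (HS c (Λ i) (GS W TT fm co Wl i P ω ω')) p q :=
  co_HS_mono hΛ (fun _ hl => (hM.GS_B hω' (hC.LB hl)).symm) hpq

/-- labels of bulk barriers and of paths of the other colour differ -/
lemma opp (hM : Multi X W Bb B TT fm co Wl La b o)
    (hC : CnrW W Bb B TT Tn fm co Wl La Λ b o L iL iF κ h Um Vm D) (hω' : ω' ⊆ Bb \ B)
    {c c' : Bool} (hcc : c ≠ c') {Λ' : Finset (ℤ × ℤ)} :
    ∀ x y x' y', IsUnit4 (y - x) → x + y ∈ HS c' L ω → IsUnit4 (y' - x') →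
      x' + y' ∈ HS c Λ' (GS W TT fm co Wl i P ω ω') → el c' x y ≠ el c x' y' := by
  intro x y x' y' _ h1 _ h2 h3
  obtain ⟨g1, g2⟩ := mem_HS.1 h1
  obtain ⟨g3, g4⟩ := mem_HS.1 h2
  rw [← h3] at g4
  exact not_both_ps (Ne.symm hcc) g2 g4 (hM.GS_B hω' (hC.LB g1)).symm

/-- nodes of different colours on the left wall line have different heights -/
lemma parity (hC : CnrW W Bb B TT Tn fm co Wl La Λ b o L iL iF κ h Um Vm D) {p g : ℤ × ℤ}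
    (hp : κ.U (nd (co iL) p) = 0) (hg : κ.U (nd (co iF) g) = 0) :
    κ.V (nd (co iL) p) ≠ κ.V (nd (co iF) g) := fun h1 =>
  nd_ne hC.neq (κ.inj (hp.trans hg.symm) h1)

end CnrW

/-- a tied tie of the other family is not passed -/
lemma tied_not' (hM : Multi X W Bb B TT fm co Wl La b o) {j : ι} (hij : co i ≠ co j)
    (hω : ω ⊆ B) (hω' : ω' ⊆ Bb \ B) (hf : f ∈ TT) (hfj : fm f = j) (hfP : f ∈ P)
    {Λ' : Finset (ℤ × ℤ)} (hΛ' : Λ' ⊆ Λ i) :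
    ∀ x y, IsUnit4 (y - x) → x + y ∈ HS (co i) Λ' (GS W TT fm co Wl i P ω ω') →
      el (co i) x y ≠ f := by
  intro x y h1 h2
  refine hM.tied_not (Λ := Λ) hij hω hω' hf hfj hfP x y h1 ?_
  obtain ⟨g1, g2⟩ := mem_HS.1 h2
  exact mem_HS.2 ⟨hΛ' g1, g2⟩

namespace CnrW

lemma exitL (hM : Multi X W Bb B TT fm co Wl La b o)
    (hC : CnrW W Bb B TT Tn fm co Wl La Λ b o L iL iF κ h Um Vm D) (hω : ω ⊆ B)
    (hω' : ω' ⊆ Bb \ B) (he : e ∈ TT) (hei : fm e = iL)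
    (hu : (0 ≤ κ.U (nd (co iL) u) ∧ κ.U (nd (co iL) u) ≤ D + 1) ∧ -2 ≤ κ.V (nd (co iL) u) ∧
      κ.V (nd (co iL) u) ≤ D + 1)
    (hue : Co (HS (co iL) (Λ iL) (GS W TT fm co Wl iL P ω ω')) u (b e))
    (h3 : Co (HS (co iL) (Λ iL) (GS W TT fm co Wl iL P ω ω')) (b e) x) (h4 : IsUnit4 (y - x))
    (h5 : if co iL = true then el (co iL) x y ∈ GS W TT fm co Wl iL P ω ω'
      else el (co iL) x y ∉ GS W TT fm co Wl iL P ω ω' ∪ (TF TT fm iL ∪ Wl iL))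
    (h6 : el (co iL) x y ∉ Λ iL) :
    ∃ x' q, Co (HS (co iL) (NL κ D 0 (-2) (Λ iL)) (GS W TT fm co Wl iL P ω ω')) u x' ∧
      IsUnit4 (q - nd (co iL) x') ∧ (0 ≤ κ.U q ∧ -2 ≤ κ.V q) ∧ κ.Far h Um Vm q := by
  have heT : e ∈ TF TT fm iL := mem_TF.2 ⟨he, hei⟩
  rcases near_path (κ := κ) (Um := Um) (Vm := Vm) (α := 0) (β := -2) (by norm_num) (by norm_num)
    (fun l hl hn => by have := hC.ΛL l hl hn; omega) hC.UD hC.VD hu (hue.trans h3) with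
    ⟨g1, g2⟩ | g1
  · rcases hC.exL x y h4 (by unfold NB; omega) (VN_of_co heT HS_el h3) (hM.av_of hω hω' h5) with
      h7 | ⟨q, h7, h8, h9⟩
    · exact absurd h7 h6
    · exact ⟨x, q, g1, h7, h8, h9⟩
  · exact g1

lemma exitF (hM : Multi X W Bb B TT fm co Wl La b o)
    (hC : CnrW W Bb B TT Tn fm co Wl La Λ b o L iL iF κ h Um Vm D) (hω : ω ⊆ B)
    (hω' : ω' ⊆ Bb \ B) (he : e ∈ TT) (hei : fm e = iF)
    (hu : (-2 ≤ κ.U (nd (co iF) u) ∧ κ.U (nd (co iF) u) ≤ D + 1) ∧ 0 ≤ κ.V (nd (co iF) u) ∧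
      κ.V (nd (co iF) u) ≤ D + 1)
    (hue : Co (HS (co iF) (Λ iF) (GS W TT fm co Wl iF P ω ω')) u (b e))
    (h3 : Co (HS (co iF) (Λ iF) (GS W TT fm co Wl iF P ω ω')) (b e) x) (h4 : IsUnit4 (y - x))
    (h5 : if co iF = true then el (co iF) x y ∈ GS W TT fm co Wl iF P ω ω'
      else el (co iF) x y ∉ GS W TT fm co Wl iF P ω ω' ∪ (TF TT fm iF ∪ Wl iF))
    (h6 : el (co iF) x y ∉ Λ iF) :
    ∃ x' q, Co (HS (co iF) (NL κ D (-2) 0 (Λ iF)) (GS W TT fm co Wl iF P ω ω')) u x' ∧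
      IsUnit4 (q - nd (co iF) x') ∧ (-2 ≤ κ.U q ∧ 0 ≤ κ.V q) ∧ κ.Far h Um Vm q := by
  have heT : e ∈ TF TT fm iF := mem_TF.2 ⟨he, hei⟩
  rcases near_path (κ := κ) (Um := Um) (Vm := Vm) (α := -2) (β := 0) (by norm_num) (by norm_num)
    (fun l hl hn => by have := hC.ΛF l hl hn; omega) hC.UD hC.VD hu (hue.trans h3) with
    ⟨g1, g2⟩ | g1
  · rcases hC.exF x y h4 (by unfold NB; omega) (VN_of_co heT HS_el h3) (hM.av_of hω hω' h5) with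
      h7 | ⟨q, h7, h8, h9⟩
    · exact absurd h7 h6
    · exact ⟨x, q, g1, h7, h8, h9⟩
  · exact g1

/-- class connections in the extended layer -/
lemma cla (hM : Multi X W Bb B TT fm co Wl La b o) (hω' : ω' ⊆ Bb \ B) (hL : La i ⊆ Λ i)
    {c : Bool} {p q : ℤ × ℤ} (hpq : Co (HS c (La i) ω) p q) :
    Co (HS c (Λ i) (GS W TT fm co Wl i P ω ω')) p q :=
  co_HS_mono hL (fun _ hl => (hM.GS_B hω' (hM.la i hl)).symm) hpq

/-- (1) -/
theorem toggle_LL (hM : Multi X W Bb B TT fm co Wl La b o)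
    (hC : CnrW W Bb B TT Tn fm co Wl La Λ b o L iL iF κ h Um Vm D)
    (hc : ∀ c ∈ Cs, FarM X TT fm co Wl Λ b o c) (hω : ω ⊆ B) (hP : P ⊆ TT)
    (he : e ∈ TT) (hei : fm e = iL) (heP : e ∉ P) (he0 : e0 ∈ Tn) (h0i : fm e0 = iL)
    (hee : Co (HS (co iL) (La iL) ω) (b e0) (b e)) (hf : f ∈ P) (hfn : f ∈ Tn)
    (hfi : fm f = iL) (hV : κ.V (nd (co iL) (b e0)) < κ.V (nd (co iL) (b f)))
    (ht : Co (HS (co iL) L ω) (b f) t) (htV : κ.V (nd (co iL) t) = 0) :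
    VM X Cs a Bb B TT fm co ω P = VM X Cs a Bb B TT fm co ω (insert e P) := by
  refine hM.toggleX (i := iL) hc (fun _ => hC.dL) hω hP he hei heP fun ω' hω' => ?_
  by_contra hcon
  rw [not_or] at hcon
  obtain ⟨h1, h2⟩ := hcon
  obtain ⟨t1, t2, t3, t4, -, -⟩ := hC.tL e0 he0 h0i
  obtain ⟨-, -, s3, s4, -, -⟩ := hC.tL f hfn hfi
  obtain ⟨m0, -, -⟩ := hC.tLm e0 he0 h0i
  obtain ⟨m1, -, -⟩ := hC.tLm f hfn hfi
  have hVD := hC.VD
  have hUm := hC.Um0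
  have hUD := hC.UD
  unfold Conf at h1
  push Not at h1
  obtain ⟨x, y, h3, h4, h5, h6⟩ := h1
  have hee' := cla (P := P) hM hω' hC.LaL hee
  obtain ⟨x', q, g1, g2, g3, g4⟩ := hC.exitL hM hω hω' he hei (by omega) hee' h3 h4 h5 h6
  obtain ⟨w, k1, k2⟩ := Cht.hide_LL hC.hh hC.H1
    (fun x y k3 k4 => by have := NL_H (κ := κ) x y k3 k4; omega) hC.Um0 t3 t4 s3 hV m1 ht htV
    g1 g2 g3 g4
  refine h2 ⟨f, hf, hfi, hP hf, ?_⟩
  exact hee'.symm.trans ((NL_co k2).trans (hC.mono hM hω' hC.LΛL k1).symm)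

/-- (2) -/
theorem toggle_LF (hM : Multi X W Bb B TT fm co Wl La b o)
    (hC : CnrW W Bb B TT Tn fm co Wl La Λ b o L iL iF κ h Um Vm D)
    (hc : ∀ c ∈ Cs, FarM X TT fm co Wl Λ b o c) (hω : ω ⊆ B) (hP : P ⊆ TT)
    (he : e ∈ TT) (hei : fm e = iL) (heP : e ∉ P) (he0 : e0 ∈ Tn) (h0i : fm e0 = iL)
    (hee : Co (HS (co iL) (La iL) ω) (b e0) (b e)) (hf : f ∈ P) (hfn : f ∈ Tn)
    (hfi : fm f = iF)
    (hg : Co (HS (co iF) L ω) (b f) g) (hgU : κ.U (nd (co iF) g) = 0)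
    (hV : κ.V (nd (co iL) (b e0)) < κ.V (nd (co iF) g)) :
    VM X Cs a Bb B TT fm co ω P = VM X Cs a Bb B TT fm co ω (insert e P) := by
  refine hM.toggleX (i := iL) hc (fun _ => hC.dL) hω hP he hei heP fun ω' hω' => ?_
  left
  intro x y h3 h4 h5
  by_contra h6
  obtain ⟨t1, t2, t3, t4, -, -⟩ := hC.tL e0 he0 h0i
  obtain ⟨m0, -, -⟩ := hC.tLm e0 he0 h0i
  obtain ⟨r1, r2, r3, r4, r5⟩ := hC.tF f hfn hfi
  obtain ⟨m1, m2, m3⟩ := hC.tFm f hfn hfi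
  have hVD := hC.VD
  have hUm := hC.Um0
  have hUD := hC.UD
  have hee' := cla (P := P) hM hω' hC.LaL hee
  obtain ⟨x', q, g1, g2, g3, g4⟩ := hC.exitL hM hω hω' he hei (by omega) hee' h3 h4 h5 h6
  exact Cht.hide_LF hC.hh hC.neq hC.H1
    (fun x y k3 k4 => by have := NL_H (κ := κ) x y k3 k4; omega)
    (hC.opp hM hω' hC.neq) hC.Vm0 t3 t4 hgU hV hg.symm r3 m1 r1 r2 r4 m2 r5 m3
    (tied_not' hM hC.neq hω hω' (hP hf) hfi hf (filter_subset _ _)) g1 g2 g3 g4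

/-- (3) -/
theorem toggle_FL (hM : Multi X W Bb B TT fm co Wl La b o)
    (hC : CnrW W Bb B TT Tn fm co Wl La Λ b o L iL iF κ h Um Vm D)
    (hc : ∀ c ∈ Cs, FarM X TT fm co Wl Λ b o c) (hω : ω ⊆ B) (hP : P ⊆ TT)
    (he : e ∈ TT) (hei : fm e = iF) (heP : e ∉ P)
    (hee : Co (HS (co iF) (La iF) ω) (b e0) (b e)) (hf : f ∈ P) (hfn : f ∈ Tn)
    (hfi : fm f = iL)
    (hg : Co (HS (co iF) L ω) (b e0) g) (hgU : κ.U (nd (co iF) g) = 0)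
    (hgV : 1 ≤ κ.V (nd (co iF) g))
    (hV : κ.V (nd (co iF) g) < κ.V (nd (co iL) (b f)))
    (ht : Co (HS (co iL) L ω) (b f) t) (htV : κ.V (nd (co iL) t) = 0) :
    VM X Cs a Bb B TT fm co ω P = VM X Cs a Bb B TT fm co ω (insert e P) := by
  refine hM.toggleX (i := iF) hc (fun _ => hC.dF) hω hP he hei heP fun ω' hω' => ?_
  left
  intro x y h3 h4 h5
  by_contra h6
  obtain ⟨s1, s2, s3, s4, s5, s6⟩ := hC.tL f hfn hfi
  obtain ⟨m1, m2, m3⟩ := hC.tLm f hfn hfi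
  have hVD := hC.VD
  have hUm := hC.Um0
  have hUD := hC.UD
  have hee' := cla (P := P) hM hω' hC.LaF hee
  have hge := (hC.mono (P := P) hM hω' hC.LΛF hg).symm.trans hee'
  obtain ⟨x', q, g1, g2, g3, g4⟩ := hC.exitF hM hω hω' he hei (by omega) hge h3 h4 h5 h6
  exact Cht.hide_FL hC.hh (Ne.symm hC.neq) hC.H1
    (fun x y k3 k4 => by have := NL_H (κ := κ) x y k3 k4; omega)
    (hC.opp hM hω' (Ne.symm hC.neq)) hC.Um0 hgU hgV s3 hV m1 ht htV s1 s2 s5 m2 s6 m3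
    (tied_not' hM (Ne.symm hC.neq) hω hω' (hP hf) hfi hf (filter_subset _ _)) g1 g2 g3 g4

/-- (4) -/
theorem toggle_FF (hM : Multi X W Bb B TT fm co Wl La b o)
    (hC : CnrW W Bb B TT Tn fm co Wl La Λ b o L iL iF κ h Um Vm D)
    (hc : ∀ c ∈ Cs, FarM X TT fm co Wl Λ b o c) (hω : ω ⊆ B) (hP : P ⊆ TT)
    (he : e ∈ TT) (hei : fm e = iF) (heP : e ∉ P) (he0 : e0 ∈ Tn) (h0i : fm e0 = iF)
    (hee : Co (HS (co iF) (La iF) ω) (b e0) (b e)) (hf : f ∈ P) (hfn : f ∈ Tn)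
    (hfi : fm f = iF)
    (hg : Co (HS (co iF) L ω) (b e0) g) (hgU : κ.U (nd (co iF) g) = 0)
    (hgV : 1 ≤ κ.V (nd (co iF) g))
    (ht : Co (HS (co iF) L ω) (b f) t) (htU : κ.U (nd (co iF) t) = 0)
    (hV : κ.V (nd (co iF) g) ≤ κ.V (nd (co iF) t)) :
    VM X Cs a Bb B TT fm co ω P = VM X Cs a Bb B TT fm co ω (insert e P) := by
  refine hM.toggleX (i := iF) hc (fun _ => hC.dF) hω hP he hei heP fun ω' hω' => ?_
  by_contra hcon
  rw [not_or] at hcon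
  obtain ⟨h1, h2⟩ := hcon
  obtain ⟨r1, r2, r3, r4, r5⟩ := hC.tF e0 he0 h0i
  obtain ⟨r1', r2', r3', r4', r5'⟩ := hC.tF f hfn hfi
  obtain ⟨m1, -, -⟩ := hC.tFm f hfn hfi
  have hVD := hC.VD
  have hUm := hC.Um0
  have hUD := hC.UD
  have mo : ∀ {p q}, Co (HS (co iF) L ω) p q →
      Co (HS (co iF) (Λ iF) (GS W TT fm co Wl iF P ω ω')) p q := fun h8 =>
    hC.mono hM hω' hC.LΛF h8
  have hee' := cla (P := P) hM hω' hC.LaF hee
  have hge := (mo hg).symm.trans hee'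
  apply h2
  refine ⟨f, hf, hfi, hP hf, ?_⟩
  rcases eq_or_lt_of_le hV with h8 | h8
  · have : g = t := nd_inj (c := co iF) (κ.inj (hgU.trans htU.symm) h8)
    subst this
    exact hge.symm.trans (mo ht.symm)
  · unfold Conf at h1
    push Not at h1
    obtain ⟨x, y, h3, h4, h5, h6⟩ := h1
    have hgD : κ.V (nd (co iF) g) ≤ D := by
      rcases hC.node hg with h9 | h9
      · rw [h9] at hgV; omega
      · omega
    obtain ⟨x', q, g1, g2, g3, g4⟩ := hC.exitF hM hω hω' he hei (by omega) hge h3 h4 h5 h6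
    obtain ⟨w, k1, k2⟩ := Cht.hide_FF hC.hh hC.H1
      (fun x y k3 k4 => by have := NL_H (κ := κ) x y k3 k4; omega)
      hC.Vm0 hgU hgV htU h8 ht.symm r3' m1 g1 g2 g3 g4
    exact hge.symm.trans ((NL_co k2).trans ((mo k1).symm.trans (mo ht.symm)))

/-- the heights are bounded -/
lemma bdd (hC : CnrW W Bb B TT Tn fm co Wl La Λ b o L iL iF κ h Um Vm D) :
    BddAbove (hW Tn fm co b L iL iF κ ω k) := by
  refine ⟨Vm, ?_⟩
  rintro v ⟨e, -, hen, ⟨hi, -, rfl⟩ | ⟨hi, g, hg, -, hgV, rfl⟩⟩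
  · exact (hC.tLm e hen hi).1
  · rcases hC.node hg with h1 | h1
    · rw [h1, (hC.tF e hen hi).2.2.1] at hgV; omega
    · exact h1.2.2

lemma le_rk (hC : CnrW W Bb B TT Tn fm co Wl La Λ b o L iL iF κ h Um Vm D) {v : ℤ}
    (hv : v ∈ hW Tn fm co b L iL iF κ ω k) : v ≤ rkW Tn fm co b L iL iF κ ω k :=
  le_csSup hC.bdd hv

lemma rk_mem (hC : CnrW W Bb B TT Tn fm co Wl La Λ b o L iL iF κ h Um Vm D)
    (hn : (hW Tn fm co b L iL iF κ ω k).Nonempty) :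
    rkW Tn fm co b L iL iF κ ω k ∈ hW Tn fm co b L iL iF κ ω k :=
  Int.csSup_mem hn hC.bdd

/-- the class connection of two members of a class -/
lemma cls_co {e1 : ℤ × ℤ} (he0 : e0 ∈ cls TT fm co La b ω e1) (he : e ∈ cls TT fm co La b ω e1) :
    fm e = fm e0 ∧ Co (HS (co (fm e0)) (La (fm e0)) ω) (b e0) (b e) := by
  have h1 : cls TT fm co La b ω e0 = cls TT fm co La b ω e1 := cls_eq_of he0
  rw [← h1] at he
  obtain ⟨⟨-, h2⟩, h3⟩ := mem_cls.1 he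
  exact ⟨h2, h3⟩

/-- **One toggle of a tie of a lower class.** -/
theorem toggle (hM : Multi X W Bb B TT fm co Wl La b o)
    (hC : CnrW W Bb B TT Tn fm co Wl La Λ b o L iL iF κ h Um Vm D)
    (hc : ∀ c ∈ Cs, FarM X TT fm co Wl Λ b o c) (hω : ω ⊆ B) (hP : P ⊆ TT) {e1 e2 : ℤ × ℤ}
    (hc1 : (hW Tn fm co b L iL iF κ ω (cls TT fm co La b ω e1)).Nonempty)
    (hc2 : (hW Tn fm co b L iL iF κ ω (cls TT fm co La b ω e2)).Nonempty)
    (hne : cls TT fm co La b ω e1 ≠ cls TT fm co La b ω e2)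
    (hrk : rkW Tn fm co b L iL iF κ ω (cls TT fm co La b ω e1) ≤
      rkW Tn fm co b L iL iF κ ω (cls TT fm co La b ω e2))
    (hP2 : cls TT fm co La b ω e2 ⊆ P) (he : e ∈ cls TT fm co La b ω e1) (heP : e ∉ P) :
    VM X Cs a Bb B TT fm co ω P = VM X Cs a Bb B TT fm co ω (insert e P) := by
  have heT : e ∈ TT := cls_sub he
  obtain ⟨v, hv⟩ := hc1
  have hvr : v ≤ rkW Tn fm co b L iL iF κ ω (cls TT fm co La b ω e2) := (hC.le_rk hv).trans hrk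
  obtain ⟨f, hf, hfn, hfc⟩ := hC.rk_mem hc2
  obtain ⟨e0, he0, he0n, hv⟩ := hv
  have hfP : f ∈ P := hP2 hf
  obtain ⟨hfe, hee⟩ := cls_co he0 he
  have hce0 : cls TT fm co La b ω e0 = cls TT fm co La b ω e1 := cls_eq_of he0
  have hcf : cls TT fm co La b ω f = cls TT fm co La b ω e2 := cls_eq_of hf
  rcases hv with ⟨h2, -, hv⟩ | ⟨h2, g, h3, h4, h5, hv⟩
  · -- `e0` at the left wall
    have hU := (hC.tL e0 he0n h2).2.2.1
    rw [h2] at hfe hee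
    rcases hfc with ⟨g1, ⟨t2, k3, k4⟩, g2⟩ | ⟨g1, g, g3, g4, g5, g6⟩
    · -- `f` at the left wall
      have hU2 := (hC.tL f hfn g1).2.2.1
      refine hC.toggle_LL hM hc hω hP heT hfe heP he0n h2 hee hfP hfn g1 ?_ k3 k4
      refine lt_of_le_of_ne (by omega) fun h8 => hne ?_
      have h9 : b e0 = b f := nd_inj (c := co iL) (κ.inj (hU.trans hU2.symm) h8)
      have h10 : f ∈ cls TT fm co La b ω e0 :=
        mem_cls.2 ⟨⟨cls_sub hf, g1.trans h2.symm⟩, by rw [h9]; exact Co.refl _ _⟩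
      rw [← hce0, ← hcf, (cls_eq_of h10)]
    · -- `f` at the floor
      refine hC.toggle_LF hM hc hω hP heT hfe heP he0n h2 hee hfP hfn g1 g3 g4 ?_
      have := hC.parity hU g4
      omega
  · -- `e0` at the floor
    rw [h2] at hfe hee
    rcases hfc with ⟨g1, ⟨t2, k3, k4⟩, g2⟩ | ⟨g1, g', g3, g4, g5, g6⟩
    · have hU2 := (hC.tL f hfn g1).2.2.1
      refine hC.toggle_FL hM hc hω hP heT hfe heP hee hfP hfn g1 h3 h4 h5 ?_ k3 k4
      have := hC.parity hU2 h4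
      omega
    · exact hC.toggle_FF hM hc hω hP heT hfe heP he0n h2 hee hfP hfn g1 h3 h4 h5 g3 g4 (by omega)

/-- toggling all ties of a lower class -/
theorem toggle_set (hM : Multi X W Bb B TT fm co Wl La b o)
    (hC : CnrW W Bb B TT Tn fm co Wl La Λ b o L iL iF κ h Um Vm D)
    (hc : ∀ c ∈ Cs, FarM X TT fm co Wl Λ b o c) (hω : ω ⊆ B) (hP : P ⊆ TT) {e1 e2 : ℤ × ℤ}
    (hc1 : (hW Tn fm co b L iL iF κ ω (cls TT fm co La b ω e1)).Nonempty)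
    (hc2 : (hW Tn fm co b L iL iF κ ω (cls TT fm co La b ω e2)).Nonempty)
    (hne : cls TT fm co La b ω e1 ≠ cls TT fm co La b ω e2)
    (hrk : rkW Tn fm co b L iL iF κ ω (cls TT fm co La b ω e1) ≤
      rkW Tn fm co b L iL iF κ ω (cls TT fm co La b ω e2))
    (hP2 : cls TT fm co La b ω e2 ⊆ P) :
    ∀ S ⊆ cls TT fm co La b ω e1, Disjoint S P →
      VM X Cs a Bb B TT fm co ω (S ∪ P) = VM X Cs a Bb B TT fm co ω P := by
  intro S
  induction S using Finset.induction_on with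
  | empty => intro _ _; rw [empty_union]
  | insert x S hx ih =>
    intro hS hd
    have h1 : S ⊆ cls TT fm co La b ω e1 := (subset_insert _ _).trans hS
    have h2 : x ∈ cls TT fm co La b ω e1 := hS (mem_insert_self _ _)
    rw [insert_union, ← ih h1 (hd.mono_left (subset_insert _ _))]
    symm
    refine hC.toggle hM hc hω (union_subset (h1.trans cls_sub) hP) hc1 hc2 hne hrk
      (hP2.trans subset_union_right) h2 ?_
    rw [mem_union, not_or]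
    exact ⟨hx, disjoint_left.1 hd (mem_insert_self _ _)⟩

lemma mem_CMW : k ∈ CMW W TT Tn fm co Wl La b o L iL iF κ ω ↔ k ∈ JM W TT fm co Wl La b o ω ∧
    (hW Tn fm co b L iL iF κ ω k).Nonempty := by
  classical
  unfold CMW; rw [mem_filter]

/-- **Hiding lemma for classes.** -/
theorem sh (hM : Multi X W Bb B TT fm co Wl La b o)
    (hC : CnrW W Bb B TT Tn fm co Wl La Λ b o L iL iF κ h Um Vm D)
    (hc : ∀ c ∈ Cs, FarM X TT fm co Wl Λ b o c) (hω : ω ⊆ B)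
    {A : Finset (Finset (ℤ × ℤ))} {i j : Finset (ℤ × ℤ)}
    (hi : i ∈ CMW W TT Tn fm co Wl La b o L iL iF κ ω)
    (hj : j ∈ CMW W TT Tn fm co Wl La b o L iL iF κ ω) (hjA : j ∉ A) (hij : i ≠ j)
    (hrk : rkW Tn fm co b L iL iF κ ω i ≤ rkW Tn fm co b L iL iF κ ω j) :
    VM X Cs a Bb B TT fm co ω (unc TT fm co La b ω (insert i A)) =
      VM X Cs a Bb B TT fm co ω (unc TT fm co La b ω A) := by
  classical
  obtain ⟨hi1, hc1⟩ := mem_CMW.1 hi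
  obtain ⟨hj1, hc2⟩ := mem_CMW.1 hj
  obtain ⟨e1, he1, rfl⟩ := mem_image.1 hi1
  obtain ⟨e2, he2, rfl⟩ := mem_image.1 hj1
  set P := unc TT fm co La b ω (insert (cls TT fm co La b ω e1) A) with hP
  have hPT : P ⊆ TT := filter_subset _ _
  have hP2 : cls TT fm co La b ω e2 ⊆ P := by
    intro e he
    rw [hP]
    unfold unc
    rw [mem_filter, mem_insert, not_or, cls_eq_of he]
    exact ⟨cls_sub he, Ne.symm hij, hjA⟩
  have key := hC.toggle_set (a := a) hM hc hω hPT hc1 hc2 hij hrk hP2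
    ((cls TT fm co La b ω e1) \ P ∩ unc TT fm co La b ω A)
    (inter_subset_left.trans sdiff_subset)
    (disjoint_left.2 fun l h1 h2 => (mem_sdiff.1 (mem_inter.1 h1).1).2 h2)
  rw [← key]
  congr 1
  ext l
  rw [mem_union, mem_inter, mem_sdiff, hP]
  unfold unc
  simp only [mem_filter, mem_insert, not_or]
  constructor
  · rintro (⟨-, h1⟩ | ⟨h1, h2, h3⟩)
    · exact h1
    · exact ⟨h1, h3⟩
  · rintro ⟨h1, h2⟩
    by_cases h3 : cls TT fm co La b ω l = cls TT fm co La b ω e1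
    · left
      refine ⟨⟨?_, fun h4 => h4.2.1 h3⟩, h1, h2⟩
      rw [← h3]; exact self_cls h1
    · right; exact ⟨h1, h3, h2⟩

/-- **A class below a permanently tied class has no influence.** -/
theorem irr (hM : Multi X W Bb B TT fm co Wl La b o)
    (hC : CnrW W Bb B TT Tn fm co Wl La Λ b o L iL iF κ h Um Vm D)
    (hc : ∀ c ∈ Cs, FarM X TT fm co Wl La b o c) (hc' : ∀ c ∈ Cs, FarM X TT fm co Wl Λ b o c)
    (hω : ω ⊆ B) {A : Finset (Finset (ℤ × ℤ))} {i : Finset (ℤ × ℤ)} {e2 : ℤ × ℤ}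
    (hi : i ∈ CMW W TT Tn fm co Wl La b o L iL iF κ ω) (he2T : e2 ∈ TT)
    (hc2 : (hW Tn fm co b L iL iF κ ω (cls TT fm co La b ω e2)).Nonempty)
    (hf2 : fre W TT fm co Wl La b o ω e2) (hij : i ≠ cls TT fm co La b ω e2)
    (hrk : rkW Tn fm co b L iL iF κ ω i ≤ rkW Tn fm co b L iL iF κ ω (cls TT fm co La b ω e2)) :
    VM X Cs a Bb B TT fm co ω (unc TT fm co La b ω (insert i A)) =
      VM X Cs a Bb B TT fm co ω (unc TT fm co La b ω A) := by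
  classical
  obtain ⟨hi1, hc1⟩ := mem_CMW.1 hi
  obtain ⟨e1, he1, rfl⟩ := mem_image.1 hi1
  have hd : Disjoint (cls TT fm co La b ω e1) (cls TT fm co La b ω e2) := by
    rw [disjoint_left]
    intro l h1 h2
    exact hij ((cls_eq_of h1).symm.trans (cls_eq_of h2))
  set P := unc TT fm co La b ω (insert (cls TT fm co La b ω e1) A) with hP
  have hPT : P ⊆ TT := filter_subset _ _
  set S := (cls TT fm co La b ω e1) \ P ∩ unc TT fm co La b ω A with hS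
  have hSP : S ∪ P = unc TT fm co La b ω A := by
    ext l
    rw [hS, mem_union, mem_inter, mem_sdiff, hP]
    unfold unc
    simp only [mem_filter, mem_insert, not_or]
    constructor
    · rintro (⟨-, h1⟩ | ⟨h1, h2, h3⟩)
      · exact h1
      · exact ⟨h1, h3⟩
    · rintro ⟨h1, h2⟩
      by_cases h3 : cls TT fm co La b ω l = cls TT fm co La b ω e1
      · left
        refine ⟨⟨?_, fun h4 => h4.2.1 h3⟩, h1, h2⟩
        rw [← h3]; exact self_cls h1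
      · right; exact ⟨h1, h3, h2⟩
  have key := hC.toggle_set (a := a) hM hc' hω (P := cls TT fm co La b ω e2 ∪ P)
    (union_subset cls_sub hPT) hc1 hc2 hij hrk subset_union_left S
    (inter_subset_left.trans sdiff_subset)
    (disjoint_left.2 fun l h1 h2 => by
      have h3 := mem_sdiff.1 (mem_inter.1 h1).1
      rcases mem_union.1 h2 with h4 | h4
      · exact disjoint_left.1 hd h3.1 h4
      · exact h3.2 h4)
  have k1 := hM.toggle_free (a := a) hc hω he2T hf2 (P := P) hPT _ (Subset.refl _)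
  have k2 := hM.toggle_free (a := a) hc hω he2T hf2 (P := S ∪ P)
    (by rw [hSP]; exact filter_subset _ _) _ (Subset.refl _)
  rw [← hSP, ← k2, ← k1, ← key, union_left_comm]

end CnrW

end Pool.Agent.H40.Sp
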