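import Mathlib
import Pool.Agent.H39.R45.ChU
import Pool.Agent.H40.Sp.CnrW

set_option autoImplicit false
open Finset

/-! # Macroscopic classes of a window

`Mac .. 1 0 0 h` : the cluster of a tie has size `h` (independent of the chart). `CnrN` : geometry of the
layers near a marked corner. `ExG` : exits of the layers. All classes in the error term of the first
order expansion are macroscopic. -/

namespace Pool.Agent.H40.Sp

open Pool.Agent.H75.Perc Pool.Agent.H75.TwoArm Pool.Agent.H75.Four Pool.Agent.H69.Q1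
open Pool.Agent.Q1 Pool.Agent.H25.Q1.Add Pool.Agent.H99.NC Pool.Agent.H49.Perc
open Pool.Agent.H20.Q1 (Eh CS hf)
open Pool.Agent.H39.Q1 hiding hide_LL hide_LF hide_FL hide_FF
open Pool.Agent.H39.R45 (UM mem_UM UM_mono img_disj cls_of_mem Uc mem_Uc Uc_mono)

variable {ι : Type*} [DecidableEq ι]

lemma cU'_or (r : Bool) (z a : ℤ × ℤ) {ε x0 y0 : ℤ} (hε : ε = 1 ∨ ε = -1) :
    (|cU' r ε x0 y0 z - cU' r ε x0 y0 a| = |cU 1 0 0 z - cU 1 0 0 a| ∧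
      |cV' r ε x0 y0 z - cV' r ε x0 y0 a| = |cV 1 0 0 z - cV 1 0 0 a|) ∨
    (|cU' r ε x0 y0 z - cU' r ε x0 y0 a| = |cV 1 0 0 z - cV 1 0 0 a| ∧
      |cV' r ε x0 y0 z - cV' r ε x0 y0 a| = |cU 1 0 0 z - cU 1 0 0 a|) := by
  have e1 : ∀ ε : ℤ, ε = 1 ∨ ε = -1 →
      (|cU ε x0 y0 z - cU ε x0 y0 a| = |cU 1 0 0 z - cU 1 0 0 a| ∧
      |cV ε x0 y0 z - cV ε x0 y0 a| = |cV 1 0 0 z - cV 1 0 0 a|) ∨
    (|cU ε x0 y0 z - cU ε x0 y0 a| = |cV 1 0 0 z - cV 1 0 0 a| ∧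
      |cV ε x0 y0 z - cV ε x0 y0 a| = |cU 1 0 0 z - cU 1 0 0 a|) := by
    rintro ε (rfl | rfl)
    · left
      unfold cU cV cx cy
      constructor <;> congr 1 <;> ring
    · right
      unfold cU cV cx cy
      constructor
      · rw [← abs_neg]; congr 1; ring
      · rw [← abs_neg]; congr 1; ring
  unfold cU' cV'
  cases r
  · rw [if_neg Bool.false_ne_true, if_neg Bool.false_ne_true, if_neg Bool.false_ne_true,
      if_neg Bool.false_ne_true]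
    exact e1 ε hε
  · rw [if_pos rfl, if_pos rfl, if_pos rfl, if_pos rfl]
    rcases e1 ε hε with ⟨h1, h2⟩ | ⟨h1, h2⟩
    · exact Or.inr ⟨h2, h1⟩
    · exact Or.inl ⟨h2, h1⟩

/-- sizes do not depend on the chart -/
lemma Cht.size (κ : Cht) (z a : ℤ × ℤ) (h : ℤ) :
    (h ≤ |κ.U z - κ.U a| ∨ h ≤ |κ.V z - κ.V a|) ↔
      (h ≤ |cU 1 0 0 z - cU 1 0 0 a| ∨ h ≤ |cV 1 0 0 z - cV 1 0 0 a|) := by
  obtain ⟨s, r, ε, x0, y0, hε⟩ := κ
  cases s
  · show (h ≤ |cU' r ε x0 y0 z - cU' r ε x0 y0 a| ∨ h ≤ |cV' r ε x0 y0 z - cV' r ε x0 y0 a|) ↔ _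
    rcases cU'_or r z a (x0 := x0) (y0 := y0) hε with ⟨h1, h2⟩ | ⟨h1, h2⟩
    · rw [h1, h2]
    · rw [h1, h2]; exact or_comm
  · show (h ≤ |cU' r ε x0 y0 (sw z) - cU' r ε x0 y0 (sw a)| ∨
      h ≤ |cV' r ε x0 y0 (sw z) - cV' r ε x0 y0 (sw a)|) ↔ _
    have e1 : |cU 1 0 0 (sw z) - cU 1 0 0 (sw a)| = |cU 1 0 0 z - cU 1 0 0 a| := by
      unfold cU cx cy sw; congr 1; simp only; ring
    have e2 : |cV 1 0 0 (sw z) - cV 1 0 0 (sw a)| = |cV 1 0 0 z - cV 1 0 0 a| := by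
      unfold cV cx cy sw; rw [← abs_neg]; congr 1; simp only; ring
    rcases cU'_or r (sw z) (sw a) (x0 := x0) (y0 := y0) hε with ⟨h1, h2⟩ | ⟨h1, h2⟩
    · rw [h1, h2, e1, e2]
    · rw [h1, h2, e1, e2]; exact or_comm

/-- **Geometry of the layers near a marked corner.** -/
structure CnrN (TT Tn : Finset (ℤ × ℤ)) (fm : ℤ × ℤ → ι) (co : ι → Bool)
    (La : ι → Finset (ℤ × ℤ)) (b : ℤ × ℤ → ℤ × ℤ) (L : Finset (ℤ × ℤ)) (iL iF : ι)
    (κ : Cht) (h : ℤ) : Prop where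
  laL : ∀ l ∈ L, κ.U l < 2 * h → l ∈ La iL
  laF : ∀ l ∈ L, κ.V l < 2 * h → l ∈ La iF
  fullL : ∀ x, κ.U (nd (co iL) x) = 0 → 1 ≤ κ.V (nd (co iL) x) →
    κ.V (nd (co iL) x) ≤ 2 * h → ∃ e ∈ Tn, fm e = iL ∧ b e = x
  fullF : ∀ x, κ.V (nd (co iF) x) = 0 → 0 ≤ κ.U (nd (co iF) x) →
    κ.U (nd (co iF) x) ≤ 2 * h → ∃ f ∈ Tn, fm f = iF ∧ b f = x
  laN : ∀ i, i = iL ∨ i = iF → ∀ l ∈ La i, |κ.U l| ≤ 4 * h → |κ.V l| ≤ 4 * h → l ∈ L
  tieN : ∀ e ∈ TT, fm e = iL ∨ fm e = iF → |κ.U (nd (co (fm e)) (b e))| ≤ 4 * h →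
    |κ.V (nd (co (fm e)) (b e))| ≤ 4 * h → e ∈ Tn

variable {X : Env} {W Bb B TT Tn Cs ω ω' θ P k k' k1 k2 n m m' : Finset (ℤ × ℤ)}
  {fm : ℤ × ℤ → ι} {co : ι → Bool} {Wl La Λ : ι → Finset (ℤ × ℤ)}
  {b o : ℤ × ℤ → ℤ × ℤ} {a : ℤ × ℤ → ℂ} {s : ℤ × ℤ → ℂ} {e e0 f x y g g1 g2 t u : ℤ × ℤ} {i : ι}
  {L : Finset (ℤ × ℤ)} {iL iF : ι} {κ : Cht} {h ρ Um Vm D : ℤ}

omit [DecidableEq ι] in
/-- a cluster which is not macroscopic, in the chart -/
lemma not_Mac (hm : ¬ Mac fm co La b 1 0 0 h ω e) :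
    ∀ x, Co (HS (co (fm e)) (La (fm e)) ω) (b e) x →
      |κ.U (nd (co (fm e)) x) - κ.U (nd (co (fm e)) (b e))| < h ∧
      |κ.V (nd (co (fm e)) x) - κ.V (nd (co (fm e)) (b e))| < h := by
  intro x hx
  by_contra hcon
  refine hm ⟨x, hx, (κ.size _ _ _).1 ?_⟩
  rw [not_and_or, not_lt, not_lt] at hcon
  exact hcon

/-- a path in the layer near the corner is a path in `L` -/
lemma co_LaL {c : Bool} {Λ' : Finset (ℤ × ℤ)}
    (hΛ : ∀ l ∈ Λ', |κ.U l| ≤ 4 * h → |κ.V l| ≤ 4 * h → l ∈ L)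
    (hb : ∀ x, Co (HS c Λ' ω) u x → |κ.U (nd c x)| + 1 ≤ 4 * h ∧ |κ.V (nd c x)| + 1 ≤ 4 * h)
    (hx : Co (HS c Λ' ω) u x) : Co (HS c L ω) u x := by
  induction hx with
  | refl => exact Co.refl _ _
  | @tail p q hp hpq ih =>
    obtain ⟨h1, h2⟩ := mem_HS.1 hpq.2
    have h3 := hb p hp
    have h4 := κ.unit_UV (nd_el (c := c) hpq.1).1
    refine ih.tail ⟨hpq.1, mem_HS.2 ⟨hΛ _ h1 ?_ ?_, h2⟩⟩
    · rw [abs_le]
      have := abs_le.1 (by omega : |κ.U (nd c p)| ≤ 4 * h - 1)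
      omega
    · rw [abs_le]
      have := abs_le.1 (by omega : |κ.V (nd c p)| ≤ 4 * h - 1)
      omega

namespace CnrN

/-- an exit at the other wall near the corner: the class is macroscopic or touches both walls -/
lemma crsL (hC : CnrW W Bb B TT Tn fm co Wl La Λ b o L iL iF κ h Um Vm D)
    (hD : CnrN TT Tn fm co La b L iL iF κ h) (he : e ∈ TT) (hi : fm e = iL)
    (hm : ¬ Mac fm co La b 1 0 0 h ω e) (hx : Co (HS (co iL) (La iL) ω) (b e) x)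
    (hV : κ.V (nd (co iL) x) = 0) (hU0 : 0 ≤ κ.U (nd (co iL) x))
    (hU : κ.U (nd (co iL) x) < 2 * h) :
    e ∈ Tn ∧ Co (HS (co iL) L ω) (b e) x := by
  have hh := hC.hh
  have hn := not_Mac (κ := κ) hm
  rw [hi] at hn
  have h1 := hn x hx
  rw [abs_lt, abs_lt, hV] at h1
  have hT : e ∈ Tn := by
    refine hD.tieN e he (Or.inl hi) ?_ ?_
    · rw [hi, abs_le]; omega
    · rw [hi, abs_le]; omega
  have hL := hC.tL e hT hi
  refine ⟨hT, co_LaL (hD.laN iL (Or.inl rfl)) (fun y hy => ?_) hx⟩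
  have h2 := hn y hy
  rw [abs_lt, abs_lt, hL.2.2.1] at h2
  have g1 : |κ.U (nd (co iL) y)| ≤ h := by rw [abs_le]; omega
  have g2 : |κ.V (nd (co iL) y)| ≤ 2 * h := by rw [abs_le]; omega
  omega

lemma crsF (hC : CnrW W Bb B TT Tn fm co Wl La Λ b o L iL iF κ h Um Vm D)
    (hD : CnrN TT Tn fm co La b L iL iF κ h) (he : e ∈ TT) (hi : fm e = iF)
    (hm : ¬ Mac fm co La b 1 0 0 h ω e) (hx : Co (HS (co iF) (La iF) ω) (b e) x)
    (hU : κ.U (nd (co iF) x) = 0) (hV0 : 0 ≤ κ.V (nd (co iF) x))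
    (hV : κ.V (nd (co iF) x) < 2 * h) :
    e ∈ Tn ∧ Co (HS (co iF) L ω) (b e) x := by
  have hh := hC.hh
  have hn := not_Mac (κ := κ) hm
  rw [hi] at hn
  have h1 := hn x hx
  rw [abs_lt, abs_lt, hU] at h1
  have hT : e ∈ Tn := by
    refine hD.tieN e he (Or.inr hi) ?_ ?_
    · rw [hi, abs_le]; omega
    · rw [hi, abs_le]; omega
  have hL := hC.tF e hT hi
  refine ⟨hT, co_LaL (hD.laN iF (Or.inr rfl)) (fun y hy => ?_) hx⟩
  have h2 := hn y hy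
  rw [abs_lt, abs_lt, hL.2.2.1] at h2
  have g1 : |κ.V (nd (co iF) y)| ≤ h := by rw [abs_le]; omega
  have g2 : |κ.U (nd (co iF) y)| ≤ 2 * h := by rw [abs_le]; omega
  omega

end CnrN

/-- the value of a set of untied classes -/
noncomputable def VA (X : Env) (Cs : Finset (ℤ × ℤ)) (a : ℤ × ℤ → ℂ) (Bb B TT : Finset (ℤ × ℤ))
    (fm : ℤ × ℤ → ι) (co : ι → Bool) (La : ι → Finset (ℤ × ℤ)) (b : ℤ × ℤ → ℤ × ℤ)
    (ω : Finset (ℤ × ℤ)) (A : Finset (Finset (ℤ × ℤ))) : ℂ :=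
  VM X Cs a Bb B TT fm co ω (unc TT fm co La b ω A)

/-- classes without influence -/
noncomputable def IM (X : Env) (Cs : Finset (ℤ × ℤ)) (a : ℤ × ℤ → ℂ) (W Bb B TT : Finset (ℤ × ℤ))
    (fm : ℤ × ℤ → ι) (co : ι → Bool) (Wl La : ι → Finset (ℤ × ℤ)) (b o : ℤ × ℤ → ℤ × ℤ)
    (ω : Finset (ℤ × ℤ)) : Finset (Finset (ℤ × ℤ)) :=
  Ir (JM W TT fm co Wl La b o ω) (VA X Cs a Bb B TT fm co La b ω)

lemma CMW_sub : CMW W TT Tn fm co Wl La b o L iL iF κ ω ⊆ JM W TT fm co Wl La b o ω :=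
  fun _ hk => (CnrW.mem_CMW.1 hk).1

lemma JM_img (hk : k ∈ JM W TT fm co Wl La b o ω) : k ∈ TT.image (cls TT fm co La b ω) := by
  classical
  obtain ⟨e, he, rfl⟩ := mem_image.1 hk
  exact mem_image_of_mem _ (mem_filter.1 he).1

/-- two members of a class -/
lemma mem_two (hk : k ∈ TT.image (cls TT fm co La b ω)) (he0 : e0 ∈ k) (he : e ∈ k) :
    fm e = fm e0 ∧ Co (HS (co (fm e0)) (La (fm e0)) ω) (b e0) (b e) := by
  obtain ⟨e1, -, rfl⟩ := mem_image.1 hk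
  exact CnrW.cls_co he0 he

lemma mem_TT (hk : k ∈ TT.image (cls TT fm co La b ω)) (he : e ∈ k) : e ∈ TT := by
  obtain ⟨e1, -, rfl⟩ := mem_image.1 hk
  exact cls_sub he

/-- a class below a class without influence has no influence -/
lemma CnrW.down (hM : Multi X W Bb B TT fm co Wl La b o)
    (hC : CnrW W Bb B TT Tn fm co Wl La Λ b o L iL iF κ h Um Vm D)
    (hc' : ∀ c ∈ Cs, FarM X TT fm co Wl Λ b o c) (hω : ω ⊆ B)
    (hk : k ∈ CMW W TT Tn fm co Wl La b o L iL iF κ ω)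
    (hk' : k' ∈ CMW W TT Tn fm co Wl La b o L iL iF κ ω)
    (hI : k' ∈ IM X Cs a W Bb B TT fm co Wl La b o ω) (hne : k ≠ k')
    (hrk : rkW Tn fm co b L iL iF κ ω k ≤ rkW Tn fm co b L iL iF κ ω k') :
    k ∈ IM X Cs a W Bb B TT fm co Wl La b o ω :=
  Ir_down (CMW_sub hk) hI fun _ _ _ hA => hC.sh hM hc' hω hk hk' hA hne hrk

/-- a class of a tie near the corner with a higher touching point is in the chain -/
lemma CnrW.higher (hM : Multi X W Bb B TT fm co Wl La b o)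
    (hC : CnrW W Bb B TT Tn fm co Wl La Λ b o L iL iF κ h Um Vm D)
    (hc : ∀ c ∈ Cs, FarM X TT fm co Wl La b o c) (hc' : ∀ c ∈ Cs, FarM X TT fm co Wl Λ b o c)
    (hω : ω ⊆ B)
    (hk : k ∈ CMW W TT Tn fm co Wl La b o L iL iF κ ω \ IM X Cs a W Bb B TT fm co Wl La b o ω)
    (hf : f ∈ Tn) {v : ℤ} (hv : v ∈ hW Tn fm co b L iL iF κ ω (cls TT fm co La b ω f))
    (hlt : rkW Tn fm co b L iL iF κ ω k < v) :
    cls TT fm co La b ω f ∈ CMW W TT Tn fm co Wl La b o L iL iF κ ω \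
      IM X Cs a W Bb B TT fm co Wl La b o ω ∧
    rkW Tn fm co b L iL iF κ ω k < rkW Tn fm co b L iL iF κ ω (cls TT fm co La b ω f) := by
  classical
  obtain ⟨hkC, hkI⟩ := mem_sdiff.1 hk
  have hfT := hC.tn hf
  have hlt' : rkW Tn fm co b L iL iF κ ω k < rkW Tn fm co b L iL iF κ ω
      (cls TT fm co La b ω f) := lt_of_lt_of_le hlt (hC.le_rk hv)
  have hne : k ≠ cls TT fm co La b ω f := fun h1 => by
    rw [← h1] at hlt'; exact lt_irrefl _ hlt'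
  refine ⟨?_, hlt'⟩
  by_cases hf' : fre W TT fm co Wl La b o ω f
  · refine absurd (mem_Ir.2 ⟨CMW_sub hkC, fun A _ _ => ?_⟩) hkI
    exact hC.irr hM hc hc' hω hkC hfT ⟨v, hv⟩ hf' hne hlt'.le
  · have hJ' : cls TT fm co La b ω f ∈ JM W TT fm co Wl La b o ω :=
      mem_image_of_mem _ (mem_filter.2 ⟨hfT, hf'⟩)
    have hC' : cls TT fm co La b ω f ∈ CMW W TT Tn fm co Wl La b o L iL iF κ ω :=
      CnrW.mem_CMW.2 ⟨hJ', ⟨v, hv⟩⟩
    refine mem_sdiff.2 ⟨hC', fun hI' => hkI ?_⟩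
    exact hC.down hM hc' hω hkC hC' hI' hne hlt'.le

namespace CnrN

/-- **A class of the chain has size at least `ρ` or there is a higher class of the other family with
a tie at distance at most `2 ρ` from the corner.** -/
theorem mac_or_rho (hρ : ρ ≤ h) (hM : Multi X W Bb B TT fm co Wl La b o)
    (hC : CnrW W Bb B TT Tn fm co Wl La Λ b o L iL iF κ h Um Vm D)
    (hD : CnrN TT Tn fm co La b L iL iF κ h)
    (hc : ∀ c ∈ Cs, FarM X TT fm co Wl La b o c) (hc' : ∀ c ∈ Cs, FarM X TT fm co Wl Λ b o c)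
    (hω : ω ⊆ B) (hS : κ.Sur ρ L ω)
    (hk : k ∈ CMW W TT Tn fm co Wl La b o L iL iF κ ω \ IM X Cs a W Bb B TT fm co Wl La b o ω) :
    (∃ e ∈ k, Mac fm co La b 1 0 0 ρ ω e) ∨
    ∃ k' ∈ CMW W TT Tn fm co Wl La b o L iL iF κ ω \ IM X Cs a W Bb B TT fm co Wl La b o ω,
      rkW Tn fm co b L iL iF κ ω k < rkW Tn fm co b L iL iF κ ω k' ∧
        (∀ e ∈ k, ∀ e' ∈ k', co (fm e') ≠ co (fm e)) ∧ ∃ e' ∈ k',
          (0 ≤ κ.U (nd (co (fm e')) (b e')) ∧ κ.U (nd (co (fm e')) (b e')) ≤ 2 * ρ) ∧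
          0 ≤ κ.V (nd (co (fm e')) (b e')) ∧ κ.V (nd (co (fm e')) (b e')) ≤ 2 * ρ := by
  classical
  have hh := hC.hh
  have hkC := (mem_sdiff.1 hk).1
  obtain ⟨hkJ, v0, hv0⟩ := CnrW.mem_CMW.1 hkC
  have hki := JM_img hkJ
  have hne : (hW Tn fm co b L iL iF κ ω k).Nonempty := ⟨v0, hv0⟩
  obtain ⟨e0, he0, he0n, hv0⟩ := hv0
  rw [or_iff_not_imp_left]
  intro hcon
  push Not at hcon
  have he0T := mem_TT hki he0
  have hn := not_Mac (κ := κ) (hcon e0 he0)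
  obtain ⟨f1, hf1, hf1n, hf1v⟩ := hC.rk_mem hne
  obtain ⟨hf1f, hf1c⟩ := mem_two hki he0 hf1
  rcases hv0 with ⟨hi, ⟨t, ht, htV⟩, -⟩ | ⟨hi, g, hg, hgU, hgV, -⟩
  · -- left wall family
    rw [hi] at hn hf1f hf1c
    have hL := hC.tL e0 he0n hi
    have hLa : ∀ x, Co (HS (co iL) L ω) (b e0) x → Co (HS (co iL) (La iL) ω) (b e0) x := by
      intro x hx
      refine co_layer (f := κ.U) (h := h) ?_ hD.laL ?_ hx
      · intro p q hpq
        have := κ.unit_UV hpq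
        omega
      · intro x hx
        have h1 := (hn x hx).1
        rw [abs_lt, hL.2.2.1] at h1
        omega
    have hb : 0 ≤ κ.U (nd (co iL) (b e0)) ∧ 0 ≤ κ.V (nd (co iL) (b e0)) := by
      rw [hL.2.2.1]; exact ⟨le_rfl, by have := hL.2.2.2.1; omega⟩
    have htL := hn t (hLa t ht)
    rw [abs_lt, abs_lt, hL.2.2.1, htV] at htL
    have hLa' : ∀ x, Co (HS (co iL) (La iL) ω) (b e0) x → Co (HS (co iL) L ω) (b e0) x := by
      intro x hx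
      refine co_LaL (hD.laN iL (Or.inl rfl)) (fun y hy => ?_) hx
      have h2 := hn y hy
      rw [abs_lt, abs_lt, hL.2.2.1] at h2
      have g1 : |κ.U (nd (co iL) y)| ≤ h := by rw [abs_le]; omega
      have g2 : |κ.V (nd (co iL) y)| ≤ 2 * h := by rw [abs_le]; omega
      omega
    have hsm : ∀ x, Co (HS (co iL) L ω) (b e0) x →
        κ.U (nd (co iL) x) < 2 * ρ ∧ κ.V (nd (co iL) x) < 2 * ρ := by
      intro x hx
      have h1 := hn x (hLa x hx)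
      rw [abs_lt, abs_lt, hL.2.2.1] at h1
      omega
    obtain ⟨g, f, g1, g2, g3, g4, -, g6, g7⟩ := hS (co iL) (co iF) hC.neq (b e0) t hL.2.2.1 hb.2 ht
      htV hsm
    have hg0 := hb.2
    have hgV : 1 ≤ κ.V (nd (co iF) g) := by
      have := g4 (b e0) (Co.refl _ _) hL.2.2.1
      omega
    have hfU : 0 ≤ κ.U (nd (co iF) f) := by
      rcases hC.node g1 with h1 | h1
      · rw [h1, g2]
      · exact h1.1.1
    obtain ⟨f', hf', hf'i, hbf⟩ := hD.fullF f g3 hfU (by omega)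
    have hf'T := hC.tn hf'
    have hgf : Co (HS (co iF) L ω) (b f') g := by rw [hbf]; exact g1.symm
    have hv : κ.V (nd (co iF) g) ∈ hW Tn fm co b L iL iF κ ω (cls TT fm co La b ω f') :=
      ⟨f', self_cls hf'T, hf', Or.inr ⟨hf'i, g, hgf, g2, hgV, rfl⟩⟩
    have hlt : rkW Tn fm co b L iL iF κ ω k < κ.V (nd (co iF) g) := by
      rcases hf1v with ⟨k1, -, k2⟩ | ⟨k1, -⟩
      · rw [k2]
        exact g4 (b f1) (hLa' _ hf1c) (hC.tL f1 hf1n k1).2.2.1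
      · exact absurd (hf1f.symm.trans k1) hC.ine
    obtain ⟨k1, k2⟩ := hC.higher hM hc hc' hω hk hf' hv hlt
    refine ⟨_, k1, k2, fun e he e' he' => ?_, f', self_cls hf'T, ?_⟩
    · rw [(mem_cls.1 he').1.2, hf'i, (mem_two hki he0 he).1, hi]
      exact Ne.symm hC.neq
    · rw [hf'i, hbf, g3]
      exact ⟨⟨hfU, g7⟩, le_rfl, by omega⟩
  · -- floor family
    rw [hi] at hn hf1f hf1c
    have hF := hC.tF e0 he0n hi
    have hLa : ∀ x, Co (HS (co iF) L ω) (b e0) x → Co (HS (co iF) (La iF) ω) (b e0) x := by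
      intro x hx
      refine co_layer (f := κ.V) (h := h) ?_ hD.laF ?_ hx
      · intro p q hpq
        have := κ.unit_UV hpq
        omega
      · intro x hx
        have h1 := (hn x hx).2
        rw [abs_lt, hF.2.2.1] at h1
        omega
    have hgL := hn g (hLa g hg)
    rw [abs_lt, abs_lt, hF.2.2.1, hgU] at hgL
    have hLa' : ∀ x, Co (HS (co iF) (La iF) ω) (b e0) x → Co (HS (co iF) L ω) (b e0) x := by
      intro x hx
      refine co_LaL (hD.laN iF (Or.inr rfl)) (fun y hy => ?_) hx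
      have h2 := hn y hy
      rw [abs_lt, abs_lt, hF.2.2.1] at h2
      have g1 : |κ.V (nd (co iF) y)| ≤ h := by rw [abs_le]; omega
      have g2 : |κ.U (nd (co iF) y)| ≤ 2 * h := by rw [abs_le]; omega
      omega
    have hsm : ∀ x, Co (HS (co iF) L ω) g x →
        κ.U (nd (co iF) x) < 2 * ρ ∧ κ.V (nd (co iF) x) < 2 * ρ := by
      intro x hx
      have h1 := hn x (hLa x (hg.trans hx))
      rw [abs_lt, abs_lt, hF.2.2.1] at h1
      omega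
    obtain ⟨g', f', g1, g2, g3, g4, -, g6, g7⟩ := hS (co iF) (co iL) (Ne.symm hC.neq) g (b e0) hgU
      (by omega) hg.symm hF.2.2.1 hsm
    have hgV' : 1 ≤ κ.V (nd (co iL) g') := by
      have := g4 g (Co.refl _ _) hgU
      omega
    obtain ⟨e', he', he'i, hbe⟩ := hD.fullL g' g2 hgV' (by omega)
    have he'T := hC.tn he'
    have hv : κ.V (nd (co iL) g') ∈ hW Tn fm co b L iL iF κ ω (cls TT fm co La b ω e') :=
      ⟨e', self_cls he'T, he', Or.inl ⟨he'i, ⟨f', by rw [hbe]; exact g1, g3⟩, by rw [hbe]⟩⟩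
    have hlt : rkW Tn fm co b L iL iF κ ω k < κ.V (nd (co iL) g') := by
      rcases hf1v with ⟨k1, -⟩ | ⟨k1, g3', k3, k4, k5, k2⟩
      · exact absurd (k1.symm.trans hf1f) hC.ine
      · rw [k2]
        exact g4 g3' (hg.symm.trans ((hLa' _ hf1c).trans k3)) k4
    obtain ⟨k1, k2⟩ := hC.higher hM hc hc' hω hk he' hv hlt
    refine ⟨_, k1, k2, fun e he e'' he'' => ?_, e', self_cls he'T, ?_⟩
    · rw [(mem_cls.1 he'').1.2, he'i, (mem_two hki he0 he).1, hi]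
      exact hC.neq
    · rw [he'i, hbe, g2]
      exact ⟨⟨le_rfl, by omega⟩, by omega, g6⟩

/-- the top of the chain has size `ρ` -/
theorem mac_top (hρ : ρ ≤ h) (hM : Multi X W Bb B TT fm co Wl La b o)
    (hC : CnrW W Bb B TT Tn fm co Wl La Λ b o L iL iF κ h Um Vm D)
    (hD : CnrN TT Tn fm co La b L iL iF κ h)
    (hc : ∀ c ∈ Cs, FarM X TT fm co Wl La b o c) (hc' : ∀ c ∈ Cs, FarM X TT fm co Wl Λ b o c)
    (hω : ω ⊆ B) (hS : κ.Sur ρ L ω)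
    (hk : k ∈ tops (rkW Tn fm co b L iL iF κ ω) (CMW W TT Tn fm co Wl La b o L iL iF κ ω \
      IM X Cs a W Bb B TT fm co Wl La b o ω)) :
    ∃ e ∈ k, Mac fm co La b 1 0 0 ρ ω e := by
  obtain ⟨hk1, hmax⟩ := mem_tops.1 hk
  rcases hD.mac_or_rho hρ hM hC hc hc' hω hS hk1 with h1 | ⟨k', h1, h2, -⟩
  · exact h1
  · have := hmax k' h1
    omega

/-- the second class of the chain has size `ρ` or the first one has a tie near the corner -/
theorem near_second (hρ : ρ ≤ h) (hM : Multi X W Bb B TT fm co Wl La b o)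
    (hC : CnrW W Bb B TT Tn fm co Wl La Λ b o L iL iF κ h Um Vm D)
    (hD : CnrN TT Tn fm co La b L iL iF κ h)
    (hc : ∀ c ∈ Cs, FarM X TT fm co Wl La b o c) (hc' : ∀ c ∈ Cs, FarM X TT fm co Wl Λ b o c)
    (hω : ω ⊆ B) (hS : κ.Sur ρ L ω)
    (hm : m ∈ tops (rkW Tn fm co b L iL iF κ ω) ((CMW W TT Tn fm co Wl La b o L iL iF κ ω \
      IM X Cs a W Bb B TT fm co Wl La b o ω).erase n)) :
    (∃ e ∈ m, Mac fm co La b 1 0 0 ρ ω e) ∨ ∃ e' ∈ n,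
      (0 ≤ κ.U (nd (co (fm e')) (b e')) ∧ κ.U (nd (co (fm e')) (b e')) ≤ 2 * ρ) ∧
      0 ≤ κ.V (nd (co (fm e')) (b e')) ∧ κ.V (nd (co (fm e')) (b e')) ≤ 2 * ρ := by
  obtain ⟨hm1, hmax⟩ := mem_tops.1 hm
  obtain ⟨hmn, hm2⟩ := mem_erase.1 hm1
  rcases hD.mac_or_rho hρ hM hC hc hc' hω hS hm2 with h1 | ⟨k', h1, h2, -, h4⟩
  · exact Or.inl h1
  · right
    by_cases hkn : k' = n
    · rw [← hkn]; exact h4
    · have := hmax k' (mem_erase.2 ⟨hkn, h1⟩)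
      omega

/-- two classes of the same rank are equal or macroscopic -/
theorem rk_unique (hC : CnrW W Bb B TT Tn fm co Wl La Λ b o L iL iF κ h Um Vm D)
    (hD : CnrN TT Tn fm co La b L iL iF κ h)
    (hm : m ∈ CMW W TT Tn fm co Wl La b o L iL iF κ ω)
    (hm' : m' ∈ CMW W TT Tn fm co Wl La b o L iL iF κ ω)
    (hrk : rkW Tn fm co b L iL iF κ ω m = rkW Tn fm co b L iL iF κ ω m')
    (hn : ∀ e ∈ m, ¬ Mac fm co La b 1 0 0 h ω e) : m' = m := by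
  classical
  have hh := hC.hh
  obtain ⟨hmJ, hmn⟩ := CnrW.mem_CMW.1 hm
  obtain ⟨hmJ', hmn'⟩ := CnrW.mem_CMW.1 hm'
  have h1 := hC.rk_mem hmn
  have h2 := hC.rk_mem hmn'
  rw [← hrk] at h2
  obtain ⟨e1, he1, e1n, h1⟩ := h1
  obtain ⟨e2, he2, e2n, h2⟩ := h2
  have c1 := cls_of_mem (JM_img hmJ) he1
  have c2 := cls_of_mem (JM_img hmJ') he2
  have e2T := hC.tn e2n
  rw [← c1, ← c2]
  rcases h1 with ⟨i1, -, r1⟩ | ⟨i1, g1, q1, u1, v1, r1⟩
  · rcases h2 with ⟨i2, -, r2⟩ | ⟨i2, g2, q2, u2, v2, r2⟩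
    · have t1 := hC.tL e1 e1n i1
      have t2 := hC.tL e2 e2n i2
      have hb : b e1 = b e2 :=
        nd_inj (κ.inj (t1.2.2.1.trans t2.2.2.1.symm) (r1.symm.trans r2))
      refine cls_eq_of (mem_cls.2 ⟨⟨e2T, i2.trans i1.symm⟩, ?_⟩)
      rw [hb]; exact Co.refl _ _
    · exact absurd (r1.symm.trans r2) (hC.parity (hC.tL e1 e1n i1).2.2.1 u2)
  · rcases h2 with ⟨i2, -, r2⟩ | ⟨i2, g2, q2, u2, v2, r2⟩
    · exact absurd (r2.symm.trans r1) (hC.parity (hC.tL e2 e2n i2).2.2.1 u1)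
    · have hg : g1 = g2 := nd_inj (κ.inj (u1.trans u2.symm) (r1.symm.trans r2))
      refine cls_eq_of (mem_cls.2 ⟨⟨e2T, i2.trans i1.symm⟩, ?_⟩)
      have hL : Co (HS (co iF) L ω) (b e1) (b e2) := q1.trans (by rw [hg]; exact q2.symm)
      have hnm := not_Mac (κ := κ) (hn e1 he1)
      rw [i1] at hnm ⊢
      have hF := hC.tF e1 e1n i1
      have h3 : Co (HS (co iF) (La iF) ω) (b e1) (b e2) := by
        refine co_layer (f := κ.V) (h := h) ?_ hD.laF ?_ hL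
        · intro p q hpq
          have := κ.unit_UV hpq
          omega
        · intro x hx
          have h1 := (hnm x hx).2
          rw [abs_lt, hF.2.2.1] at h1
          omega
      exact h3

end CnrN

end Pool.Agent.H40.Sp
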