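import Mathlib
import Pool.Agent.H40.Sp.CnrG

set_option autoImplicit false
open Finset

/-! # The first order expansion for a window with several marked corners

`CrW` : the marked corners `c ∈ Γ` of a window and the exits of its layers. `CrW.first` : first order
expansion, `CrW.err_mean` : its error in terms of the number of macroscopic classes without marks. -/

namespace Pool.Agent.H40.Sp

open Pool.Agent.H75.Perc Pool.Agent.H75.TwoArm Pool.Agent.H75.Four Pool.Agent.H69.Q1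
open Pool.Agent.Q1 Pool.Agent.H25.Q1.Add Pool.Agent.H99.NC Pool.Agent.H49.Perc
open Pool.Agent.H20.Q1 (Eh CS hf)
open Pool.Agent.H39.Q1 hiding hide_LL hide_LF hide_FL hide_FF
open Pool.Agent.H39.R45 (UM mem_UM UM_mono img_disj cls_of_mem Uc mem_Uc Uc_mono sum_ge2_le
  sum_pair_le three_pow qE qE_pb Ex_qE)

section abs

variable {α κ : Type*} [DecidableEq α] [DecidableEq κ]
  {q : α → ℝ} {T P : Finset α} {J : Finset (Finset α)} {Γ : Finset κ} {C : κ → Finset (Finset α)}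

/-- **the error of the first order expansion in terms of marks** -/
theorem chErrS_le (hq : Pb q) {φ : Finset α → ℂ}
    {rk : κ → Finset α → ℤ} {M K : ℝ}
    (hM : 0 ≤ M) (hK : 1 ≤ K) (hC : ∀ c ∈ Γ, C c ⊆ J) (hT : ∀ k ∈ J, k ⊆ T)
    (hd : (J : Set (Finset α)).PairwiseDisjoint id)
    (hw : ∀ k ∈ J, ‖φ k‖ ≤ ∏ e ∈ k, (1 - q e)) :
    chErrS φ rk J Γ C M K ≤ Ex q T (fun P =>
      K ^ Γ.card * M * (3 ^ (Uc ((J \ Γ.biUnion C) ∪ Γ.biUnion fun c => tops (rk c) (C c)) P).card *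
        ind (2 ≤ (Uc ((J \ Γ.biUnion C) ∪ Γ.biUnion fun c => tops (rk c) (C c)) P).card)) +
      2 * 3 ^ Γ.card * (K ^ Γ.card * M) * ∑ c ∈ Γ, ∑ n ∈ Uc (tops (rk c) (C c)) P,
        ((Uc (tops (rk c) ((C c).erase n)) P).card : ℝ)) := by
  have hS : (J \ Γ.biUnion C) ∪ Γ.biUnion (fun c => tops (rk c) (C c)) ⊆ J :=
    union_subset sdiff_subset (biUnion_subset.2 fun c hc => (filter_subset _ _).trans (hC c hc))
  have h1 := sum_ge2_le (q := q) (T := T)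
    (S := (J \ Γ.biUnion C) ∪ Γ.biUnion fun c => tops (rk c) (C c)) (w := fun k => ‖φ k‖) hq
    (fun k hk => hT k (hS hk)) (hd.subset (coe_subset.2 hS)) (fun _ _ => norm_nonneg _)
    (fun k hk => hw k (hS hk))
  have h2 : ∀ c ∈ Γ, _ := fun c hc => sum_pair_le (q := q) (T := T) (S := J) (w := fun k => ‖φ k‖)
    hT hd (fun _ _ => norm_nonneg _) hw (N := tops (rk c) (C c))
    (M := fun n => tops (rk c) ((C c).erase n))
    ((filter_subset _ _).trans (hC c hc))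
    (fun n _ => ((filter_subset _ _).trans (erase_subset _ _)).trans (hC c hc))
    (fun n _ h => notMem_erase n (C c) (mem_tops.1 h).1)
  unfold chErrS
  rw [Ex_add, Ex_smul, Ex_smul, Ex_sum]
  have hKM : 0 ≤ K ^ Γ.card * M := mul_nonneg (by positivity) hM
  refine add_le_add (mul_le_mul_of_nonneg_left h1 hKM) (mul_le_mul_of_nonneg_left ?_ ?_)
  · exact sum_le_sum h2
  · exact mul_nonneg (by positivity) hKM

end abs

variable {ι γ : Type*} [DecidableEq ι] [DecidableEq γ]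

/-- **The marked corners of a window.** -/
structure CrW (W Bb B TT : Finset (ℤ × ℤ)) (fm : ℤ × ℤ → ι) (co : ι → Bool)
    (Wl La : ι → Finset (ℤ × ℤ)) (b o : ℤ × ℤ → ℤ × ℤ) (h : ℤ) (Γ : Finset γ)
    (Tn : γ → Finset (ℤ × ℤ)) (Λ : γ → ι → Finset (ℤ × ℤ)) (L : γ → Finset (ℤ × ℤ))
    (iL iF : γ → ι) (κ : γ → Cht) (Um Vm D : γ → ℤ) : Prop where
  cnr : ∀ c ∈ Γ, CnrW W Bb B TT (Tn c) fm co Wl La (Λ c) b o (L c) (iL c) (iF c) (κ c) h (Um c)
    (Vm c) (D c)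
  cnn : ∀ c ∈ Γ, CnrN TT (Tn c) fm co La b (L c) (iL c) (iF c) (κ c) h
  ex : ∀ i x y, IsUnit4 (y - x) → VN (co i) (La i) (TF TT fm i) b x →
    av Bb W TT fm co Wl i (el (co i) x y) → (∀ z, IsUnit4 (z - x) → el (co i) x z ∉ Wl i) →
    el (co i) x y ∈ La i ∨
      (∀ e ∈ TF TT fm i, h ≤ |cU 1 0 0 (nd (co i) x) - cU 1 0 0 (nd (co i) (b e))| ∨
        h ≤ |cV 1 0 0 (nd (co i) x) - cV 1 0 0 (nd (co i) (b e))|) ∨
      (∃ c ∈ Γ, i = iL c ∧ (κ c).V (nd (co i) x) = 0 ∧ 0 ≤ (κ c).U (nd (co i) x) ∧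
        (κ c).U (nd (co i) x) < 2 * h) ∨
      (∃ c ∈ Γ, i = iF c ∧ (κ c).U (nd (co i) x) = 0 ∧ 1 ≤ (κ c).V (nd (co i) x) ∧
        (κ c).V (nd (co i) x) < 2 * h)

/-- a class without marks of size `h` has a tie near a marked corner -/
def NZW (TT : Finset (ℤ × ℤ)) (fm : ℤ × ℤ → ι) (co : ι → Bool)
    (La : ι → Finset (ℤ × ℤ)) (b : ℤ × ℤ → ℤ × ℤ) (h ρ : ℤ) (Γ : Finset γ) (κ : γ → Cht)
    (ω P : Finset (ℤ × ℤ)) : Prop :=
  ∃ c ∈ Γ, ∃ k ∈ UM TT fm co La b 1 0 0 h ω P, ∃ e ∈ k,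
    (0 ≤ (κ c).U (nd (co (fm e)) (b e)) ∧ (κ c).U (nd (co (fm e)) (b e)) ≤ 2 * ρ) ∧
    0 ≤ (κ c).V (nd (co (fm e)) (b e)) ∧ (κ c).V (nd (co (fm e)) (b e)) ≤ 2 * ρ

variable {X : Env} {W Bb B TT Cs ω ω' θ P k n m : Finset (ℤ × ℤ)}
  {fm : ℤ × ℤ → ι} {co : ι → Bool} {Wl La : ι → Finset (ℤ × ℤ)}
  {b o : ℤ × ℤ → ℤ × ℤ} {a : ℤ × ℤ → ℂ} {s : ℤ × ℤ → ℂ} {e x y : ℤ × ℤ} {h ρ : ℤ}
  {Γ : Finset γ} {Tn : γ → Finset (ℤ × ℤ)} {Λ : γ → ι → Finset (ℤ × ℤ)}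
  {L : γ → Finset (ℤ × ℤ)} {iL iF : γ → ι} {κ : γ → Cht} {Um Vm D : γ → ℤ} {M K : ℝ}

/-- a class which is not free has an exit at a node which is not on the wall -/
lemma exit_off_wall (hM : Multi X W Bb B TT fm co Wl La b o) (hω : ω ⊆ B) (heT : e ∈ TT)
    (hf : ¬ fre W TT fm co Wl La b o ω e) :
    ∃ x y, Co (HS (co (fm e)) (La (fm e)) ω) (b e) x ∧ IsUnit4 (y - x) ∧
      av Bb W TT fm co Wl (fm e) (el (co (fm e)) x y) ∧ el (co (fm e)) x y ∉ La (fm e) ∧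
      ∀ z, IsUnit4 (z - x) → el (co (fm e)) x z ∉ Wl (fm e) := by
  obtain ⟨x, y, h2, h3, h4, h5⟩ := hM.exit_of_not_fre hω hf
  refine ⟨x, y, h2, h3, h4, h5, ?_⟩
  intro z hz hw
  apply hf
  have heF : e ∈ TF TT fm (fm e) := mem_TF.2 ⟨heT, rfl⟩
  unfold fre
  rcases hco : co (fm e) with _ | _
  · rw [if_neg Bool.false_ne_true]
    unfold FreeC
    right
    rw [hco] at h2 hw
    rw [el_false] at hw
    have g1 := ((hM.tC _ hco).conn' x z hz hw e heF).mono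
      (subset_union_right (s₁ := du (La (fm e)) (ω ∪ W)))
    unfold HS at h2
    rw [if_neg Bool.false_ne_true] at h2
    rw [← hM.duC'] at h2
    exact g1.trans (h2.mono subset_union_left).symm
  · rw [if_pos rfl]
    right
    rw [hco] at h2 hw
    rw [el_true] at hw
    have g1 := ((hM.tO _ hco).conn' x z hz hw e heF).mono
      (subset_union_right (s₁ := (ω ∪ (W \ Wl (fm e))) ∩ La (fm e)))
    unfold HS at h2
    rw [if_pos rfl] at h2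
    refine g1.trans (h2.mono ?_).symm
    intro l hl
    rw [mem_inter] at hl
    exact mem_union_left _ (mem_inter.2 ⟨mem_union_left _ hl.1, hl.2⟩)

namespace CrW

/-- classes which are in no chain are macroscopic -/
theorem mac_sdiff (hM : Multi X W Bb B TT fm co Wl La b o)
    (hC : CrW W Bb B TT fm co Wl La b o h Γ Tn Λ L iL iF κ Um Vm D) (hω : ω ⊆ B)
    (hk : k ∈ JM W TT fm co Wl La b o ω)
    (hk' : ∀ c ∈ Γ, k ∉ CMW W TT (Tn c) fm co Wl La b o (L c) (iL c) (iF c) (κ c) ω)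
    (he : e ∈ k) : Mac fm co La b 1 0 0 h ω e := by
  classical
  by_contra hm
  obtain ⟨e0, he0, rfl⟩ := mem_image.1 hk
  obtain ⟨he0T, hf0⟩ := mem_filter.1 he0
  have heT : e ∈ TT := cls_sub he
  have hf : ¬ fre W TT fm co Wl La b o ω e := by
    intro h1
    refine hf0 (hM.fre_cls heT h1 ?_)
    rw [cls_eq_of he]
    exact self_cls he0T
  obtain ⟨x, y, h2, h3, h4, h5, hwl⟩ := exit_off_wall hM hω heT hf
  have hVN : VN (co (fm e)) (La (fm e)) (TF TT fm (fm e)) b x :=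
    VN_of_co (mem_TF.2 ⟨heT, rfl⟩) HS_el h2
  rcases hC.ex (fm e) x y h3 hVN h4 hwl with h6 | h6 | ⟨c, hc, h6, h7, h8, h9⟩ | ⟨c, hc, h6, h7, h8, h9⟩
  · exact h5 h6
  · exact hm ⟨x, h2, h6 e (mem_TF.2 ⟨heT, rfl⟩)⟩
  · rw [h6] at h2 h7 h8 h9
    obtain ⟨g1, g2⟩ := (hC.cnn c hc).crsL (hC.cnr c hc) heT h6 hm h2 h7 h8 h9
    exact hk' c hc (CnrW.mem_CMW.2 ⟨hk, _, e, he, g1, Or.inl ⟨h6, ⟨x, g2, h7⟩, rfl⟩⟩)
  · rw [h6] at h2 h7 h8 h9
    obtain ⟨g1, g2⟩ := (hC.cnn c hc).crsF (hC.cnr c hc) heT h6 hm h2 h7 (by omega) h9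
    exact hk' c hc (CnrW.mem_CMW.2 ⟨hk, _, e, he, g1, Or.inr ⟨h6, x, g2, h7, h8, rfl⟩⟩)

end CrW

/-- the chains -/
noncomputable def CC (X : Env) (Cs : Finset (ℤ × ℤ)) (a : ℤ × ℤ → ℂ) (W Bb B TT : Finset (ℤ × ℤ))
    (fm : ℤ × ℤ → ι) (co : ι → Bool) (Wl La : ι → Finset (ℤ × ℤ)) (b o : ℤ × ℤ → ℤ × ℤ)
    (Tn : γ → Finset (ℤ × ℤ)) (L : γ → Finset (ℤ × ℤ)) (iL iF : γ → ι) (κ : γ → Cht)
    (ω : Finset (ℤ × ℤ)) (c : γ) : Finset (Finset (ℤ × ℤ)) :=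
  CMW W TT (Tn c) fm co Wl La b o (L c) (iL c) (iF c) (κ c) ω \ IM X Cs a W Bb B TT fm co Wl La b o ω

/-- the error of the first order expansion -/
noncomputable def ErW (X : Env) (Cs : Finset (ℤ × ℤ)) (a : ℤ × ℤ → ℂ) (W Bb B TT : Finset (ℤ × ℤ))
    (fm : ℤ × ℤ → ι) (co : ι → Bool) (Wl La : ι → Finset (ℤ × ℤ)) (b o : ℤ × ℤ → ℤ × ℤ)
    (Γ : Finset γ) (Tn : γ → Finset (ℤ × ℤ)) (L : γ → Finset (ℤ × ℤ)) (iL iF : γ → ι)
    (κ : γ → Cht) (s : ℤ × ℤ → ℂ) (M K : ℝ) (ω : Finset (ℤ × ℤ)) : ℝ :=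
  chErrS (fun k => ∏ e ∈ k, s e)
    (fun c => rkW (Tn c) fm co b (L c) (iL c) (iF c) (κ c) ω)
    (JM W TT fm co Wl La b o ω \ IM X Cs a W Bb B TT fm co Wl La b o ω) Γ
    (CC X Cs a W Bb B TT fm co Wl La b o Tn L iL iF κ ω) M K

/-- **First order expansion of a window with several marked corners.** -/
theorem CrW.first (hM : Multi X W Bb B TT fm co Wl La b o) {rk : ℤ × ℤ → ℤ}
    (hC : CrW W Bb B TT fm co Wl La b o h Γ Tn Λ L iL iF κ Um Vm D)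
    (hc : ∀ c ∈ Cs, FarM X TT fm co Wl La b o c)
    (hc' : ∀ g ∈ Γ, ∀ c ∈ Cs, FarM X TT fm co Wl (Λ g) b o c)
    (hrk : ∀ e ∈ TT, ∀ e' ∈ TT, rk e = rk e' → e = e') (hK : 1 ≤ K)
    (hs1 : ∀ e ∈ TT, ‖s e‖ ≤ 1) (hs2 : ∀ e ∈ TT, ‖1 - s e‖ ≤ K * (1 - ‖s e‖))
    (hM' : ∀ ω ⊆ B, ∀ P ⊆ TT, ‖VM X Cs a Bb B TT fm co ω P‖ ≤ M) :
    ‖Tot X Cs a Bb TT fm co s - Eh Bb (fun ω => U X Cs a (ω ∪ opn TT fm co TT)) -
      ∑ e ∈ TT, Eh B (fun ω => FT (TF TT fm (fm e)) b rk s e (SM TT fm co La b e ω) *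
        DM X Cs a Bb B TT fm co La b e ω)‖ ≤
      Ex hf B (ErW X Cs a W Bb B TT fm co Wl La b o Γ Tn L iL iF κ s M K) := by
  classical
  set V : Finset (ℤ × ℤ) → Finset (Finset (ℤ × ℤ)) → ℂ :=
    fun ω A => VM X Cs a Bb B TT fm co ω (unc TT fm co La b ω A) with hV
  have e1 : Tot X Cs a Bb TT fm co s = Eh B (fun ω =>
      cE (fun k => ∏ e ∈ k, s e) (JM W TT fm co Wl La b o ω) (V ω)) := by
    unfold Tot
    refine (Ec_split _ hM.bB _).trans (Ec_congr fun ω hω => ?_)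
    rw [hV]
    simp only
    rw [← hM.classes hc hω]
    exact Ec_swap (fun _ => (1 / 2 : ℂ)) (fun e => 1 - s e) (Bb \ B) TT
      (fun ω' P => U X Cs a (ω ∪ ω' ∪ opn TT fm co P))
  have e2 : Eh Bb (fun ω => U X Cs a (ω ∪ opn TT fm co TT)) = Eh B (fun ω => V ω ∅) := by
    refine (Ec_split _ hM.bB _).trans (Ec_congr fun ω hω => ?_)
    rw [hV]
    simp only
    rw [unc_empty]
    rfl
  have e3 : (∑ e ∈ TT, Eh B (fun ω => FT (TF TT fm (fm e)) b rk s e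
        (SM TT fm co La b e ω) * DM X Cs a Bb B TT fm co La b e ω)) =
      Eh B (fun ω => ∑ k ∈ JM W TT fm co Wl La b o ω, (∏ e ∈ k, s e) *
        (V ω {k} - V ω ∅)) := by
    symm
    refine (Ec_congr fun ω hω => hM.sum_first (s := s) (a := a) hc hω hrk).trans ?_
    exact Ec_sum _ _ _ _
  rw [e1, e2, e3]
  rw [← Ec_sub, ← Ec_sub]
  refine Ec_half_norm fun ω hω => ?_
  have hcT : ∀ k ∈ JM W TT fm co Wl La b o ω, k ⊆ TT := by
    intro k hk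
    obtain ⟨e, -, rfl⟩ := mem_image.1 hk
    exact cls_sub
  refine first_chains' (J := JM W TT fm co Wl La b o ω) (F := V ω) (Γ := Γ)
    (C := fun c => CMW W TT (Tn c) fm co Wl La b o (L c) (iL c) (iF c) (κ c) ω)
    (fun c _ => CMW_sub) hK ?_ ?_ ?_ ?_
  · intro c _ k hk
    exact (stolz_prod (K := K) (fun e he => hs1 e (hcT k (CMW_sub hk) he))
      (fun e he => hs2 e (hcT k (CMW_sub hk) he))).1
  · intro c _ k hk
    exact (stolz_prod (K := K) (fun e he => hs1 e (hcT k (CMW_sub hk) he))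
      (fun e he => hs2 e (hcT k (CMW_sub hk) he))).2
  · intro A _
    exact hM' ω hω _ (filter_subset _ _)
  · intro c hcΓ A _ i hi j hj _ hjA hij hr
    exact (hC.cnr c hcΓ).sh hM (hc' c hcΓ) hω hi hj hjA hij hr

namespace CrW

/-- **number of pairs of classes without marks** -/
theorem pairs_le (hρ : ρ ≤ h) (hM : Multi X W Bb B TT fm co Wl La b o)
    (hC : CrW W Bb B TT fm co Wl La b o h Γ Tn Λ L iL iF κ Um Vm D)
    (hc : ∀ c ∈ Cs, FarM X TT fm co Wl La b o c)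
    (hc' : ∀ g ∈ Γ, ∀ c ∈ Cs, FarM X TT fm co Wl (Λ g) b o c) (hω : ω ⊆ B) {c : γ} (hcΓ : c ∈ Γ)
    (hS : (κ c).Sur h (L c) ω) (hSρ : (κ c).Sur ρ (L c) ω) {C : Finset (Finset (ℤ × ℤ))}
    (hCdef : C = CC X Cs a W Bb B TT fm co Wl La b o Tn L iL iF κ ω c) :
    ∑ n ∈ Uc (tops (rkW (Tn c) fm co b (L c) (iL c) (iF c) (κ c) ω) C) P,
      ((Uc (tops (rkW (Tn c) fm co b (L c) (iL c) (iF c) (κ c) ω) (C.erase n)) P).card : ℝ) ≤
      3 ^ (UM TT fm co La b 1 0 0 h ω P).card * ind (2 ≤ (UM TT fm co La b 1 0 0 h ω P).card) +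
      ind (2 ≤ (UM TT fm co La b 1 0 0 ρ ω P).card ∨ NZW TT fm co La b h ρ Γ κ ω P) := by
  classical
  set rk := rkW (Tn c) fm co b (L c) (iL c) (iF c) (κ c) ω with hrk
  set UH := UM TT fm co La b 1 0 0 h ω P with hUH
  set bad := 2 ≤ (UM TT fm co La b 1 0 0 ρ ω P).card ∨ NZW TT fm co La b h ρ Γ κ ω P with hbad
  have hCC : C ⊆ CMW W TT (Tn c) fm co Wl La b o (L c) (iL c) (iF c) (κ c) ω := by
    rw [hCdef]; exact sdiff_subset
  have hCI : ∀ k ∈ C, k ∈ TT.image (cls TT fm co La b ω) := fun k hk =>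
    JM_img (CMW_sub (hCC hk))
  have hN := hC.cnn c hcΓ
  have hCc := hC.cnr c hcΓ
  have hNs : Uc (tops rk C) P ⊆ UH := by
    intro n hn
    obtain ⟨h1, h2⟩ := mem_Uc.1 hn
    have h3 := (mem_tops.1 h1).1
    refine mem_UM.2 ⟨hCI n h3, h2, ?_⟩
    rw [hCdef] at h1
    exact hN.mac_top le_rfl hM hCc hc (hc' c hcΓ) hω hS h1
  have key : ∀ n ∈ Uc (tops rk C) P,
      ((Uc (tops rk (C.erase n)) P).card : ℝ) ≤ ((UH.card : ℝ) - 1) + ind bad := by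
    intro n hn
    have hnU := hNs hn
    have hpos : 1 ≤ UH.card := card_pos.2 ⟨n, hnU⟩
    by_cases hall : ∀ m ∈ Uc (tops rk (C.erase n)) P, m ∈ UH
    · have h1 : Uc (tops rk (C.erase n)) P ⊆ UH.erase n := by
        intro m hm
        refine mem_erase.2 ⟨?_, hall m hm⟩
        exact (mem_erase.1 (mem_tops.1 (mem_Uc.1 hm).1).1).1
      have h2 := card_le_card h1
      rw [card_erase_of_mem hnU] at h2
      have h3 : ((Uc (tops rk (C.erase n)) P).card : ℝ) ≤ ((UH.card - 1 : ℕ) : ℝ) := by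
        exact_mod_cast h2
      rw [Nat.cast_sub hpos] at h3
      have := ind_nonneg bad
      push_cast at h3
      linarith
    · push Not at hall
      obtain ⟨m, hm, hmU⟩ := hall
      obtain ⟨hm1, hm2⟩ := mem_Uc.1 hm
      have hm3 := (mem_erase.1 (mem_tops.1 hm1).1)
      have hnm : ∀ e ∈ m, ¬ Mac fm co La b 1 0 0 h ω e := by
        intro e he hmac
        exact hmU (mem_UM.2 ⟨hCI m hm3.2, hm2, e, he, hmac⟩)
      have hone : Uc (tops rk (C.erase n)) P ⊆ {m} := by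
        intro m' hm'
        rw [mem_singleton]
        have h4 := (mem_Uc.1 hm').1
        have h5 := (mem_erase.1 (mem_tops.1 h4).1)
        have h6 : rk m = rk m' := le_antisymm ((mem_tops.1 h4).2 m (mem_erase.2 hm3))
          ((mem_tops.1 hm1).2 m' (mem_erase.2 h5))
        exact hN.rk_unique hCc (hCC hm3.2) (hCC h5.2) h6 hnm
      have hb : bad := by
        rw [hCdef] at hm1
        rcases hN.near_second hρ hM hCc hc (hc' c hcΓ) hω hSρ hm1 with h7 | ⟨e', he', h8⟩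
        · left
          have g1 : m ∈ UM TT fm co La b 1 0 0 ρ ω P :=
            mem_UM.2 ⟨hCI m hm3.2, hm2, h7⟩
          have g2 : n ∈ UM TT fm co La b 1 0 0 ρ ω P := UM_mono hρ hnU
          have g3 : ({n, m} : Finset (Finset (ℤ × ℤ))) ⊆ UM TT fm co La b 1 0 0 ρ ω P := by
            intro k hk
            rw [mem_insert, mem_singleton] at hk
            rcases hk with rfl | rfl
            · exact g2
            · exact g1
          have g4 := card_le_card g3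
          rwa [card_pair (Ne.symm hm3.1)] at g4
        · right
          exact ⟨c, hcΓ, n, hnU, e', he', h8⟩
      have h8 := card_le_card hone
      rw [card_singleton] at h8
      have h9 : ((Uc (tops rk (C.erase n)) P).card : ℝ) ≤ 1 := by exact_mod_cast h8
      have h10 : (1 : ℝ) ≤ UH.card := by exact_mod_cast hpos
      rw [ind_true hb]
      linarith
  have hc0 := ind_nonneg bad
  have hcN : ((Uc (tops rk C) P).card : ℝ) ≤ UH.card := by exact_mod_cast card_le_card hNs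
  by_cases hem : Uc (tops rk C) P = ∅
  · rw [hem, sum_empty]
    have : (0 : ℝ) ≤ 3 ^ UH.card * ind (2 ≤ UH.card) := mul_nonneg (by positivity) (ind_nonneg _)
    linarith
  obtain ⟨n0, hn0⟩ := nonempty_iff_ne_empty.2 hem
  have hpos : 1 ≤ UH.card := card_pos.2 ⟨n0, hNs hn0⟩
  have hposR : (1 : ℝ) ≤ UH.card := by exact_mod_cast hpos
  refine (sum_le_sum key).trans ?_
  rw [sum_const, nsmul_eq_mul]
  have h1 : ((Uc (tops rk C) P).card : ℝ) * ((UH.card : ℝ) - 1 + ind bad) ≤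
      UH.card * ((UH.card : ℝ) - 1 + ind bad) :=
    mul_le_mul_of_nonneg_right hcN (by linarith)
  refine h1.trans ?_
  have hind1 : ind bad ≤ 1 := ind_le_one _
  by_cases h2 : 2 ≤ UH.card
  · rw [ind_true h2, mul_one]
    have h3 := three_pow UH.card
    nlinarith
  · have h3 : UH.card = 1 := by omega
    rw [ind_false h2, mul_zero, h3]
    push_cast
    linarith

/-- **The error for one configuration.** -/
theorem err_UM (hρ : ρ ≤ h) (hM : Multi X W Bb B TT fm co Wl La b o)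
    (hC : CrW W Bb B TT fm co Wl La b o h Γ Tn Λ L iL iF κ Um Vm D)
    (hc : ∀ c ∈ Cs, FarM X TT fm co Wl La b o c)
    (hc' : ∀ g ∈ Γ, ∀ c ∈ Cs, FarM X TT fm co Wl (Λ g) b o c) (hω : ω ⊆ B)
    (hS : ∀ c ∈ Γ, (κ c).Sur h (L c) ω) (hSρ : ∀ c ∈ Γ, (κ c).Sur ρ (L c) ω)
    {q : ℤ × ℤ → ℝ} (hq : Pb q)
    (hw : ∀ e ∈ TT, ‖s e‖ ≤ 1 - q e) (hM0 : 0 ≤ M) (hK : 1 ≤ K) :
    ErW X Cs a W Bb B TT fm co Wl La b o Γ Tn L iL iF κ s M K ω ≤
      Ex q TT (fun P => ((1 + 2 * 3 ^ Γ.card * Γ.card) * K ^ Γ.card) * M *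
          (3 ^ (UM TT fm co La b 1 0 0 h ω P).card *
          ind (2 ≤ (UM TT fm co La b 1 0 0 h ω P).card)) +
        (2 * 3 ^ Γ.card * Γ.card * K ^ Γ.card) * M *
          ind (2 ≤ (UM TT fm co La b 1 0 0 ρ ω P).card ∨ NZW TT fm co La b h ρ Γ κ ω P)) := by
  classical
  set J := JM W TT fm co Wl La b o ω \ IM X Cs a W Bb B TT fm co Wl La b o ω with hJ
  set C := CC X Cs a W Bb B TT fm co Wl La b o Tn L iL iF κ ω with hCdef
  set rk := fun c => rkW (Tn c) fm co b (L c) (iL c) (iF c) (κ c) ω with hrk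
  have hCJ : ∀ c ∈ Γ, C c ⊆ J := fun c _ => sdiff_subset_sdiff CMW_sub (Subset.refl _)
  have hJi : J ⊆ TT.image (cls TT fm co La b ω) := fun k hk => JM_img (mem_sdiff.1 hk).1
  have hJT : ∀ k ∈ J, k ⊆ TT := by
    intro k hk
    obtain ⟨e, -, rfl⟩ := mem_image.1 (hJi hk)
    exact cls_sub
  have hJn : ∀ k ∈ J, k.Nonempty := by
    intro k hk
    obtain ⟨e, he, rfl⟩ := mem_image.1 (hJi hk)
    exact ⟨e, self_cls he⟩
  have h1 := chErrS_le (q := q) (T := TT) (J := J) (Γ := Γ) (C := C)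
    (φ := fun k => ∏ e ∈ k, s e) (rk := rk)
    (M := M) (K := K) hq hM0 hK hCJ hJT (img_disj.subset (coe_subset.2 hJi)) (by
      intro k hk
      rw [norm_prod]
      exact prod_le_prod (fun _ _ => norm_nonneg _) fun e he => hw e (hJT k hk he))
  refine h1.trans (Ex_mono hq fun P _ => ?_)
  set UH : ℝ := 3 ^ (UM TT fm co La b 1 0 0 h ω P).card *
    ind (2 ≤ (UM TT fm co La b 1 0 0 h ω P).card) with hUH
  set IB : ℝ := ind (2 ≤ (UM TT fm co La b 1 0 0 ρ ω P).card ∨ NZW TT fm co La b h ρ Γ κ ω P)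
    with hIB
  have h2 : ∑ c ∈ Γ, ∑ n ∈ Uc (tops (rk c) (C c)) P,
      ((Uc (tops (rk c) ((C c).erase n)) P).card : ℝ) ≤ Γ.card * (UH + IB) := by
    refine (sum_le_sum fun c hcΓ => hC.pairs_le (P := P) (C := C c) (a := a) (Cs := Cs) hρ hM hc hc'
      hω hcΓ (hS c hcΓ) (hSρ c hcΓ) rfl).trans ?_
    rw [sum_const, nsmul_eq_mul]
  have h3 : Uc ((J \ Γ.biUnion C) ∪ Γ.biUnion fun c => tops (rk c) (C c)) P ⊆
      UM TT fm co La b 1 0 0 h ω P := by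
    intro k hk
    obtain ⟨g1, g2⟩ := mem_Uc.1 hk
    rcases mem_union.1 g1 with g | g
    · obtain ⟨g3, g4⟩ := mem_sdiff.1 g
      obtain ⟨e, he⟩ := hJn k g3
      refine mem_UM.2 ⟨hJi g3, g2, e, he, hC.mac_sdiff hM hω (mem_sdiff.1 g3).1 ?_ he⟩
      intro c hcΓ g5
      exact g4 (mem_biUnion.2 ⟨c, hcΓ, mem_sdiff.2 ⟨g5, (mem_sdiff.1 g3).2⟩⟩)
    · obtain ⟨c, hcΓ, g3⟩ := mem_biUnion.1 g
      refine mem_UM.2 ⟨hJi (hCJ c hcΓ (mem_tops.1 g3).1), g2, ?_⟩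
      exact (hC.cnn c hcΓ).mac_top le_rfl hM (hC.cnr c hcΓ) hc (hc' c hcΓ) hω (hS c hcΓ) g3
  have h4 : (3 : ℝ) ^ (Uc ((J \ Γ.biUnion C) ∪ Γ.biUnion fun c => tops (rk c) (C c)) P).card *
      ind (2 ≤ (Uc ((J \ Γ.biUnion C) ∪ Γ.biUnion fun c => tops (rk c) (C c)) P).card) ≤ UH := by
    have g1 := card_le_card h3
    exact mul_le_mul (pow_le_pow_right₀ (by norm_num) g1) (ind_mono fun g2 => g2.trans g1)
      (ind_nonneg _) (by positivity)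
  have hKM : 0 ≤ K ^ Γ.card * M := mul_nonneg (by positivity) hM0
  have h5 := mul_le_mul_of_nonneg_left h4 hKM
  have h6 := mul_le_mul_of_nonneg_left h2
    (mul_nonneg (by positivity : (0 : ℝ) ≤ 2 * 3 ^ Γ.card) hKM)
  refine (add_le_add h5 h6).trans (le_of_eq ?_)
  ring

/-- **The error of the first order expansion**, mean value: `σ` bounds the norms of the weights. -/
theorem err_mean (hρ : ρ ≤ h) (hM : Multi X W Bb B TT fm co Wl La b o)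
    (hC : CrW W Bb B TT fm co Wl La b o h Γ Tn Λ L iL iF κ Um Vm D)
    (hc : ∀ c ∈ Cs, FarM X TT fm co Wl La b o c)
    (hc' : ∀ g ∈ Γ, ∀ c ∈ Cs, FarM X TT fm co Wl (Λ g) b o c)
    (hS : ∀ c ∈ Γ, ∀ ρ ≤ h, ∀ ω, (κ c).Sur ρ (L c) ω) {σ : ℝ} (hσ0 : 0 ≤ σ)
    (hσ1 : σ ≤ 1) (hw : ∀ e ∈ TT, ‖s e‖ ≤ σ) (hM0 : 0 ≤ M) (hK : 1 ≤ K) :
    Ex hf B (ErW X Cs a W Bb B TT fm co Wl La b o Γ Tn L iL iF κ s M K) ≤
      ((1 + 2 * 3 ^ Γ.card * Γ.card) * K ^ Γ.card) * M * Ex (qE TT σ) (B ∪ TT) (fun Ω =>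
        3 ^ (UM TT fm co La b 1 0 0 h (Ω ∩ B) (Ω ∩ TT)).card *
          ind (2 ≤ (UM TT fm co La b 1 0 0 h (Ω ∩ B) (Ω ∩ TT)).card)) +
      (2 * 3 ^ Γ.card * Γ.card * K ^ Γ.card) * M * PrP (qE TT σ) (B ∪ TT) (fun Ω =>
        2 ≤ (UM TT fm co La b 1 0 0 ρ (Ω ∩ B) (Ω ∩ TT)).card ∨
          NZW TT fm co La b h ρ Γ κ (Ω ∩ B) (Ω ∩ TT)) := by
  have hd : Disjoint B TT := hM.bT.mono_left hM.bB
  have hq : Pb (fun _ : ℤ × ℤ => 1 - σ) := Pb.const (by linarith) (by linarith)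
  refine (Ex_mono (fun _ => by norm_num : Pb hf) fun ω hω => hC.err_UM hρ hM hc hc' hω
    (fun c hcΓ => hS c hcΓ h le_rfl ω) (fun c hcΓ => hS c hcΓ ρ hρ ω) hq
    (fun e he => by rw [sub_sub_cancel]; exact hw e he) hM0 hK).trans (le_of_eq ?_)
  unfold PrP
  rw [← Ex_smul, ← Ex_smul, ← Ex_add, ← Ex_qE hd]

/-- **A class with an influence is macroscopic.** -/
theorem DM_mac (hM : Multi X W Bb B TT fm co Wl La b o)
    (hC : CrW W Bb B TT fm co Wl La b o h Γ Tn Λ L iL iF κ Um Vm D)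
    (hc : ∀ c ∈ Cs, FarM X TT fm co Wl La b o c)
    (hc' : ∀ g ∈ Γ, ∀ c ∈ Cs, FarM X TT fm co Wl (Λ g) b o c)
    (hS : ∀ c ∈ Γ, (κ c).Sur h (L c) ω) (hω : ω ⊆ B) (heT : e ∈ TT)
    (hne : DM X Cs a Bb B TT fm co La b e ω ≠ 0) :
    ∃ e' ∈ cls TT fm co La b ω e, Mac fm co La b 1 0 0 h ω e' := by
  classical
  have hnf : ¬ fre W TT fm co Wl La b o ω e := fun hf => hne (hM.DM_free hc hω heT hf)
  have hJ : cls TT fm co La b ω e ∈ JM W TT fm co Wl La b o ω :=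
    mem_image_of_mem _ (mem_filter.2 ⟨heT, hnf⟩)
  have hz : ∀ h1 : VM X Cs a Bb B TT fm co ω (unc TT fm co La b ω
      (insert (cls TT fm co La b ω e) ∅)) = VM X Cs a Bb B TT fm co ω (unc TT fm co La b ω ∅),
      False := by
    intro h1
    apply hne
    unfold DM
    have e1 : (insert (cls TT fm co La b ω e) ∅ : Finset (Finset (ℤ × ℤ))) =
      {cls TT fm co La b ω e} := rfl
    rw [e1, unc_single, unc_empty] at h1
    rw [h1, sub_self]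
  have hI : cls TT fm co La b ω e ∉ IM X Cs a W Bb B TT fm co Wl La b o ω := fun h1 =>
    hz ((mem_Ir.1 h1).2 ∅ (empty_subset _) (notMem_empty _))
  by_cases hk : ∃ c ∈ Γ, cls TT fm co La b ω e ∈
      CMW W TT (Tn c) fm co Wl La b o (L c) (iL c) (iF c) (κ c) ω
  · obtain ⟨c, hcΓ, hk⟩ := hk
    refine (hC.cnn c hcΓ).mac_top le_rfl hM (hC.cnr c hcΓ) hc (hc' c hcΓ) hω (hS c hcΓ) (a := a)
      (mem_tops.2 ⟨mem_sdiff.2 ⟨hk, hI⟩, fun j hj => ?_⟩)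
    by_contra hlt
    push Not at hlt
    have hj1 := (mem_sdiff.1 hj).1
    refine hz ((hC.cnr c hcΓ).sh (A := ∅) hM (hc' c hcΓ) hω hk hj1 (notMem_empty _) ?_ hlt.le)
    intro h1
    rw [h1] at hlt
    exact lt_irrefl _ hlt
  · push Not at hk
    exact ⟨e, self_cls heT, hC.mac_sdiff hM hω hJ hk (self_cls heT)⟩

end CrW

end Pool.Agent.H40.Sp
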