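import Mathlib
import Pool.Agent.H13.Sp.XB
import Pool.Agent.H54.R45.CnrA
import Pool.Agent.H40.Sp.Chart

set_option autoImplicit false
open Finset

/-! # The marked corners of a coarse window

`tX v g i` : column (row) of the tile with the offset `i` from the grid line `g`, `v = true` : in the positive
direction. `pX v g i` : grid line with the offset `i`. `chQ v1 v2 w gx gy` : chart of the corner `(gx, gy)`,
the window is in the direction `v1` (horizontally) and `v2` (vertically); `w = true` : `U` is the horizontal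
coordinate. `cS`, `iS` : colour and arc of the side of the cell row `Y` (`sd = true` : left; the bottom for
`Y < 0`, the top for `H ≤ Y`). `GmC` : the marked corners `(sd, Y)` : the colours of the rows `Y - 1` and `Y`
differ. -/

namespace Pool.Agent.H40.Sp

open Pool.Agent.H75.Perc Pool.Agent.H75.TwoArm Pool.Agent.Q1 Pool.Agent.H33.Q1
open Pool.Agent.H69.Q1
open Pool.Agent.H46.Sp Pool.Agent.H46.Sp.Win
open Pool.Agent.H74.Win Pool.Agent.H42.Sp Pool.Agent.H13.Sp
open Pool.Agent.H13.R45 (ev gp ev_true ev_false Tg)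
open Pool.Agent.H74.R45 (exists_lt)
open Pool.Agent.H54.R45 (nd_gp node_exists el_adj adj_unit)
open Pool.Agent.H39.Q1 (nd el cU cV cx cy VN av nd_el TF mem_TF)

/-- the tile with the offset `i` -/
def tX (v : Bool) (g i : ℤ) : ℤ := if v = true then g + i else g - 1 - i

/-- the grid line with the offset `i` -/
def pX (v : Bool) (g i : ℤ) : ℤ := if v = true then g + i else g - i

/-- offset of a tile -/
def oT (v : Bool) (g x : ℤ) : ℤ := if v = true then x - g else g - 1 - x

/-- offset of a grid line -/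
def oP (v : Bool) (g x : ℤ) : ℤ := if v = true then x - g else g - x

variable {v v1 v2 w : Bool} {g i j x y gx gy : ℤ} {c : Bool}

@[simp] lemma oT_tX : oT v g (tX v g i) = i := by unfold oT tX; split_ifs <;> ring
@[simp] lemma tX_oT : tX v g (oT v g x) = x := by unfold oT tX; split_ifs <;> ring
@[simp] lemma oP_pX : oP v g (pX v g i) = i := by unfold oP pX; split_ifs <;> ring
@[simp] lemma pX_oP : pX v g (oP v g x) = x := by unfold oP pX; split_ifs <;> ring

/-- the chart of a corner -/
def chQ (v1 v2 w : Bool) (gx gy : ℤ) : Cht where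
  s := v1 != v2
  r := if v1 = true then !w else w
  ε := if v1 = true then 1 else -1
  x0 := if v1 = v2 then gx - gy else gx + gy
  y0 := if v1 = v2 then gx + gy else gx - gy
  hε := by split_ifs <;> simp

/-- the chart on the doubled grid -/
lemma chQ_UV (z : ℤ × ℤ) : (chQ v1 v2 w gx gy).U z =
      (if w = true then (if v1 = true then z.1 + z.2 - 2 * gx else 2 * gx - z.1 - z.2)
        else (if v2 = true then z.2 - z.1 - 2 * gy else 2 * gy - z.2 + z.1)) ∧
    (chQ v1 v2 w gx gy).V z =
      (if w = true then (if v2 = true then z.2 - z.1 - 2 * gy else 2 * gy - z.2 + z.1)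
        else (if v1 = true then z.1 + z.2 - 2 * gx else 2 * gx - z.1 - z.2)) := by
  unfold Cht.U Cht.V chQ cU' cV' cU cV cx cy
  cases v1 <;> cases v2 <;> cases w <;> simp [sw] <;> constructor <;> ring

/-- the chart on tiles -/
lemma chQ_lt : (chQ v1 v2 w gx gy).U (lt (x, y)) =
      (if w = true then 2 * oT v1 gx x + 1 else 2 * oT v2 gy y + 1) ∧
    (chQ v1 v2 w gx gy).V (lt (x, y)) =
      (if w = true then 2 * oT v2 gy y + 1 else 2 * oT v1 gx x + 1) := by
  obtain ⟨h1, h2⟩ := chQ_UV (v1 := v1) (v2 := v2) (w := w) (gx := gx) (gy := gy) (lt (x, y))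
  rw [h1, h2]
  unfold lt oT
  cases v1 <;> cases v2 <;> cases w <;> simp <;> constructor <;> ring

/-- the chart on nodes -/
lemma chQ_gp {q : ℤ × ℤ} (hq : ev q = c) : (chQ v1 v2 w gx gy).U (nd c (gp q)) =
      (if w = true then 2 * oP v1 gx q.1 else 2 * oP v2 gy q.2) ∧
    (chQ v1 v2 w gx gy).V (nd c (gp q)) =
      (if w = true then 2 * oP v2 gy q.2 else 2 * oP v1 gx q.1) := by
  obtain ⟨h1, h2⟩ := chQ_UV (v1 := v1) (v2 := v2) (w := w) (gx := gx) (gy := gy) (nd c (gp q))
  rw [h1, h2, nd_gp hq]
  unfold oP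
  cases v1 <;> cases v2 <;> cases w <;> simp <;> constructor <;> ring

/-! ### The marked corners of a coarse window -/

section Defs

variable (D : Win) (p : Bool) (s0 n H : ℤ) (A B : ℤ → ℤ)

/-- colour of the side of the cell row `Y` (the bottom below, the top above) -/
def cS (sd : Bool) (Y : ℤ) : Bool :=
  if Y < 0 then D.cb else if H ≤ Y then D.ct
  else if sd = true then D.cl (n * Y + n / 2) else D.cr (n * Y + n / 2)

/-- position of the middle of the side of the cell row `Y` -/
def qS (sd : Bool) (Y : ℤ) : ℤ :=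
  if Y < 0 then 0 else if H ≤ Y then D.h + 2
  else if sd = true then 2 * D.h + 2 - (n * Y + n / 2) else n * Y + n / 2 + 2

/-- arc of the side of the cell row `Y` -/
def iS (sd : Bool) (Y : ℤ) : ℤ := rep D s0 (qS D n H sd Y)

/-- end of the cell row `Y` -/
def eS (sd : Bool) (Y : ℤ) : ℤ := if sd = true then A Y else B Y

/-- the horizontal wall at the height `Y` is a floor -/
def flS (c : Bool × ℤ) : Bool :=
  decide (c.2 = 0 ∨ (c.2 < H ∧ (if c.1 = true then A c.2 < A (c.2 - 1) else B (c.2 - 1) < B c.2)))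

/-- the row of cells of the vertical wall at the corner -/
def yV (c : Bool × ℤ) : ℤ := if flS H A B c = true then c.2 else c.2 - 1

/-- the row of cells on the other side of the corner -/
def yH (c : Bool × ℤ) : ℤ := if flS H A B c = true then c.2 - 1 else c.2

/-- horizontal coordinate of the corner -/
def gxS (c : Bool × ℤ) : ℤ := n * eS A B c.1 (yV H A B c)

/-- vertical coordinate of the corner in the world `p` -/
def gyS (c : Bool × ℤ) : ℤ := n * c.2 - sh p

/-- arc of the vertical wall at the corner -/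
def iVs (c : Bool × ℤ) : ℤ := iS D s0 n H c.1 (yV H A B c)

/-- arc of the horizontal wall at the corner -/
def iHs (c : Bool × ℤ) : ℤ := iS D s0 n H c.1 (yH H A B c)

/-- the corner point has the colour of the vertical wall -/
def wS (c : Bool × ℤ) : Bool := ev (gxS n H A B c, gyS p n c) == cS D n H c.1 (yV H A B c)

/-- the chart of the corner -/
def kS (c : Bool × ℤ) : Cht :=
  chQ c.1 (flS H A B c) (wS D p n H A B c) (gxS n H A B c) (gyS p n c)

/-- the arc with the colour of the corner point -/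
def iLs (c : Bool × ℤ) : ℤ :=
  if wS D p n H A B c = true then iVs D s0 n H A B c else iHs D s0 n H A B c

/-- the other arc -/
def iFs (c : Bool × ℤ) : ℤ :=
  if wS D p n H A B c = true then iHs D s0 n H A B c else iVs D s0 n H A B c

/-- **The marked corners.** -/
noncomputable def GmC : Finset (Bool × ℤ) :=
  ((univ : Finset Bool) ×ˢ Icc 0 H).filter fun c => cS D n H c.1 (c.2 - 1) ≠ cS D n H c.1 c.2

/-- the point `g` is on the horizontal wall of a marked corner at distance less than `h` of the corner and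
`i` is the arc of the vertical wall, or vice versa -/
def NrM (h i : ℤ) (g : ℤ × ℤ) : Prop :=
  ∃ c ∈ GmC D n H,
    (i = iVs D s0 n H A B c ∧ g.2 = gyS p n c ∧
      0 ≤ oP c.1 (gxS n H A B c) g.1 ∧ oP c.1 (gxS n H A B c) g.1 < h) ∨
    (i = iHs D s0 n H A B c ∧ g.1 = gxS n H A B c ∧
      0 ≤ oP (flS H A B c) (gyS p n c) g.2 ∧ oP (flS H A B c) (gyS p n c) g.2 < h)

/-- **The exits of the layers of the environment `XA`, in tiles.** -/
def ExA (O : OutB D) (S : Finset (ℤ × ℤ)) (L h : ℤ) : Prop :=
  ∀ (i : ℤ) (g : ℤ × ℤ) (X Y : ℤ), ev g = colp D i → OnT g X Y →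
    ((∃ u v k, TieP D p k (colp D i) u v ∧ fmA D p s0 (lt (u, v)) = i ∧ bt k (colp D i) (u, v) = g) ∨
      ∃ u v, OnT g u v ∧ lt (u, v) ∈ LaA D p s0 h i) →
    av (EN D p) (WA O p S) (TA D p) (fmA D p s0) (colp D) (WlA D p s0 L S) i (lt (X, Y)) →
    (∀ u v, OnT g u v → lt (u, v) ∉ WlA D p s0 L S i) →
    lt (X, Y) ∈ LaA D p s0 h i ∨
    (∀ u v k, TieP D p k (colp D i) u v → fmA D p s0 (lt (u, v)) = i →
      h ≤ 2 * |g.1 - (bt k (colp D i) (u, v)).1| ∨ h ≤ 2 * |g.2 - (bt k (colp D i) (u, v)).2|) ∨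
    NrM D p s0 n H A B h i g

/-- the frozen tiles which are coloured in their natural colours in the natural environments (`X_0` for
`p = false`, `X_h` for `p = true`): the walls without line -/
def NatPl (x y : ℤ) : Prop :=
  if p = true then
    (y < -1 ∨ x + 2 ≤ D.m y ∨ D.M y + 1 ≤ x ∨ (x < D.m y ∧ y + 1 < D.yP) ∨ (D.M y ≤ x ∧ y + 1 < D.yQ))
  else (D.h ≤ y ∨ x + 2 ≤ D.m y ∨ D.M y + 1 ≤ x ∨ (x < D.m y ∧ D.yP ≤ y) ∨ (D.M y ≤ x ∧ D.yQ ≤ y))

/-- the frozen tiles of the walls without line have their natural colours -/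
def NatS (S : Finset (ℤ × ℤ)) : Prop :=
  ∀ x y, FRt D p x y → NatPl D p x y → (lt (x, y) ∈ S ↔ natc D p x y = true)

end Defs

end Pool.Agent.H40.Sp
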