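import Mathlib
import Pool.Agent.H40.Sp.AvX

set_option autoImplicit false
open Finset

/-! # The environment `XA` near a marked corner

`Zn` : geometry of `P^p` and of the arcs near a marked corner: the window is the quadrant `i, j ≥ 0` for
offsets up to `N`, the ring tiles are layer tiles, the walls belong to the arcs `iL` (`U = 0`, the colour of
the corner point) and `iF`. `Zn.tieq` : the ties near the corner. `Zn.caL`, `Zn.caF` : the tie points.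
`Zn.fz10`, `Zn.fz11` : the two frozen tiles. -/

namespace Pool.Agent.H40.Sp

open Pool.Agent.H75.Perc Pool.Agent.H75.TwoArm Pool.Agent.Q1 Pool.Agent.H33.Q1
open Pool.Agent.H69.Q1
open Pool.Agent.H46.Sp Pool.Agent.H46.Sp.Win
open Pool.Agent.H74.Win Pool.Agent.H42.Sp Pool.Agent.H13.Sp
open Pool.Agent.H13.R45 (ev gp ev_true ev_false Tg)
open Pool.Agent.H74.R45 (exists_lt)
open Pool.Agent.H54.R45 (nd_gp node_exists el_adj adj_unit)
open Pool.Agent.H39.Q1 (nd el cU cV cx cy VN av nd_el TF mem_TF)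

/-- a tie point in terms of the tiles around it -/
lemma CA_iff' {D : Win} {p : Bool} {s : Sd} {g : ℤ × ℤ} : CA D p (s, g) ↔
    (∀ u v, OnT g u v → OnT (g.1 + (dr s).1, g.2 + (dr s).2) u v → LyA D p s u v) ∧
      ∀ u v, OnT g u v → ((g.1 + g.2) % 2 = 1 ↔ natc D p u v = true) := by
  obtain ⟨x, y⟩ := g
  have hcol : Col4 D p x y ↔ ∀ u v, OnT (x, y) u v → ((x + y) % 2 = 1 ↔ natc D p u v = true) := by
    constructor
    · rintro ⟨h1, h2, h3, h4⟩ u v hg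
      unfold OnT at hg
      simp only at hg
      have hu : u = x ∨ u = x - 1 := by omega
      have hv : v = y ∨ v = y - 1 := by omega
      rcases hu with rfl | rfl <;> rcases hv with rfl | rfl <;> assumption
    · intro h
      refine ⟨h x y ?_, h (x - 1) y ?_, h x (y - 1) ?_, h (x - 1) (y - 1) ?_⟩ <;>
        (unfold OnT; simp only; omega)
  have key : ∀ a b c d : ℤ, (∀ u v, OnT (x, y) u v → OnT (x + (dr s).1, y + (dr s).2) u v →
      (u = a ∧ v = b) ∨ (u = c ∧ v = d)) → OnT (x, y) a b → OnT (x + (dr s).1, y + (dr s).2) a b →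
      OnT (x, y) c d → OnT (x + (dr s).1, y + (dr s).2) c d →
      ((∀ u v, OnT (x, y) u v → OnT (x + (dr s).1, y + (dr s).2) u v → LyA D p s u v) ↔
        (LyA D p s a b ∧ LyA D p s c d)) := by
    intro a b c d h h1 h2 h3 h4
    constructor
    · intro h'; exact ⟨h' _ _ h1 h2, h' _ _ h3 h4⟩
    · rintro ⟨k1, k2⟩ u v g1 g2
      rcases h u v g1 g2 with ⟨rfl, rfl⟩ | ⟨rfl, rfl⟩ <;> assumption
  rw [← hcol]
  cases s
  · rw [key x (y - 1) x y ?_ ?_ ?_ ?_ ?_]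
    · simp only [CA]; tauto
    · intro u v; unfold OnT dr; simp only; omega
    all_goals (unfold OnT; first | (simp only; omega) | (unfold dr; simp only; omega))
  · rw [key (x - 1) (y - 1) (x - 1) y ?_ ?_ ?_ ?_ ?_]
    · simp only [CA]; tauto
    · intro u v; unfold OnT dr; simp only; omega
    all_goals (unfold OnT; first | (simp only; omega) | (unfold dr; simp only; omega))
  · rw [key (x - 1) y x y ?_ ?_ ?_ ?_ ?_]
    · simp only [CA]; tauto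
    · intro u v; unfold OnT dr; simp only; omega
    all_goals (unfold OnT; first | (simp only; omega) | (unfold dr; simp only; omega))
  · rw [key (x - 1) (y - 1) x (y - 1) ?_ ?_ ?_ ?_ ?_]
    · simp only [CA]; tauto
    · intro u v; unfold OnT dr; simp only; omega
    all_goals (unfold OnT; first | (simp only; omega) | (unfold dr; simp only; omega))

section pure

variable {v1 v2 w : Bool} {gx gy i j a b : ℤ}

lemma drG1 : ((gq v1 v2 w gx gy a b).1 + (dr (sq1 v1 v2 w)).1,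
    (gq v1 v2 w gx gy a b).2 + (dr (sq1 v1 v2 w)).2) = gq v1 v2 w gx gy (a + 1) b := by
  unfold gq pX sq1 dr
  cases v1 <;> cases v2 <;> cases w <;> simp <;> ring

lemma drG2 : ((gq v1 v2 w gx gy a b).1 + (dr (sq2 v1 v2 w)).1,
    (gq v1 v2 w gx gy a b).2 + (dr (sq2 v1 v2 w)).2) = gq v1 v2 w gx gy a (b + 1) := by
  unfold gq pX sq2 dr
  cases v1 <;> cases v2 <;> cases w <;> simp <;> ring

lemma sq_ne : sq1 v1 v2 w ≠ sq2 v1 v2 w := by
  unfold sq1 sq2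
  cases v1 <;> cases v2 <;> cases w <;> simp

end pure

/-- **Geometry near a marked corner.** -/
structure Zn (D : Win) (p : Bool) (s0 : ℤ) (v1 v2 w : Bool) (gx gy iL iF N : ℤ) : Prop where
  evL : ev (gx, gy) = colp D iL
  colF : colp D iF = !colp D iL
  inP : ∀ i j, -N ≤ i → i ≤ N → -N ≤ j → j ≤ N →
    (InP D p (tq v1 v2 w gx gy i j).1 (tq v1 v2 w gx gy i j).2 ↔ 0 ≤ i ∧ 0 ≤ j)
  lyL : ∀ j, 0 ≤ j → j < N →
    LyA D p (sq1 v1 v2 w) (tq v1 v2 w gx gy (-1) j).1 (tq v1 v2 w gx gy (-1) j).2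
  lyF : ∀ i, 0 ≤ i → i < N →
    LyA D p (sq2 v1 v2 w) (tq v1 v2 w gx gy i (-1)).1 (tq v1 v2 w gx gy i (-1)).2
  aL1 : ∀ j, 0 ≤ j → j < N →
    arc D p s0 (tq v1 v2 w gx gy (-1) j).1 (tq v1 v2 w gx gy (-1) j).2 = iL
  aL2 : ∀ j, 0 ≤ j → j < N →
    arc D p s0 (tq v1 v2 w gx gy (-2) j).1 (tq v1 v2 w gx gy (-2) j).2 = iL
  aF1 : ∀ i, 0 ≤ i → i < N →
    arc D p s0 (tq v1 v2 w gx gy i (-1)).1 (tq v1 v2 w gx gy i (-1)).2 = iF
  aF2 : ∀ i, 0 ≤ i → i < N →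
    arc D p s0 (tq v1 v2 w gx gy i (-2)).1 (tq v1 v2 w gx gy i (-2)).2 = iF
  aD : arc D p s0 (tq v1 v2 w gx gy (-2) (-1)).1 (tq v1 v2 w gx gy (-2) (-1)).2 = iL ∨
    arc D p s0 (tq v1 v2 w gx gy (-2) (-1)).1 (tq v1 v2 w gx gy (-2) (-1)).2 = iF

namespace Zn

variable {D : Win} {p : Bool} {s0 : ℤ} {v1 v2 w : Bool} {gx gy iL iF N i j a b : ℤ} {s : Sd} {c : Bool}


variable (Z : Zn D p s0 v1 v2 w gx gy iL iF N)
include Z

lemma nc1 (h0 : 0 ≤ j) (h1 : j < N) : natc D p ((tq v1 v2 w gx gy) (-1) j).1 ((tq v1 v2 w gx gy) (-1) j).2 = colp D iL := by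
  rw [← colp_arc (s0 := s0), Z.aL1 j h0 h1]

lemma nc2 (h0 : 0 ≤ j) (h1 : j < N) : natc D p ((tq v1 v2 w gx gy) (-2) j).1 ((tq v1 v2 w gx gy) (-2) j).2 = colp D iL := by
  rw [← colp_arc (s0 := s0), Z.aL2 j h0 h1]

lemma nf1 (h0 : 0 ≤ i) (h1 : i < N) : natc D p ((tq v1 v2 w gx gy) i (-1)).1 ((tq v1 v2 w gx gy) i (-1)).2 = colp D iF := by
  rw [← colp_arc (s0 := s0), Z.aF1 i h0 h1]

lemma nf2 (h0 : 0 ≤ i) (h1 : i < N) : natc D p ((tq v1 v2 w gx gy) i (-2)).1 ((tq v1 v2 w gx gy) i (-2)).2 = colp D iF := by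
  rw [← colp_arc (s0 := s0), Z.aF2 i h0 h1]

lemma evF : ev (gx, gy) = !colp D iF := by rw [Z.evL, Z.colF, Bool.not_not]

lemma ne : iL ≠ iF := by
  intro h
  have := Z.colF
  rw [h] at this
  revert this
  cases colp D iF <;> simp

/-- nodes of the colour of `iL` -/
lemma evGL : ev ((gq v1 v2 w gx gy) a b) = colp D iL ↔ (a + b) % 2 = 0 := ev_gq_eq Z.evL

/-- nodes of the colour of `iF` -/
lemma evGF : ev ((gq v1 v2 w gx gy) a b) = colp D iF ↔ (a + b) % 2 = 1 := ev_gq_ne Z.evF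

/-- layer tiles near the corner -/
lemma ly_q (h1 : -N < i) (h2 : i < N) (h3 : -N < j) (h4 : j < N)
    (h : LyA D p s ((tq v1 v2 w gx gy) i j).1 ((tq v1 v2 w gx gy) i j).2) :
    (s = sq1 v1 v2 w ∧ i = -1 ∧ 0 ≤ j) ∨ (s = sq2 v1 v2 w ∧ j = -1 ∧ 0 ≤ i) := by
  obtain ⟨α, β, hab, hd⟩ := dr_q (v1 := v1) (v2 := v2) (w := w) (gx := gx) (gy := gy) s
  have hin := h.inn
  rw [(hd i j).1, (hd i j).2] at hin
  have hout := h.out
  rw [Z.inP i j (by omega) (by omega) (by omega) (by omega)] at hout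
  have hb : -N ≤ i + α ∧ i + α ≤ N ∧ -N ≤ j + β ∧ j + β ≤ N := by omega
  rw [Z.inP _ _ hb.1 hb.2.1 hb.2.2.1 hb.2.2.2] at hin
  rcases hab with ⟨e1, e2, e3⟩ | ⟨e1, e2, e3⟩ | ⟨e1, e2⟩ | ⟨e1, e2⟩
  · left; refine ⟨e3, ?_, ?_⟩ <;> omega
  · right; refine ⟨e3, ?_, ?_⟩ <;> omega
  · exfalso; omega
  · exfalso; omega

/-- fill tiles near the corner -/
lemma fill (h1 : -N < i) (h2 : i < N) (h3 : -N < j) (h4 : j < N) (h : i ≤ -2 ∨ j ≤ -2) :
    Fill D p ((tq v1 v2 w gx gy) i j).1 ((tq v1 v2 w gx gy) i j).2 := by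
  refine fill_of fun x' y' k1 k2 k3 k4 hp => ?_
  obtain ⟨i', j', he⟩ := tq_surj (v1 := v1) (v2 := v2) (w := w) (gx := gx) (gy := gy) (x', y')
  have hd := (dist_q (v1 := v1) (v2 := v2) (w := w) (gx := gx) (gy := gy) (i := i) (j := j) (i' := i')
    (j' := j') (m := 1)).1 (by rw [he]; exact ⟨by omega, by omega, by omega, by omega⟩)
  have := (Z.inP i' j' (by omega) (by omega) (by omega) (by omega)).1 (by rw [he]; exact hp)
  omega

/-- ring tiles near the corner -/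
lemma near (h1 : -N < i) (h2 : i < N) (h3 : -N < j) (h4 : j < N) (hi : -1 ≤ i) (hj : -1 ≤ j) :
    NearP D ((tq v1 v2 w gx gy) i j).1 (((tq v1 v2 w gx gy) i j).2 + sh p) := by
  set i' := max i 0 with hi'
  set j' := max j 0 with hj'
  have hp := (Z.inP i' j' (by omega) (by omega) (by omega) (by omega)).2 (by omega)
  have hd := (dist_q (v1 := v1) (v2 := v2) (w := w) (gx := gx) (gy := gy) (i := i) (j := j) (i' := i')
    (j' := j') (m := 1)).2 (by omega)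
  exact near_of hp (by omega) (by omega) (by omega) (by omega)

/-- near tiles are in the box -/
lemma inB (hN : 4 ≤ N) (hi : -2 ≤ i) (hi' : i < N) (hj : -2 ≤ j) (hj' : j < N) :
    InB D ((tq v1 v2 w gx gy) i j).1 ((tq v1 v2 w gx gy) i j).2 := by
  set i' := max i 0 with hi'
  set j' := max j 0 with hj'
  have hp := ((Z.inP i' j' (by omega) (by omega) (by omega) (by omega)).2 (by omega)).box
  have hd := (dist_q (v1 := v1) (v2 := v2) (w := w) (gx := gx) (gy := gy) (i := i) (j := j) (i' := i')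
    (j' := j') (m := 2)).2 (by omega)
  unfold InB
  omega

/-- tie points of the wall `U = 0` -/
lemma caL (h1 : 1 ≤ b) (h2 : b < N) (he : b % 2 = 0) : CA D p (sq1 v1 v2 w, (gq v1 v2 w gx gy) (-1) b) := by
  rw [CA_iff']
  constructor
  · intro u v h3 h4
    rw [drG1] at h4
    obtain ⟨i, j, e⟩ := tq_surj (v1 := v1) (v2 := v2) (w := w) (gx := gx) (gy := gy) (u, v)
    have h3' : OnT ((gq v1 v2 w gx gy) (-1) b) ((tq v1 v2 w gx gy) i j).1 ((tq v1 v2 w gx gy) i j).2 := by rw [e]; exact h3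
    have h4' : OnT ((gq v1 v2 w gx gy) (-1 + 1) b) ((tq v1 v2 w gx gy) i j).1 ((tq v1 v2 w gx gy) i j).2 := by rw [e]; exact h4
    rw [onT_q] at h3' h4'
    have e1 : i = -1 := by omega
    subst e1
    have := Z.lyL j (by omega) (by omega)
    rwa [e] at this
  · intro u v h3
    obtain ⟨i, j, e⟩ := tq_surj (v1 := v1) (v2 := v2) (w := w) (gx := gx) (gy := gy) (u, v)
    have h3' : OnT ((gq v1 v2 w gx gy) (-1) b) ((tq v1 v2 w gx gy) i j).1 ((tq v1 v2 w gx gy) i j).2 := by rw [e]; exact h3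
    rw [onT_q] at h3'
    have hn : natc D p ((tq v1 v2 w gx gy) i j).1 ((tq v1 v2 w gx gy) i j).2 = colp D iL := by
      have e1 : i = -1 ∨ i = -2 := by omega
      rcases e1 with rfl | rfl
      · exact Z.nc1 (by omega) (by omega)
      · exact Z.nc2 (by omega) (by omega)
    rw [e] at hn
    simp only at hn
    rw [hn]
    have := (tie_par (k := (sq1 v1 v2 w, (gq v1 v2 w gx gy) (-1) b)) (c := colp D iL)).2 (by
      show ev ((gq v1 v2 w gx gy) (-1) b) = _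
      have h5 := (Z.evGF (a := -1) (b := b)).2 (by omega)
      rw [h5, Z.colF])
    exact this

/-- tie points of the wall `V = 0` -/
lemma caF (h1 : 1 ≤ a) (h2 : a < N) (he : a % 2 = 1) : CA D p (sq2 v1 v2 w, (gq v1 v2 w gx gy) a (-1)) := by
  rw [CA_iff']
  constructor
  · intro u v h3 h4
    rw [drG2] at h4
    obtain ⟨i, j, e⟩ := tq_surj (v1 := v1) (v2 := v2) (w := w) (gx := gx) (gy := gy) (u, v)
    have h3' : OnT ((gq v1 v2 w gx gy) a (-1)) ((tq v1 v2 w gx gy) i j).1 ((tq v1 v2 w gx gy) i j).2 := by rw [e]; exact h3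
    have h4' : OnT ((gq v1 v2 w gx gy) a (-1 + 1)) ((tq v1 v2 w gx gy) i j).1 ((tq v1 v2 w gx gy) i j).2 := by rw [e]; exact h4
    rw [onT_q] at h3' h4'
    have e1 : j = -1 := by omega
    subst e1
    have := Z.lyF i (by omega) (by omega)
    rwa [e] at this
  · intro u v h3
    obtain ⟨i, j, e⟩ := tq_surj (v1 := v1) (v2 := v2) (w := w) (gx := gx) (gy := gy) (u, v)
    have h3' : OnT ((gq v1 v2 w gx gy) a (-1)) ((tq v1 v2 w gx gy) i j).1 ((tq v1 v2 w gx gy) i j).2 := by rw [e]; exact h3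
    rw [onT_q] at h3'
    have hn : natc D p ((tq v1 v2 w gx gy) i j).1 ((tq v1 v2 w gx gy) i j).2 = colp D iF := by
      have e1 : j = -1 ∨ j = -2 := by omega
      rcases e1 with rfl | rfl
      · exact Z.nf1 (by omega) (by omega)
      · exact Z.nf2 (by omega) (by omega)
    rw [e] at hn
    simp only at hn
    rw [hn]
    have := (tie_par (k := (sq2 v1 v2 w, (gq v1 v2 w gx gy) a (-1))) (c := colp D iF)).2 (by
      show ev ((gq v1 v2 w gx gy) a (-1)) = _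
      have h5 := (Z.evGL (a := a) (b := -1)).2 (by omega)
      rw [h5, Z.colF, Bool.not_not])
    exact this

/-- tie points of the wall `U = 0`, converse -/
lemma caL' (h1 : -N < b - 1) (h2 : b < N) (h : CA D p (sq1 v1 v2 w, (gq v1 v2 w gx gy) (-1) b)) : 1 ≤ b ∧ b % 2 = 0 := by
  rw [CA_iff'] at h
  have k1 := h.1 ((tq v1 v2 w gx gy) (-1) (b - 1)).1 ((tq v1 v2 w gx gy) (-1) (b - 1)).2 (onT_q.2 (by omega)) (by
    rw [drG1]; exact onT_q.2 (by omega))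
  have hb : 1 ≤ b := by
    rcases Z.ly_q (by omega) (by omega) (by omega) (by omega) k1 with ⟨-, -, h3⟩ | ⟨-, -, h3⟩
    · omega
    · omega
  refine ⟨hb, ?_⟩
  have k2 := h.2 ((tq v1 v2 w gx gy) (-1) (b - 1)).1 ((tq v1 v2 w gx gy) (-1) (b - 1)).2 (onT_q.2 (by omega))
  rw [Z.nc1 (by omega) (by omega)] at k2
  have k3 := (tie_par (k := (sq1 v1 v2 w, (gq v1 v2 w gx gy) (-1) b)) (c := colp D iL)).1 k2
  have k4 : ev ((gq v1 v2 w gx gy) (-1) b) = colp D iF := by rw [Z.colF]; exact k3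
  rw [Z.evGF] at k4
  omega

/-- tie points of the wall `V = 0`, converse -/
lemma caF' (h1 : -N < a - 1) (h2 : a < N) (h : CA D p (sq2 v1 v2 w, (gq v1 v2 w gx gy) a (-1))) : 1 ≤ a ∧ a % 2 = 1 := by
  rw [CA_iff'] at h
  have k1 := h.1 ((tq v1 v2 w gx gy) (a - 1) (-1)).1 ((tq v1 v2 w gx gy) (a - 1) (-1)).2 (onT_q.2 (by omega)) (by
    rw [drG2]; exact onT_q.2 (by omega))
  have hb : 1 ≤ a := by
    rcases Z.ly_q (by omega) (by omega) (by omega) (by omega) k1 with ⟨-, -, h3⟩ | ⟨-, -, h3⟩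
    · omega
    · omega
  refine ⟨hb, ?_⟩
  have k2 := h.2 ((tq v1 v2 w gx gy) (a - 1) (-1)).1 ((tq v1 v2 w gx gy) (a - 1) (-1)).2 (onT_q.2 (by omega))
  rw [Z.nf1 (by omega) (by omega)] at k2
  have k3 := (tie_par (k := (sq2 v1 v2 w, (gq v1 v2 w gx gy) a (-1))) (c := colp D iF)).1 k2
  have k4 : ev ((gq v1 v2 w gx gy) a (-1)) = colp D iL := by rw [k3, Z.colF, Bool.not_not]
  rw [Z.evGL] at k4
  omega

/-- the tie point of a tile near the corner -/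
lemma ca_q {k : Ix} (h1 : -N + 1 < i) (h2 : i + 1 < N) (h3 : -N + 1 < j) (h4 : j + 1 < N)
    (h : CA D p k) (ht : (tq v1 v2 w gx gy) i j = kt k ∨ (tq v1 v2 w gx gy) i j = rt k) :
    (k.1 = sq1 v1 v2 w ∧ i = -1 ∧ ∃ b, (b = j ∨ b = j + 1) ∧ k.2 = (gq v1 v2 w gx gy) (-1) b ∧ 1 ≤ b ∧ b % 2 = 0) ∨
    (k.1 = sq2 v1 v2 w ∧ j = -1 ∧ ∃ a, (a = i ∨ a = i + 1) ∧ k.2 = (gq v1 v2 w gx gy) a (-1) ∧ 1 ≤ a ∧ a % 2 = 1) := by
  have hly := CA_ly h ht
  obtain ⟨s, q⟩ := k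
  obtain ⟨a, b, e⟩ := gq_surj (v1 := v1) (v2 := v2) (w := w) (gx := gx) (gy := gy) q
  subst e
  simp only at hly
  rcases Z.ly_q (by omega) (by omega) (by omega) (by omega) hly with ⟨rfl, h5, h6⟩ | ⟨rfl, h5, h6⟩
  · left
    refine ⟨rfl, h5, ?_⟩
    have hab : i = a ∧ (b = j ∨ b = j + 1) := by
      rcases pair1 (v1 := v1) (v2 := v2) (w := w) (gx := gx) (gy := gy) (a := a) (b := b) with
        ⟨g1, g2⟩ | ⟨g1, g2⟩ <;> rw [g1, g2, tq_inj, tq_inj] at ht <;> omega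
    obtain ⟨e1, e2⟩ := hab
    rw [← e1, h5] at h
    have := Z.caL' (by omega) (by omega) h
    exact ⟨b, e2, by rw [← e1, h5], this⟩
  · right
    refine ⟨rfl, h5, ?_⟩
    have hab : j = b ∧ (a = i ∨ a = i + 1) := by
      rcases pair2 (v1 := v1) (v2 := v2) (w := w) (gx := gx) (gy := gy) (a := a) (b := b) with
        ⟨g1, g2⟩ | ⟨g1, g2⟩ <;> rw [g1, g2, tq_inj, tq_inj] at ht <;> omega
    obtain ⟨e1, e2⟩ := hab
    rw [← e1, h5] at h
    have := Z.caF' (by omega) (by omega) h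
    exact ⟨a, e2, by rw [← e1, h5], this⟩

/-- **The ties near the corner.** -/
theorem tieq (h1 : -N + 1 < i) (h2 : i + 1 < N) (h3 : -N + 1 < j) (h4 : j + 1 < N)
    (h : TieP D p s c ((tq v1 v2 w gx gy) i j).1 ((tq v1 v2 w gx gy) i j).2) :
    (s = sq1 v1 v2 w ∧ i = -1 ∧ c = colp D iL ∧ fmA D p s0 (lt ((tq v1 v2 w gx gy) i j)) = iL ∧
      ∃ b, (b = j ∨ b = j + 1) ∧ 1 ≤ b ∧ b % 2 = 0 ∧ bt s c ((tq v1 v2 w gx gy) i j) = (gq v1 v2 w gx gy) 0 b ∧
        ot s c ((tq v1 v2 w gx gy) i j) = (gq v1 v2 w gx gy) (-1) (2 * j + 1 - b)) ∨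
    (s = sq2 v1 v2 w ∧ j = -1 ∧ c = colp D iF ∧ fmA D p s0 (lt ((tq v1 v2 w gx gy) i j)) = iF ∧
      ∃ a, (a = i ∨ a = i + 1) ∧ 1 ≤ a ∧ a % 2 = 1 ∧ bt s c ((tq v1 v2 w gx gy) i j) = (gq v1 v2 w gx gy) a 0 ∧
        ot s c ((tq v1 v2 w gx gy) i j) = (gq v1 v2 w gx gy) (2 * i + 1 - a) (-1)) := by
  obtain ⟨q, hq, hk, hc⟩ := CA_of_tie h
  rcases Z.ca_q h1 h2 h3 h4 hq (Or.inl hk.symm) with ⟨e1, e2, b, e3, e4, e5, e6⟩ |
    ⟨e1, e2, a, e3, e4, e5, e6⟩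
  · left
    simp only at e1 e4
    subst e1 e4 e2
    have hf : fmA D p s0 (lt ((tq v1 v2 w gx gy) (-1) j)) = iL := by
      rw [show lt ((tq v1 v2 w gx gy) (-1) j) = lt (((tq v1 v2 w gx gy) (-1) j).1, ((tq v1 v2 w gx gy) (-1) j).2) from rfl, h.fm, dr1'.1, dr1'.2]
      exact Z.aL2 j (by omega) (by omega)
    have hco := h.co (s0 := s0)
    rw [show lt (((tq v1 v2 w gx gy) (-1) j).1, ((tq v1 v2 w gx gy) (-1) j).2) = lt ((tq v1 v2 w gx gy) (-1) j) from rfl, hf] at hco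
    have hbt := bt1 (v1 := v1) (v2 := v2) (w := w) (gx := gx) (gy := gy) (a := -1) (b := b) (c := c) hc
    rw [hk] at hbt
    refine ⟨rfl, rfl, hco.symm, hf, b, e3, e5, e6, hbt, ?_⟩
    rw [ot_q hbt]
    congr 1
  · right
    simp only at e1 e4
    subst e1 e4 e2
    have hf : fmA D p s0 (lt ((tq v1 v2 w gx gy) i (-1))) = iF := by
      rw [show lt ((tq v1 v2 w gx gy) i (-1)) = lt (((tq v1 v2 w gx gy) i (-1)).1, ((tq v1 v2 w gx gy) i (-1)).2) from rfl, h.fm, dr2'.1, dr2'.2]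
      exact Z.aF2 i (by omega) (by omega)
    have hco := h.co (s0 := s0)
    rw [show lt (((tq v1 v2 w gx gy) i (-1)).1, ((tq v1 v2 w gx gy) i (-1)).2) = lt ((tq v1 v2 w gx gy) i (-1)) from rfl, hf] at hco
    have hbt := bt2 (v1 := v1) (v2 := v2) (w := w) (gx := gx) (gy := gy) (a := a) (b := -1) (c := c) hc
    rw [hk] at hbt
    refine ⟨rfl, rfl, hco.symm, hf, a, e3, e5, e6, hbt, ?_⟩
    rw [ot_q hbt]
    congr 1

/-- **The points of the wall `U = 0` are tied.** -/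
theorem exTL (h1 : 1 ≤ b) (h2 : b + 1 < N) (he : b % 2 = 0) :
    ∃ j, (b = j ∨ b = j + 1) ∧ lt ((tq v1 v2 w gx gy) (-1) j) ∈ TA D p ∧ fmA D p s0 (lt ((tq v1 v2 w gx gy) (-1) j)) = iL ∧
      bA D p (lt ((tq v1 v2 w gx gy) (-1) j)) = gp ((gq v1 v2 w gx gy) 0 b) ∧
      ∀ j', (b = j' ∨ b = j' + 1) → (tq v1 v2 w gx gy) (-1) j' = kt (sq1 v1 v2 w, (gq v1 v2 w gx gy) (-1) b) ∨
        (tq v1 v2 w gx gy) (-1) j' = rt (sq1 v1 v2 w, (gq v1 v2 w gx gy) (-1) b) := by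
  have hCA := Z.caL h1 (by omega) he
  have hj : ∃ j, (b = j ∨ b = j + 1) ∧ kt (sq1 v1 v2 w, (gq v1 v2 w gx gy) (-1) b) = (tq v1 v2 w gx gy) (-1) j := by
    rcases pair1 (v1 := v1) (v2 := v2) (w := w) (gx := gx) (gy := gy) (a := -1) (b := b) with
      ⟨g1, g2⟩ | ⟨g1, g2⟩
    · exact ⟨b, Or.inl rfl, g1⟩
    · exact ⟨b - 1, Or.inr (by ring), g1⟩
  obtain ⟨j, hj1, hj2⟩ := hj
  have hT := tie_of_CA hCA (CA_natc hCA (Or.inl rfl))
  simp only [hj2] at hT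
  have hq := Z.tieq (by omega) (by omega) (by omega) (by omega) hT
  refine ⟨j, hj1, mem_TA.2 ⟨_, _, hT⟩, ?_, ?_, ?_⟩
  · rcases hq with ⟨-, -, -, h5, -⟩ | ⟨h5, -⟩
    · exact h5
    · exact absurd h5 sq_ne
  · rw [show lt ((tq v1 v2 w gx gy) (-1) j) = lt (((tq v1 v2 w gx gy) (-1) j).1, ((tq v1 v2 w gx gy) (-1) j).2) from rfl, hT.b]
    congr 1
    rcases hq with ⟨-, -, -, -, b', h6, h7, h8, h9, -⟩ | ⟨h5, -⟩
    · rw [h9]
      have e : b' = b := by omega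
      rw [e]
    · exact absurd h5 sq_ne
  · intro j' hj'
    rcases pair1 (v1 := v1) (v2 := v2) (w := w) (gx := gx) (gy := gy) (a := -1) (b := b) with
      ⟨g1, g2⟩ | ⟨g1, g2⟩ <;> rcases hj' with hj' | hj'
    · left; rw [g1, hj']
    · right; rw [g2, hj']; congr 1; ring
    · right; rw [g2, hj']
    · left; rw [g1, hj']; congr 1; ring

/-- **The points of the wall `V = 0` are tied.** -/
theorem exTF (h1 : 1 ≤ a) (h2 : a + 1 < N) (he : a % 2 = 1) :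
    ∃ i, (a = i ∨ a = i + 1) ∧ lt ((tq v1 v2 w gx gy) i (-1)) ∈ TA D p ∧ fmA D p s0 (lt ((tq v1 v2 w gx gy) i (-1))) = iF ∧
      bA D p (lt ((tq v1 v2 w gx gy) i (-1))) = gp ((gq v1 v2 w gx gy) a 0) ∧
      ∀ i', (a = i' ∨ a = i' + 1) → (tq v1 v2 w gx gy) i' (-1) = kt (sq2 v1 v2 w, (gq v1 v2 w gx gy) a (-1)) ∨
        (tq v1 v2 w gx gy) i' (-1) = rt (sq2 v1 v2 w, (gq v1 v2 w gx gy) a (-1)) := by
  have hCA := Z.caF h1 (by omega) he
  have hj : ∃ i, (a = i ∨ a = i + 1) ∧ kt (sq2 v1 v2 w, (gq v1 v2 w gx gy) a (-1)) = (tq v1 v2 w gx gy) i (-1) := by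
    rcases pair2 (v1 := v1) (v2 := v2) (w := w) (gx := gx) (gy := gy) (a := a) (b := -1) with
      ⟨g1, g2⟩ | ⟨g1, g2⟩
    · exact ⟨a, Or.inl rfl, g1⟩
    · exact ⟨a - 1, Or.inr (by ring), g1⟩
  obtain ⟨i, hj1, hj2⟩ := hj
  have hT := tie_of_CA hCA (CA_natc hCA (Or.inl rfl))
  simp only [hj2] at hT
  have hq := Z.tieq (by omega) (by omega) (by omega) (by omega) hT
  refine ⟨i, hj1, mem_TA.2 ⟨_, _, hT⟩, ?_, ?_, ?_⟩
  · rcases hq with ⟨h5, -⟩ | ⟨-, -, -, h5, -⟩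
    · exact absurd h5.symm sq_ne
    · exact h5
  · rw [show lt ((tq v1 v2 w gx gy) i (-1)) = lt (((tq v1 v2 w gx gy) i (-1)).1, ((tq v1 v2 w gx gy) i (-1)).2) from rfl, hT.b]
    congr 1
    rcases hq with ⟨h5, -⟩ | ⟨-, -, -, -, b', h6, h7, h8, h9, -⟩
    · exact absurd h5.symm sq_ne
    · rw [h9]
      have e : b' = a := by omega
      rw [e]
  · intro j' hj'
    rcases pair2 (v1 := v1) (v2 := v2) (w := w) (gx := gx) (gy := gy) (a := a) (b := -1) with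
      ⟨g1, g2⟩ | ⟨g1, g2⟩ <;> rcases hj' with hj' | hj'
    · left; rw [g1, hj']
    · right; rw [g2, hj']; congr 1; ring
    · right; rw [g2, hj']
    · left; rw [g1, hj']; congr 1; ring

/-- the first tile of the wall `U = 0` is frozen -/
theorem fz10 (hN : 4 ≤ N) : FRt D p ((tq v1 v2 w gx gy) (-1) 0).1 ((tq v1 v2 w gx gy) (-1) 0).2 := by
  refine ⟨⟨Z.near (by omega) (by omega) (by omega) (by omega) (by omega) (by omega), ?_⟩, ?_, ?_⟩
  · rw [Z.inP _ _ (by omega) (by omega) (by omega) (by omega)]; omega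
  · rintro ⟨k, h1, h2⟩
    rcases Z.ca_q (by omega) (by omega) (by omega) (by omega) h1 (Or.inl h2.symm) with
      ⟨-, -, b, h3, -, h4, h5⟩ | ⟨-, h3, -⟩
    · omega
    · omega
  · rintro ⟨k, h1, h2⟩
    rcases Z.ca_q (by omega) (by omega) (by omega) (by omega) h1 (Or.inr h2.symm) with
      ⟨-, -, b, h3, -, h4, h5⟩ | ⟨-, h3, -⟩
    · omega
    · omega

/-- the diagonal tile is frozen -/
theorem fz11 (hN : 4 ≤ N) : FRt D p ((tq v1 v2 w gx gy) (-1) (-1)).1 ((tq v1 v2 w gx gy) (-1) (-1)).2 := by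
  refine ⟨⟨Z.near (by omega) (by omega) (by omega) (by omega) (by omega) (by omega), ?_⟩, ?_, ?_⟩
  · rw [Z.inP _ _ (by omega) (by omega) (by omega) (by omega)]; omega
  · rintro ⟨k, h1, h2⟩
    rcases Z.ca_q (by omega) (by omega) (by omega) (by omega) h1 (Or.inl h2.symm) with
      ⟨-, -, b, h3, -, h4, h5⟩ | ⟨-, -, b, h3, -, h4, h5⟩
    · omega
    · omega
  · rintro ⟨k, h1, h2⟩
    rcases Z.ca_q (by omega) (by omega) (by omega) (by omega) h1 (Or.inr h2.symm) with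
      ⟨-, -, b, h3, -, h4, h5⟩ | ⟨-, -, b, h3, -, h4, h5⟩
    · omega
    · omega

end Zn

end Pool.Agent.H40.Sp
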