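import Mathlib
import Pool.Agent.H40.Sp.CnrX
import Pool.Agent.H13.Sp.ArcC

set_option autoImplicit false
open Finset

/-! # The corners of a coarse window

`Zc` : geometry of `P^p` near a convex corner, in horizontal and vertical offsets. `zc_LF`, `zc_LC`, `zc_RF`,
`zc_RC` : the four types of corners of a coarse window. -/

namespace Pool.Agent.H40.Sp

open Pool.Agent.H75.Perc Pool.Agent.H75.TwoArm Pool.Agent.Q1 Pool.Agent.H33.Q1
open Pool.Agent.H69.Q1
open Pool.Agent.H46.Sp Pool.Agent.H46.Sp.Win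
open Pool.Agent.H74.Win Pool.Agent.H42.Sp Pool.Agent.H13.Sp
open Pool.Agent.H13.R45 (ev gp ev_true ev_false Tg)
open Pool.Agent.H31.Sp (Coarse CoarseC CQ aL aR aB aT hA)
open Pool.Agent.H46.Sp.CG (dv dv_eq ab_mid AB_n row_h)

/-- **Geometry near a convex corner.** -/
structure Zc (D : Win) (p : Bool) (s0 : ℤ) (v1 v2 : Bool) (gx gy iV iH N : ℤ) : Prop where
  inP : ∀ i j, -N ≤ i → i ≤ N → -N ≤ j → j ≤ N →
    (InP D p (tX v1 gx i) (tX v2 gy j) ↔ 0 ≤ i ∧ 0 ≤ j)
  lyV : ∀ j, 0 ≤ j → j < N → LyA D p (if v1 = true then .L else .R) (tX v1 gx (-1)) (tX v2 gy j)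
  lyH : ∀ i, 0 ≤ i → i < N → LyA D p (if v2 = true then .F else .C) (tX v1 gx i) (tX v2 gy (-1))
  aV1 : ∀ j, 0 ≤ j → j < N → arc D p s0 (tX v1 gx (-1)) (tX v2 gy j) = iV
  aV2 : ∀ j, 0 ≤ j → j < N → arc D p s0 (tX v1 gx (-2)) (tX v2 gy j) = iV
  aH1 : ∀ i, 0 ≤ i → i < N → arc D p s0 (tX v1 gx i) (tX v2 gy (-1)) = iH
  aH2 : ∀ i, 0 ≤ i → i < N → arc D p s0 (tX v1 gx i) (tX v2 gy (-2)) = iH
  a12 : arc D p s0 (tX v1 gx (-1)) (tX v2 gy (-2)) = iH
  a21 : arc D p s0 (tX v1 gx (-2)) (tX v2 gy (-1)) = iV ∨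
    (arc D p s0 (tX v1 gx (-2)) (tX v2 gy (-1)) = iH ∧
      arc D p s0 (tX v1 gx (-1)) (tX v2 gy (-1)) = iH ∧
      NatPl D p (tX v1 gx (-1)) (tX v2 gy (-1)))

variable {D : Win} {n H : ℤ} {A B : ℤ → ℤ} {YP YQ : ℤ} {CL CR : ℤ → Bool} {p : Bool}
  {s0 x y Y i j : ℤ}

lemma tX_t {g : ℤ} : tX true g i = g + i := by unfold tX; rw [if_pos rfl]
lemma tX_f {g : ℤ} : tX false g i = g - 1 - i := by unfold tX; rw [if_neg Bool.false_ne_true]

/-! ### Rows -/

section rows

variable (C : Coarse D n H A B)
include C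

lemma row_div (h1 : n * Y ≤ y) (h2 : y < n * Y + n) : y / n = Y ∧ y % n = y - n * Y := by
  have hn := C.pos
  have e := dv_eq hn h1 h2
  have e2 := (dv hn y).2.2
  rw [e] at e2
  exact ⟨e, e2⟩

lemma ab_row (h0 : 0 ≤ Y) (h1 : Y < H) (k1 : n * Y ≤ y) (k2 : y < n * Y + n) :
    (n * A Y - 1 ≤ D.a y ∧ D.a y ≤ n * A Y) ∧ n * B Y ≤ D.b y ∧ D.b y ≤ n * B Y + 1 := by
  have hr := row_h C h0 h1
  have e := (row_div C k1 k2).1
  have h3 := C.a_le (y := y) (by omega) (by omega)
  have h4 := C.le_b (y := y) (by omega) (by omega)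
  rw [e] at h3 h4
  exact ⟨h3, h4⟩

lemma a_up0 (h0 : 0 ≤ Y) (h1 : Y < H) (hf : Y = 0 ∨ A Y < A (Y - 1)) (k1 : n * Y ≤ y)
    (k2 : y + 2 ≤ n * Y + n) : D.a y = n * A Y := by
  have hr := row_h C h0 h1
  obtain ⟨e1, e2⟩ := row_div C k1 (by omega)
  rcases C.a y (by omega) (by omega) with g | ⟨g, ⟨g1, g2, g3⟩ | ⟨g1, g2, g3⟩⟩
  · rw [g, e1]
  · omega
  · rw [e1] at g2 g3; omega

lemma a_dn0 (h0 : 0 ≤ Y) (h1 : Y < H) (hf : Y + 1 = H ∨ A Y < A (Y + 1)) (k1 : n * Y + 1 ≤ y)
    (k2 : y + 1 ≤ n * Y + n) : D.a y = n * A Y := by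
  have hr := row_h C h0 h1
  obtain ⟨e1, e2⟩ := row_div C (Y := Y) (y := y) (by omega) (by omega)
  rcases C.a y (by omega) (by omega) with g | ⟨g, ⟨g1, g2, g3⟩ | ⟨g1, g2, g3⟩⟩
  · rw [g, e1]
  · rw [e1] at g2 g3; omega
  · omega

lemma b_up0 (h0 : 0 ≤ Y) (h1 : Y < H) (hf : Y = 0 ∨ B (Y - 1) < B Y) (k1 : n * Y ≤ y)
    (k2 : y + 2 ≤ n * Y + n) : D.b y = n * B Y := by
  have hr := row_h C h0 h1
  obtain ⟨e1, e2⟩ := row_div C k1 (by omega)
  rcases C.b y (by omega) (by omega) with g | ⟨g, ⟨g1, g2, g3⟩ | ⟨g1, g2, g3⟩⟩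
  · rw [g, e1]
  · omega
  · rw [e1] at g2 g3; omega

lemma b_dn0 (h0 : 0 ≤ Y) (h1 : Y < H) (hf : Y + 1 = H ∨ B (Y + 1) < B Y) (k1 : n * Y + 1 ≤ y)
    (k2 : y + 1 ≤ n * Y + n) : D.b y = n * B Y := by
  have hr := row_h C h0 h1
  obtain ⟨e1, e2⟩ := row_div C (Y := Y) (y := y) (by omega) (by omega)
  rcases C.b y (by omega) (by omega) with g | ⟨g, ⟨g1, g2, g3⟩ | ⟨g1, g2, g3⟩⟩
  · rw [g, e1]
  · rw [e1] at g2 g3; omega
  · omega

end rows

lemma iS_neg (sd : Bool) (h : Y < 0) : iS D s0 n H sd Y = rep D s0 0 := by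
  unfold iS qS; rw [if_pos h]

lemma iS_top (sd : Bool) (h0 : ¬ Y < 0) (h : H ≤ Y) : iS D s0 n H sd Y = rep D s0 (D.h + 2) := by
  unfold iS qS; rw [if_neg h0, if_pos h]

section C

variable (hC : CoarseC D n H A B YP YQ CL CR) (hcut : colp D (s0 - 1) ≠ colp D s0)
include hC hcut

lemma iS_L (h0 : 0 ≤ Y) (h1 : Y < H) : iS D s0 n H true Y = arL D n s0 Y := by
  have hn := hC.hn
  have hr := row_h hC.toCoarse h0 h1
  unfold iS qS
  rw [if_neg (by omega), if_neg (by omega), if_pos rfl, posL hC hcut (by omega) (by omega)]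
  congr 1
  unfold rL
  split_ifs <;> exact dv_eq (by omega) (by omega) (by omega)

lemma iS_R (h0 : 0 ≤ Y) (h1 : Y < H) : iS D s0 n H false Y = arR D n s0 Y := by
  have hn := hC.hn
  have hr := row_h hC.toCoarse h0 h1
  unfold iS qS
  rw [if_neg (by omega), if_neg (by omega), if_neg Bool.false_ne_true, posR hC hcut (by omega)
    (by omega)]
  congr 1
  unfold rR
  split_ifs <;> exact dv_eq (by omega) (by omega) (by omega)

/-- arcs of the tiles at the left of the union -/
lemma arc_left (h0 : -1 ≤ y) (h1 : y < D.h) (h2 : x < D.m y) (h3 : rL D n y = Y) :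
    arc D p s0 x y = iS D s0 n H true Y := by
  obtain ⟨k1, k2⟩ := rL_rng hC h0 h1
  rw [iS_L hC hcut (by omega) (by omega)]
  unfold arc
  rw [ps_left h0 h1 h2, posL hC hcut h0 h1, h3]

lemma arc_right (h0 : -1 ≤ y) (h1 : y < D.h) (h2 : D.M y ≤ x) (h3 : rR D n y = Y) :
    arc D p s0 x y = iS D s0 n H false Y := by
  obtain ⟨k1, k2⟩ := rR_rng hC h0 h1
  rw [iS_R hC hcut (by omega) (by omega)]
  unfold arc
  rw [ps_right h0 h1 h2, posR hC hcut h0 h1, h3]

omit hC hcut in
lemma arc_bot (h : y < -1) : arc D p s0 x y = rep D s0 0 := by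
  unfold arc; rw [ps_bot h]

omit hC hcut in
lemma arc_top (h : D.h ≤ y) : arc D p s0 x y = rep D s0 (D.h + 2) := by
  unfold arc; rw [ps_top h]

/-- **The corner below the row `Y` of cells, left side.** -/
theorem zc_LF (h0 : 0 ≤ Y) (h1 : Y < H) (hf : Y = 0 ∨ A Y < A (Y - 1)) :
    Zc D p s0 true true (n * A Y) (n * Y - sh p) (iS D s0 n H true Y) (iS D s0 n H true (Y - 1))
      (n - 2) := by
  have C := hC.toCoarse
  have hn := C.pos
  have hn8 := C.hn
  have hr := row_h C h0 h1
  have hs0 := sh_nonneg p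
  have hs1 := sh_le p
  have ha : ∀ y, n * Y ≤ y → y + 2 ≤ n * Y + n → D.a y = n * A Y := fun y => a_up0 C h0 h1 hf
  have hAB := AB_n C h0 h1
  have hb : ∀ y, n * Y ≤ y → y < n * Y + n → n * A Y + n ≤ D.b y := fun y k1 k2 => by
    have := (ab_row C h0 h1 k1 k2).2; omega
  have e1 : n * (Y - 1) = n * Y - n := by ring
  have ha' : ∀ y, 0 < Y → n * Y - n ≤ y → y < n * Y → n * A Y + n - 1 ≤ D.a y := fun y k0 k1 k2 => by
    have h3 := (ab_row C (Y := Y - 1) (y := y) (by omega) (by omega) (by omega) (by omega)).1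
    have h4 := lt_mul (a := A Y) (b := A (Y - 1)) hn (by omega)
    omega
  have hY0 : 0 < Y → n ≤ n * Y := fun h => by
    have : n * 1 ≤ n * Y := mul_le_mul_of_nonneg_left (by omega) hn.le
    omega
  have hYz : Y = 0 → n * Y = 0 := fun h => by rw [h, mul_zero]
  have hyP : n * Y + n ≤ D.yP := by
    rw [hC.yP]
    apply lt_mul hn
    by_cases hY : 0 < Y
    · have h3 := floorL (D := D) (Y := n * Y - 1) (by have := hY0 hY; omega) (by omega) (by
        rw [sub_add_cancel, ha _ le_rfl (by omega)]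
        have := ha' (n * Y - 1) hY (by omega) (by omega)
        omega)
      rw [sub_add_cancel, hC.yP] at h3
      exact lt_of_mul hn h3
    · have h3 := D.P0
      rw [hC.yP] at h3
      have h4 : (0 : ℤ) < YP := by
        by_contra hc
        have : n * YP ≤ n * 0 := mul_le_mul_of_nonneg_left (by omega) hn.le
        omega
      omega
  have hm : ∀ y, -1 ≤ y → y + 1 < D.yP → D.m y = D.a (y + 1) := fun y _ k => by
    unfold m mm; rw [if_pos k]
  have hlyV : ∀ j, 0 ≤ j → j < n - 2 → LyA D p .L (n * A Y - 1) (n * Y - sh p + j) := by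
    intro j k1 k2
    have eY : n * Y - sh p + j + sh p = n * Y + j := by ring
    unfold LyA
    rw [eY]
    have g1 := ha (n * Y + j) (by omega) (by omega)
    have g2 := ha (n * Y + j + 1) (by omega) (by omega)
    refine ⟨by omega, by omega, by omega, ?_, by omega⟩
    intro k3
    by_cases k4 : 1 ≤ j
    · have := ha (n * Y + j - 1) (by omega) (by omega); omega
    · have k5 : 0 < Y := by
        by_contra hc
        have := hYz (by omega)
        omega
      have := ha' (n * Y + j - 1) k5 (by omega) (by omega)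
      omega
  have hlyH : ∀ i, 0 ≤ i → i < n - 2 → LyA D p .F (n * A Y + i) (n * Y - sh p - 1) := by
    intro i k1 k2
    have eY : n * Y - sh p - 1 + sh p = n * Y - 1 := by ring
    unfold LyA
    rw [eY]
    have g1 := ha (n * Y) le_rfl (by omega)
    have g2 := hb (n * Y) le_rfl (by omega)
    simp only [LyP, sub_add_cancel]
    refine ⟨by omega, by omega, by omega, by omega, ?_⟩
    intro k3
    left
    have k5 : 0 < Y := by
      by_contra hc
      have := hYz (by omega)
      omega
    have := ha' (n * Y - 1) k5 (by omega) (by omega)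
    omega
  have hQ : CQ H A B (A Y) Y := ⟨h0, h1, le_rfl, C.AB Y h0 h1⟩
  have hhA : hA D n H A B s0 (A Y) Y = iS D s0 n H true (Y - 1) := by
    unfold hA
    rw [if_pos hQ]
    by_cases hY : Y = 0
    · rw [if_pos hY, iS_neg _ (by omega)]; rfl
    · rw [if_neg hY, if_pos (by omega), iS_L hC hcut (by omega) (by omega)]; rfl
  have aFac : ∀ i, 0 ≤ i → i < n - 2 → arc D p s0 (n * A Y + i) (n * Y - sh p - 1) =
      iS D s0 n H true (Y - 1) ∧ arc D p s0 (n * A Y + i) (n * Y - sh p - 1 - 1) =
      iS D s0 n H true (Y - 1) := by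
    intro i k1 k2
    obtain ⟨-, -, -, g1, g2⟩ := lyF_arc hC hcut (hlyH i k1 k2)
    have e2 : n * Y - sh p - 1 + sh p + 1 = n * Y := by ring
    have e3 : (n * A Y + i) / n = A Y := dv_eq hn (by omega) (by omega)
    rw [e2, Int.mul_ediv_cancel_left _ hn.ne', e3, hhA] at g1 g2
    exact ⟨g1, g2⟩
  have aLac : ∀ j, 0 ≤ j → j < n - 2 → arc D p s0 (n * A Y - 1) (n * Y - sh p + j) =
      iS D s0 n H true Y ∧ arc D p s0 (n * A Y - 1 - 1) (n * Y - sh p + j) =
      iS D s0 n H true Y := by
    intro j k1 k2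
    obtain ⟨-, -, -, g1, g2⟩ := lyL_arc hC hcut (hlyV j k1 k2)
    have e2 : n * Y - sh p + j + sh p = n * Y + j := by ring
    have e3 : (n * Y + j) / n = Y := dv_eq hn (by omega) (by omega)
    rw [e2, e3] at g1 g2
    rw [iS_L hC hcut h0 h1]
    exact ⟨g1, g2⟩
  refine ⟨?_, ?_, ?_, ?_, ?_, ?_, ?_, ?_, ?_⟩
  · intro i j k1 k2 k3 k4
    rw [tX_t, tX_t, inP_iff]
    unfold PT
    rw [show n * Y - sh p + j + sh p = n * Y + j by ring]
    by_cases hj : 0 ≤ j
    · have g1 := ha (n * Y + j) (by omega) (by omega)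
      have g2 := hb (n * Y + j) (by omega) (by omega)
      omega
    · by_cases hY : 0 < Y
      · have := ha' (n * Y + j) hY (by omega) (by omega)
        omega
      · have := hYz (by omega)
        omega
  · intro j k1 k2
    rw [tX_t, tX_t, if_pos rfl]
    exact hlyV j k1 k2
  · intro i k1 k2
    rw [tX_t, tX_t, if_pos rfl]
    exact hlyH i k1 k2
  · intro j k1 k2
    rw [tX_t, tX_t]
    exact (aLac j k1 k2).1
  · intro j k1 k2
    rw [tX_t, tX_t]
    have := (aLac j k1 k2).2
    rwa [show n * A Y - 1 - 1 = n * A Y + -2 by ring] at this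
  · intro i k1 k2
    rw [tX_t, tX_t]
    exact (aFac i k1 k2).1
  · intro i k1 k2
    rw [tX_t, tX_t]
    have := (aFac i k1 k2).2
    rwa [show n * Y - sh p - 1 - 1 = n * Y - sh p + -2 by ring] at this
  · rw [tX_t, tX_t]
    by_cases hY : 0 < Y
    · have g := hY0 hY
      have hm1 := hm (n * Y - sh p + -2) (by omega) (by omega)
      have ha1 := ha' (n * Y - sh p + -2 + 1) hY (by omega) (by omega)
      refine arc_left hC hcut (by omega) (by omega) (by omega) ?_
      unfold rL
      rw [if_pos (by omega)]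
      exact dv_eq hn (by omega) (by omega)
    · rw [iS_neg _ (by omega)]
      have := hYz (by omega)
      exact arc_bot (by omega)
  · rw [tX_t, tX_t, tX_t]
    rcases sh_cases p with ⟨rfl, hp⟩ | ⟨rfl, hp⟩
    · left
      rw [hp]
      have hm1 := hm (n * Y - 0 + -1) (by omega) (by omega)
      have ha1 := ha (n * Y) le_rfl (by omega)
      rw [show n * Y - 0 + -1 + 1 = n * Y by ring, ha1] at hm1
      refine arc_left hC hcut (by omega) (by omega) (by omega) ?_
      unfold rL
      rw [if_pos (by omega)]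
      exact dv_eq hn (by omega) (by omega)
    · right
      rw [hp]
      by_cases hY : 0 < Y
      · have g := hY0 hY
        have hm1 := hm (n * Y - 1 + -1) (by omega) (by omega)
        have ha1 := ha' (n * Y - 1 + -1 + 1) hY (by omega) (by omega)
        have key : ∀ x, x < n * A Y → arc D true s0 x (n * Y - 1 + -1) = iS D s0 n H true (Y - 1) := by
          intro x hx
          refine arc_left hC hcut (by omega) (by omega) (by omega) ?_
          unfold rL
          rw [if_pos (by omega)]
          exact dv_eq hn (by omega) (by omega)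
        refine ⟨key _ (by omega), key _ (by omega), ?_⟩
        unfold NatPl
        rw [if_pos rfl]
        omega
      · rw [iS_neg _ (by omega)]
        have := hYz (by omega)
        refine ⟨arc_bot (by omega), arc_bot (by omega), ?_⟩
        unfold NatPl
        rw [if_pos rfl]
        omega

/-- **The corner above the row `Y` of cells, left side.** -/
theorem zc_LC (h0 : 0 ≤ Y) (h1 : Y < H) (hf : Y + 1 = H ∨ A Y < A (Y + 1)) :
    Zc D p s0 true false (n * A Y) (n * Y + n - sh p) (iS D s0 n H true Y)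
      (iS D s0 n H true (Y + 1)) (n - 2) := by
  have C := hC.toCoarse
  have hn := C.pos
  have hn8 := C.hn
  have hr := row_h C h0 h1
  have hs0 := sh_nonneg p
  have hs1 := sh_le p
  have ha : ∀ y, n * Y + 1 ≤ y → y + 1 ≤ n * Y + n → D.a y = n * A Y := fun y => a_dn0 C h0 h1 hf
  have hAB := AB_n C h0 h1
  have hb : ∀ y, n * Y ≤ y → y < n * Y + n → n * A Y + n ≤ D.b y := fun y k1 k2 => by
    have := (ab_row C h0 h1 k1 k2).2; omega
  have e1 : n * (Y + 1) = n * Y + n := by ring
  have ha' : ∀ y, Y + 1 < H → n * Y + n ≤ y → y < n * Y + n + n → n * A Y + n - 1 ≤ D.a y :=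
    fun y k0 k1 k2 => by
    have h3 := (ab_row C (Y := Y + 1) (y := y) (by omega) (by omega) (by omega) (by omega)).1
    have h4 := lt_mul (a := A Y) (b := A (Y + 1)) hn (by omega)
    omega
  have hY0 : Y + 1 < H → n * Y + n + n ≤ D.h := fun h => by
    have := row_h C (Y := Y + 1) (by omega) h
    omega
  have hYz : ¬ Y + 1 < H → n * Y + n = D.h := fun h => by
    rw [C.hh, show H = Y + 1 by omega, e1]
  have hyP : D.yP ≤ n * Y + n := by
    by_cases hY : Y + 1 < H
    · have := hY0 hY
      refine ceilL (D := D) (by omega) (by omega) ?_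
      rw [ha (n * Y + n - 1) (by omega) (by omega)]
      have := ha' (n * Y + n) hY (by omega) (by omega)
      omega
    · rw [hYz hY]; exact D.P1
  have hm : ∀ y, D.yP ≤ y + 1 → D.m y = D.a y := fun y k => by
    unfold m mm; rw [if_neg (by omega)]
  have hlyV : ∀ j, 0 ≤ j → j < n - 2 → LyA D p .L (n * A Y - 1) (n * Y + n - sh p - 1 - j) := by
    intro j k1 k2
    have eY : n * Y + n - sh p - 1 - j + sh p = n * Y + n - 1 - j := by ring
    unfold LyA
    rw [eY]
    have g1 := ha (n * Y + n - 1 - j) (by omega) (by omega)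
    have g2 := ha (n * Y + n - 1 - j - 1) (by omega) (by omega)
    refine ⟨by omega, by omega, by omega, by omega, ?_⟩
    intro k3
    by_cases k4 : 1 ≤ j
    · have := ha (n * Y + n - 1 - j + 1) (by omega) (by omega); omega
    · have k5 : Y + 1 < H := by
        by_contra hc
        have := hYz hc
        omega
      have := ha' (n * Y + n - 1 - j + 1) k5 (by omega) (by omega)
      omega
  have hlyH : ∀ i, 0 ≤ i → i < n - 2 → LyA D p .C (n * A Y + i) (n * Y + n - sh p) := by
    intro i k1 k2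
    have eY : n * Y + n - sh p + sh p = n * Y + n := by ring
    unfold LyA
    rw [eY]
    have g1 := ha (n * Y + n - 1) (by omega) (by omega)
    have g2 := hb (n * Y + n - 1) (by omega) (by omega)
    simp only [LyP]
    refine ⟨by omega, by omega, by omega, by omega, ?_⟩
    intro k3
    left
    have k5 : Y + 1 < H := by
      by_contra hc
      have := hYz hc
      omega
    have := ha' (n * Y + n) k5 (by omega) (by omega)
    omega
  have hQ : ¬ CQ H A B (A Y) (Y + 1) := by
    rintro ⟨g1, g2, g3, g4⟩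
    omega
  have hhA : hA D n H A B s0 (A Y) (Y + 1) = iS D s0 n H true (Y + 1) := by
    unfold hA
    rw [if_neg hQ]
    by_cases hY : Y + 1 = H
    · rw [if_pos hY, iS_top _ (by omega) (by omega)]; rfl
    · rw [if_neg hY, if_pos (by omega), iS_L hC hcut (by omega) (by omega)]; rfl
  have aFac : ∀ i, 0 ≤ i → i < n - 2 → arc D p s0 (n * A Y + i) (n * Y + n - sh p) =
      iS D s0 n H true (Y + 1) ∧ arc D p s0 (n * A Y + i) (n * Y + n - sh p + 1) =
      iS D s0 n H true (Y + 1) := by
    intro i k1 k2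
    obtain ⟨-, -, -, g1, g2⟩ := lyC_arc hC hcut (hlyH i k1 k2)
    have e2 : n * Y + n - sh p + sh p = n * (Y + 1) := by ring
    have e3 : (n * A Y + i) / n = A Y := dv_eq hn (by omega) (by omega)
    rw [e2, Int.mul_ediv_cancel_left _ hn.ne', e3, hhA] at g1 g2
    exact ⟨g1, g2⟩
  have aLac : ∀ j, 0 ≤ j → j < n - 2 → arc D p s0 (n * A Y - 1) (n * Y + n - sh p - 1 - j) =
      iS D s0 n H true Y ∧ arc D p s0 (n * A Y - 1 - 1) (n * Y + n - sh p - 1 - j) =
      iS D s0 n H true Y := by
    intro j k1 k2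
    obtain ⟨-, -, -, g1, g2⟩ := lyL_arc hC hcut (hlyV j k1 k2)
    have e2 : n * Y + n - sh p - 1 - j + sh p = n * Y + n - 1 - j := by ring
    have e3 : (n * Y + n - 1 - j) / n = Y := dv_eq hn (by omega) (by omega)
    rw [e2, e3] at g1 g2
    rw [iS_L hC hcut h0 h1]
    exact ⟨g1, g2⟩
  refine ⟨?_, ?_, ?_, ?_, ?_, ?_, ?_, ?_, ?_⟩
  · intro i j k1 k2 k3 k4
    rw [tX_t, tX_f, inP_iff]
    unfold PT
    rw [show n * Y + n - sh p - 1 - j + sh p = n * Y + n - 1 - j by ring]
    by_cases hj : 0 ≤ j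
    · have g1 := ha (n * Y + n - 1 - j) (by omega) (by omega)
      have g2 := hb (n * Y + n - 1 - j) (by omega) (by omega)
      omega
    · by_cases hY : Y + 1 < H
      · have := ha' (n * Y + n - 1 - j) hY (by omega) (by omega)
        omega
      · have := hYz hY
        omega
  · intro j k1 k2
    rw [tX_t, tX_f, if_pos rfl]
    exact hlyV j k1 k2
  · intro i k1 k2
    rw [tX_t, tX_f, if_neg Bool.false_ne_true, show n * Y + n - sh p - 1 - -1 = n * Y + n - sh p by ring]
    exact hlyH i k1 k2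
  · intro j k1 k2
    rw [tX_t, tX_f]
    exact (aLac j k1 k2).1
  · intro j k1 k2
    rw [tX_t, tX_f]
    have := (aLac j k1 k2).2
    rwa [show n * A Y - 1 - 1 = n * A Y + -2 by ring] at this
  · intro i k1 k2
    rw [tX_t, tX_f, show n * Y + n - sh p - 1 - -1 = n * Y + n - sh p by ring]
    exact (aFac i k1 k2).1
  · intro i k1 k2
    rw [tX_t, tX_f, show n * Y + n - sh p - 1 - -2 = n * Y + n - sh p + 1 by ring]
    exact (aFac i k1 k2).2
  · rw [tX_t, tX_f]
    by_cases hY : Y + 1 < H
    · have g := hY0 hY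
      have hm1 := hm (n * Y + n - sh p - 1 - -2) (by omega)
      have ha1 := ha' (n * Y + n - sh p - 1 - -2) hY (by omega) (by omega)
      refine arc_left hC hcut (by omega) (by omega) (by omega) ?_
      unfold rL
      rw [if_neg (by omega)]
      exact dv_eq hn (by omega) (by omega)
    · rw [iS_top _ (by omega) (by omega)]
      have := hYz hY
      exact arc_top (by omega)
  · rw [tX_t, tX_t, tX_f]
    rcases sh_cases p with ⟨rfl, hp⟩ | ⟨rfl, hp⟩
    · right
      rw [hp]
      by_cases hY : Y + 1 < H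
      · have g := hY0 hY
        have hm1 := hm (n * Y + n - 0 - 1 - -1) (by omega)
        have ha1 := ha' (n * Y + n - 0 - 1 - -1) hY (by omega) (by omega)
        have key : ∀ x, x < n * A Y → arc D false s0 x (n * Y + n - 0 - 1 - -1) =
            iS D s0 n H true (Y + 1) := by
          intro x hx
          refine arc_left hC hcut (by omega) (by omega) (by omega) ?_
          unfold rL
          rw [if_neg (by omega)]
          exact dv_eq hn (by omega) (by omega)
        refine ⟨key _ (by omega), key _ (by omega), ?_⟩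
        unfold NatPl
        rw [if_neg Bool.false_ne_true]
        omega
      · rw [iS_top _ (by omega) (by omega)]
        have := hYz hY
        refine ⟨arc_top (by omega), arc_top (by omega), ?_⟩
        unfold NatPl
        rw [if_neg Bool.false_ne_true]
        omega
    · left
      rw [hp]
      have hm1 := hm (n * Y + n - 1 - 1 - -1) (by omega)
      have ha1 := ha (n * Y + n - 1 - 1 - -1) (by omega) (by omega)
      refine arc_left hC hcut (by omega) (by omega) (by omega) ?_
      unfold rL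
      rw [if_neg (by omega)]
      exact dv_eq hn (by omega) (by omega)

omit hC hcut in
lemma aR_arR : aR D n s0 Y = arR D n s0 Y := by
  unfold aR arR; congr 1; ring

/-- **The corner below the row `Y` of cells, right side.** -/
theorem zc_RF (h0 : 0 ≤ Y) (h1 : Y < H) (hf : Y = 0 ∨ B (Y - 1) < B Y) :
    Zc D p s0 false true (n * B Y) (n * Y - sh p) (iS D s0 n H false Y) (iS D s0 n H false (Y - 1))
      (n - 2) := by
  have C := hC.toCoarse
  have hn := C.pos
  have hn8 := C.hn
  have hr := row_h C h0 h1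
  have hs0 := sh_nonneg p
  have hs1 := sh_le p
  have hb : ∀ y, n * Y ≤ y → y + 2 ≤ n * Y + n → D.b y = n * B Y := fun y => b_up0 C h0 h1 hf
  have hAB := AB_n C h0 h1
  have ha : ∀ y, n * Y ≤ y → y < n * Y + n → D.a y ≤ n * B Y - n := fun y k1 k2 => by
    have := (ab_row C h0 h1 k1 k2).1; omega
  have e1 : n * (Y - 1) = n * Y - n := by ring
  have hb' : ∀ y, 0 < Y → n * Y - n ≤ y → y < n * Y → D.b y ≤ n * B Y - n + 1 := fun y k0 k1 k2 => by
    have h3 := (ab_row C (Y := Y - 1) (y := y) (by omega) (by omega) (by omega) (by omega)).2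
    have h4 := lt_mul (a := B (Y - 1)) (b := B Y) hn (by omega)
    omega
  have hY0 : 0 < Y → n ≤ n * Y := fun h => by
    have : n * 1 ≤ n * Y := mul_le_mul_of_nonneg_left (by omega) hn.le
    omega
  have hYz : Y = 0 → n * Y = 0 := fun h => by rw [h, mul_zero]
  have hyQ : n * Y ≤ D.yQ := by
    by_cases hY : 0 < Y
    · have h3 := floorR (D := D) (Y := n * Y - 1) (by omega) (by
        rw [sub_add_cancel, hb _ le_rfl (by omega)]
        have := hb' (n * Y - 1) hY (by omega) (by omega)
        omega)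
      omega
    · have h3 := D.Q0
      rw [hYz (by omega)]
      exact h3
  have hm : ∀ y, y < D.yQ → D.M y = D.b (y + 1) := fun y k => by
    unfold M Pool.Agent.H46.Sp.MM; rw [if_pos k]
  have hlyV : ∀ j, 0 ≤ j → j < n - 2 → LyA D p .R (n * B Y) (n * Y - sh p + j) := by
    intro j k1 k2
    have eY : n * Y - sh p + j + sh p = n * Y + j := by ring
    unfold LyA
    rw [eY]
    have g1 := hb (n * Y + j) (by omega) (by omega)
    have g2 := hb (n * Y + j + 1) (by omega) (by omega)
    refine ⟨by omega, by omega, by omega, ?_, by omega⟩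
    intro k3
    by_cases k4 : 1 ≤ j
    · have := hb (n * Y + j - 1) (by omega) (by omega); omega
    · have k5 : 0 < Y := by
        by_contra hc
        have := hYz (by omega)
        omega
      have := hb' (n * Y + j - 1) k5 (by omega) (by omega)
      omega
  have hlyH : ∀ i, 0 ≤ i → i < n - 2 → LyA D p .F (n * B Y - 1 - i) (n * Y - sh p - 1) := by
    intro i k1 k2
    have eY : n * Y - sh p - 1 + sh p = n * Y - 1 := by ring
    unfold LyA
    rw [eY]
    have g1 := hb (n * Y) le_rfl (by omega)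
    have g2 := ha (n * Y) le_rfl (by omega)
    simp only [LyP, sub_add_cancel]
    refine ⟨by omega, by omega, by omega, by omega, ?_⟩
    intro k3
    right
    have k5 : 0 < Y := by
      by_contra hc
      have := hYz (by omega)
      omega
    have := hb' (n * Y - 1) k5 (by omega) (by omega)
    omega
  have eB : n * (B Y - 1) = n * B Y - n := by ring
  have hQ : CQ H A B (B Y - 1) Y := ⟨h0, h1, by have := C.AB Y h0 h1; omega, by omega⟩
  have hhA : hA D n H A B s0 (B Y - 1) Y = iS D s0 n H false (Y - 1) := by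
    unfold hA
    rw [if_pos hQ]
    by_cases hY : Y = 0
    · rw [if_pos hY, iS_neg _ (by omega)]; rfl
    · have := C.AB (Y - 1) (by omega) (by omega)
      rw [if_neg hY, if_neg (by omega), iS_R hC hcut (by omega) (by omega), aR_arR]
  have aFac : ∀ i, 0 ≤ i → i < n - 2 → arc D p s0 (n * B Y - 1 - i) (n * Y - sh p - 1) =
      iS D s0 n H false (Y - 1) ∧ arc D p s0 (n * B Y - 1 - i) (n * Y - sh p - 1 - 1) =
      iS D s0 n H false (Y - 1) := by
    intro i k1 k2
    obtain ⟨-, -, -, g1, g2⟩ := lyF_arc hC hcut (hlyH i k1 k2)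
    have e2 : n * Y - sh p - 1 + sh p + 1 = n * Y := by ring
    have e3 : (n * B Y - 1 - i) / n = B Y - 1 := dv_eq hn (by omega) (by omega)
    rw [e2, Int.mul_ediv_cancel_left _ hn.ne', e3, hhA] at g1 g2
    exact ⟨g1, g2⟩
  have aLac : ∀ j, 0 ≤ j → j < n - 2 → arc D p s0 (n * B Y) (n * Y - sh p + j) =
      iS D s0 n H false Y ∧ arc D p s0 (n * B Y + 1) (n * Y - sh p + j) =
      iS D s0 n H false Y := by
    intro j k1 k2
    obtain ⟨-, -, -, g1, g2⟩ := lyR_arc hC hcut (hlyV j k1 k2)
    have e2 : n * Y - sh p + j + sh p = n * Y + j := by ring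
    have e3 : (n * Y + j) / n = Y := dv_eq hn (by omega) (by omega)
    rw [e2, e3, aR_arR] at g1 g2
    rw [iS_R hC hcut h0 h1]
    exact ⟨g1, g2⟩
  have t1 : n * B Y - 1 - -1 = n * B Y := by ring
  have t2 : n * B Y - 1 - -2 = n * B Y + 1 := by ring
  refine ⟨?_, ?_, ?_, ?_, ?_, ?_, ?_, ?_, ?_⟩
  · intro i j k1 k2 k3 k4
    rw [tX_f, tX_t, inP_iff]
    unfold PT
    rw [show n * Y - sh p + j + sh p = n * Y + j by ring]
    by_cases hj : 0 ≤ j
    · have g1 := hb (n * Y + j) (by omega) (by omega)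
      have g2 := ha (n * Y + j) (by omega) (by omega)
      omega
    · by_cases hY : 0 < Y
      · have := hb' (n * Y + j) hY (by omega) (by omega)
        omega
      · have := hYz (by omega)
        omega
  · intro j k1 k2
    rw [tX_f, tX_t, if_neg Bool.false_ne_true, t1]
    exact hlyV j k1 k2
  · intro i k1 k2
    rw [tX_f, tX_t, if_pos rfl]
    exact hlyH i k1 k2
  · intro j k1 k2
    rw [tX_f, tX_t, t1]
    exact (aLac j k1 k2).1
  · intro j k1 k2
    rw [tX_f, tX_t, t2]
    exact (aLac j k1 k2).2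
  · intro i k1 k2
    rw [tX_f, tX_t]
    exact (aFac i k1 k2).1
  · intro i k1 k2
    rw [tX_f, tX_t]
    have := (aFac i k1 k2).2
    rwa [show n * Y - sh p - 1 - 1 = n * Y - sh p + -2 by ring] at this
  · rw [tX_f, tX_t, t1]
    by_cases hY : 0 < Y
    · have g := hY0 hY
      have hm1 := hm (n * Y - sh p + -2) (by omega)
      have ha1 := hb' (n * Y - sh p + -2 + 1) hY (by omega) (by omega)
      refine arc_right hC hcut (by omega) (by omega) (by omega) ?_
      unfold rR
      rw [if_pos (by omega)]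
      exact dv_eq hn (by omega) (by omega)
    · rw [iS_neg _ (by omega)]
      have := hYz (by omega)
      exact arc_bot (by omega)
  · rw [tX_f, tX_f, tX_t, t1, t2]
    rcases sh_cases p with ⟨rfl, hp⟩ | ⟨rfl, hp⟩
    · left
      rw [hp]
      have hm1 := hm (n * Y - 0 + -1) (by omega)
      have ha1 := hb (n * Y) le_rfl (by omega)
      rw [show n * Y - 0 + -1 + 1 = n * Y by ring, ha1] at hm1
      refine arc_right hC hcut (by omega) (by omega) (by omega) ?_
      unfold rR
      rw [if_pos (by omega)]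
      exact dv_eq hn (by omega) (by omega)
    · right
      rw [hp]
      by_cases hY : 0 < Y
      · have g := hY0 hY
        have hm1 := hm (n * Y - 1 + -1) (by omega)
        have ha1 := hb' (n * Y - 1 + -1 + 1) hY (by omega) (by omega)
        have key : ∀ x, n * B Y ≤ x → arc D true s0 x (n * Y - 1 + -1) = iS D s0 n H false (Y - 1) := by
          intro x hx
          refine arc_right hC hcut (by omega) (by omega) (by omega) ?_
          unfold rR
          rw [if_pos (by omega)]
          exact dv_eq hn (by omega) (by omega)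
        refine ⟨key _ (by omega), key _ (by omega), ?_⟩
        unfold NatPl
        rw [if_pos rfl]
        omega
      · rw [iS_neg _ (by omega)]
        have := hYz (by omega)
        refine ⟨arc_bot (by omega), arc_bot (by omega), ?_⟩
        unfold NatPl
        rw [if_pos rfl]
        omega

/-- **The corner above the row `Y` of cells, right side.** -/
theorem zc_RC (h0 : 0 ≤ Y) (h1 : Y < H) (hf : Y + 1 = H ∨ B (Y + 1) < B Y) :
    Zc D p s0 false false (n * B Y) (n * Y + n - sh p) (iS D s0 n H false Y)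
      (iS D s0 n H false (Y + 1)) (n - 2) := by
  have C := hC.toCoarse
  have hn := C.pos
  have hn8 := C.hn
  have hr := row_h C h0 h1
  have hs0 := sh_nonneg p
  have hs1 := sh_le p
  have hb : ∀ y, n * Y + 1 ≤ y → y + 1 ≤ n * Y + n → D.b y = n * B Y := fun y => b_dn0 C h0 h1 hf
  have hAB := AB_n C h0 h1
  have ha : ∀ y, n * Y ≤ y → y < n * Y + n → D.a y ≤ n * B Y - n := fun y k1 k2 => by
    have := (ab_row C h0 h1 k1 k2).1; omega
  have e1 : n * (Y + 1) = n * Y + n := by ring
  have hb' : ∀ y, Y + 1 < H → n * Y + n ≤ y → y < n * Y + n + n → D.b y ≤ n * B Y - n + 1 :=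
    fun y k0 k1 k2 => by
    have h3 := (ab_row C (Y := Y + 1) (y := y) (by omega) (by omega) (by omega) (by omega)).2
    have h4 := lt_mul (a := B (Y + 1)) (b := B Y) hn (by omega)
    omega
  have hY0 : Y + 1 < H → n * Y + n + n ≤ D.h := fun h => by
    have := row_h C (Y := Y + 1) (by omega) h
    omega
  have hYz : ¬ Y + 1 < H → n * Y + n = D.h := fun h => by
    rw [C.hh, show H = Y + 1 by omega, e1]
  have hyQ : D.yQ < n * Y + n := by
    by_cases hY : Y + 1 < H
    · have := hY0 hY
      refine ceilR (D := D) (by omega) (by omega) ?_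
      rw [hb (n * Y + n - 1) (by omega) (by omega)]
      have := hb' (n * Y + n) hY (by omega) (by omega)
      omega
    · rw [hYz hY]; exact D.Q1
  have hm : ∀ y, D.yQ ≤ y → D.M y = D.b y := fun y k => by
    unfold M Pool.Agent.H46.Sp.MM; rw [if_neg (by omega)]
  have hlyV : ∀ j, 0 ≤ j → j < n - 2 → LyA D p .R (n * B Y) (n * Y + n - sh p - 1 - j) := by
    intro j k1 k2
    have eY : n * Y + n - sh p - 1 - j + sh p = n * Y + n - 1 - j := by ring
    unfold LyA
    rw [eY]
    have g1 := hb (n * Y + n - 1 - j) (by omega) (by omega)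
    have g2 := hb (n * Y + n - 1 - j - 1) (by omega) (by omega)
    refine ⟨by omega, by omega, by omega, by omega, ?_⟩
    intro k3
    by_cases k4 : 1 ≤ j
    · have := hb (n * Y + n - 1 - j + 1) (by omega) (by omega); omega
    · have k5 : Y + 1 < H := by
        by_contra hc
        have := hYz hc
        omega
      have := hb' (n * Y + n - 1 - j + 1) k5 (by omega) (by omega)
      omega
  have hlyH : ∀ i, 0 ≤ i → i < n - 2 → LyA D p .C (n * B Y - 1 - i) (n * Y + n - sh p) := by
    intro i k1 k2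
    have eY : n * Y + n - sh p + sh p = n * Y + n := by ring
    unfold LyA
    rw [eY]
    have g1 := hb (n * Y + n - 1) (by omega) (by omega)
    have g2 := ha (n * Y + n - 1) (by omega) (by omega)
    simp only [LyP]
    refine ⟨by omega, by omega, by omega, by omega, ?_⟩
    intro k3
    right
    have k5 : Y + 1 < H := by
      by_contra hc
      have := hYz hc
      omega
    have := hb' (n * Y + n) k5 (by omega) (by omega)
    omega
  have eB : n * (B Y - 1) = n * B Y - n := by ring
  have hQ : ¬ CQ H A B (B Y - 1) (Y + 1) := by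
    rintro ⟨g1, g2, g3, g4⟩
    omega
  have hhA : hA D n H A B s0 (B Y - 1) (Y + 1) = iS D s0 n H false (Y + 1) := by
    unfold hA
    rw [if_neg hQ]
    by_cases hY : Y + 1 = H
    · rw [if_pos hY, iS_top _ (by omega) (by omega)]; rfl
    · have := C.AB (Y + 1) (by omega) (by omega)
      rw [if_neg hY, if_neg (by omega), iS_R hC hcut (by omega) (by omega), aR_arR]
  have aFac : ∀ i, 0 ≤ i → i < n - 2 → arc D p s0 (n * B Y - 1 - i) (n * Y + n - sh p) =
      iS D s0 n H false (Y + 1) ∧ arc D p s0 (n * B Y - 1 - i) (n * Y + n - sh p + 1) =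
      iS D s0 n H false (Y + 1) := by
    intro i k1 k2
    obtain ⟨-, -, -, g1, g2⟩ := lyC_arc hC hcut (hlyH i k1 k2)
    have e2 : n * Y + n - sh p + sh p = n * (Y + 1) := by ring
    have e3 : (n * B Y - 1 - i) / n = B Y - 1 := dv_eq hn (by omega) (by omega)
    rw [e2, Int.mul_ediv_cancel_left _ hn.ne', e3, hhA] at g1 g2
    exact ⟨g1, g2⟩
  have aLac : ∀ j, 0 ≤ j → j < n - 2 → arc D p s0 (n * B Y) (n * Y + n - sh p - 1 - j) =
      iS D s0 n H false Y ∧ arc D p s0 (n * B Y + 1) (n * Y + n - sh p - 1 - j) =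
      iS D s0 n H false Y := by
    intro j k1 k2
    obtain ⟨-, -, -, g1, g2⟩ := lyR_arc hC hcut (hlyV j k1 k2)
    have e2 : n * Y + n - sh p - 1 - j + sh p = n * Y + n - 1 - j := by ring
    have e3 : (n * Y + n - 1 - j) / n = Y := dv_eq hn (by omega) (by omega)
    rw [e2, e3, aR_arR] at g1 g2
    rw [iS_R hC hcut h0 h1]
    exact ⟨g1, g2⟩
  have t1 : n * B Y - 1 - -1 = n * B Y := by ring
  have t2 : n * B Y - 1 - -2 = n * B Y + 1 := by ring
  have u1 : n * Y + n - sh p - 1 - -1 = n * Y + n - sh p := by ring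
  have u2 : n * Y + n - sh p - 1 - -2 = n * Y + n - sh p + 1 := by ring
  refine ⟨?_, ?_, ?_, ?_, ?_, ?_, ?_, ?_, ?_⟩
  · intro i j k1 k2 k3 k4
    rw [tX_f, tX_f, inP_iff]
    unfold PT
    rw [show n * Y + n - sh p - 1 - j + sh p = n * Y + n - 1 - j by ring]
    by_cases hj : 0 ≤ j
    · have g1 := hb (n * Y + n - 1 - j) (by omega) (by omega)
      have g2 := ha (n * Y + n - 1 - j) (by omega) (by omega)
      omega
    · by_cases hY : Y + 1 < H
      · have := hb' (n * Y + n - 1 - j) hY (by omega) (by omega)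
        omega
      · have := hYz hY
        omega
  · intro j k1 k2
    rw [tX_f, tX_f, if_neg Bool.false_ne_true, t1]
    exact hlyV j k1 k2
  · intro i k1 k2
    rw [tX_f, tX_f, if_neg Bool.false_ne_true, u1]
    exact hlyH i k1 k2
  · intro j k1 k2
    rw [tX_f, tX_f, t1]
    exact (aLac j k1 k2).1
  · intro j k1 k2
    rw [tX_f, tX_f, t2]
    exact (aLac j k1 k2).2
  · intro i k1 k2
    rw [tX_f, tX_f, u1]
    exact (aFac i k1 k2).1
  · intro i k1 k2
    rw [tX_f, tX_f, u2]
    exact (aFac i k1 k2).2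
  · rw [tX_f, tX_f, t1, u2]
    by_cases hY : Y + 1 < H
    · have g := hY0 hY
      have hm1 := hm (n * Y + n - sh p + 1) (by omega)
      have ha1 := hb' (n * Y + n - sh p + 1) hY (by omega) (by omega)
      refine arc_right hC hcut (by omega) (by omega) (by omega) ?_
      unfold rR
      rw [if_neg (by omega)]
      exact dv_eq hn (by omega) (by omega)
    · rw [iS_top _ (by omega) (by omega)]
      have := hYz hY
      exact arc_top (by omega)
  · rw [tX_f, tX_f, tX_f, t1, t2, u1]
    rcases sh_cases p with ⟨rfl, hp⟩ | ⟨rfl, hp⟩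
    · right
      rw [hp]
      by_cases hY : Y + 1 < H
      · have g := hY0 hY
        have hm1 := hm (n * Y + n - 0) (by omega)
        have ha1 := hb' (n * Y + n - 0) hY (by omega) (by omega)
        have key : ∀ x, n * B Y ≤ x → arc D false s0 x (n * Y + n - 0) =
            iS D s0 n H false (Y + 1) := by
          intro x hx
          refine arc_right hC hcut (by omega) (by omega) (by omega) ?_
          unfold rR
          rw [if_neg (by omega)]
          exact dv_eq hn (by omega) (by omega)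
        refine ⟨key _ (by omega), key _ (by omega), ?_⟩
        unfold NatPl
        rw [if_neg Bool.false_ne_true]
        omega
      · rw [iS_top _ (by omega) (by omega)]
        have := hYz hY
        refine ⟨arc_top (by omega), arc_top (by omega), ?_⟩
        unfold NatPl
        rw [if_neg Bool.false_ne_true]
        omega
    · left
      rw [hp]
      have hm1 := hm (n * Y + n - 1) (by omega)
      have ha1 := hb (n * Y + n - 1) (by omega) (by omega)
      refine arc_right hC hcut (by omega) (by omega) (by omega) ?_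
      unfold rR
      rw [if_neg (by omega)]
      exact dv_eq hn (by omega) (by omega)

end C

end Pool.Agent.H40.Sp
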