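import Mathlib
import Pool.Agent.H40.Sp.Zc

set_option autoImplicit false
open Finset

/-! # The marked corners of a coarse window

`zn_c` : the geometry near a marked corner, in the chart. -/

namespace Pool.Agent.H40.Sp

open Pool.Agent.H75.Perc Pool.Agent.H75.TwoArm Pool.Agent.Q1 Pool.Agent.H33.Q1
open Pool.Agent.H69.Q1
open Pool.Agent.H46.Sp Pool.Agent.H46.Sp.Win
open Pool.Agent.H74.Win Pool.Agent.H42.Sp Pool.Agent.H13.Sp
open Pool.Agent.H13.R45 (ev gp ev_true ev_false Tg)
open Pool.Agent.H31.Sp (Coarse CoarseC CQ aL aR aB aT hA)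
open Pool.Agent.H46.Sp.CG (dv dv_eq ab_mid AB_n row_h)
open Pool.Agent.H39.Q1 (nd el cU cV cx cy VN av nd_el TF mem_TF)

variable {D : Win} {n H : ℤ} {A B : ℤ → ℤ} {YP YQ : ℤ} {CL CR : ℤ → Bool} {p : Bool}
  {s0 x y Y i j L N gx gy iV iH iL iF : ℤ} {v1 v2 w sd : Bool} {S : Finset (ℤ × ℤ)}

/-- the diagonal tile if its neighbour is in the fill of `iL` -/
lemma Zn.fz_diag (Z : Zn D p s0 v1 v2 w gx gy iL iF N) (hL : 5 ≤ L) (hN : 4 ≤ N)
    (ha : arc D p s0 (tq v1 v2 w gx gy (-2) (-1)).1 (tq v1 v2 w gx gy (-2) (-1)).2 = iL)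
    (hs : lt (tq v1 v2 w gx gy (-1) (-1)) ∈ S ↔ colp D iL = true) :
    FzA D p s0 L S iL (tq v1 v2 w gx gy (-1) (-1)).1 (tq v1 v2 w gx gy (-1) (-1)).2 := by
  have hB := Z.inB (i := -2) (j := -1) (by omega) (by omega) (by omega) (by omega) (by omega)
  refine ⟨Z.fz11 hN, hs, gq v1 v2 w gx gy (-1) (-1), ?_, onT_q.2 (by omega), _, _,
    ⟨InL_of_InB hL hB, ?_, ha, fun _ => hB⟩, (onT_q (i := -2) (j := -1)).2 (by omega)⟩
  · rw [Z.evGL]; omega
  · exact Z.fill (by omega) (by omega) (by omega) (by omega) (by omega)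

namespace Zc

variable (Z : Zc D p s0 v1 v2 gx gy iV iH N)
include Z

lemma zn_t (he : ev (gx, gy) = colp D iV) (hne : colp D iV ≠ colp D iH) :
    Zn D p s0 v1 v2 true gx gy iV iH N where
  evL := he
  colF := by revert hne; cases colp D iV <;> cases colp D iH <;> simp
  inP := Z.inP
  lyL := Z.lyV
  lyF := Z.lyH
  aL1 := Z.aV1
  aL2 := Z.aV2
  aF1 := Z.aH1
  aF2 := Z.aH2
  aD := by
    rcases Z.a21 with h | ⟨h, -⟩
    · exact Or.inl h
    · exact Or.inr h

lemma zn_f (he : ev (gx, gy) ≠ colp D iV) (hne : colp D iV ≠ colp D iH) :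
    Zn D p s0 v1 v2 false gx gy iH iV N where
  evL := by
    revert he hne; cases colp D iV <;> cases colp D iH <;> cases ev (gx, gy) <;> simp
  colF := by revert hne; cases colp D iV <;> cases colp D iH <;> simp
  inP := fun i j h1 h2 h3 h4 => by
    have := Z.inP j i h3 h4 h1 h2
    exact this.trans and_comm
  lyL := Z.lyH
  lyF := Z.lyV
  aL1 := Z.aH1
  aL2 := Z.aH2
  aF1 := Z.aV1
  aF2 := Z.aV2
  aD := Or.inl Z.a12

lemma hd_t (he : ev (gx, gy) = colp D iV) (hne : colp D iV ≠ colp D iH) (hL : 5 ≤ L)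
    (hN : 4 ≤ N) (hS : NatS D p S)
    (hs : lt (tq v1 v2 true gx gy (-1) (-1)) ∈ S ↔ colp D iV = true) :
    FzA D p s0 L S iV (tq v1 v2 true gx gy (-1) (-1)).1 (tq v1 v2 true gx gy (-1) (-1)).2 := by
  have Z' := Z.zn_t he hne
  rcases Z.a21 with h | ⟨-, h, h'⟩
  · exact Z'.fz_diag hL hN h hs
  · exfalso
    have h1 := hS _ _ (Z'.fz11 hN) h'
    have h2 : natc D p (tX v1 gx (-1)) (tX v2 gy (-1)) = colp D iH := by
      rw [← colp_arc (s0 := s0), h]
    have h3 := hs.symm.trans h1
    rw [show natc D p (tq v1 v2 true gx gy (-1) (-1)).1 (tq v1 v2 true gx gy (-1) (-1)).2 =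
      natc D p (tX v1 gx (-1)) (tX v2 gy (-1)) from rfl, h2] at h3
    revert h3 hne
    cases colp D iV <;> cases colp D iH <;> simp

lemma hd_f (he : ev (gx, gy) ≠ colp D iV) (hne : colp D iV ≠ colp D iH) (hL : 5 ≤ L)
    (hN : 4 ≤ N)
    (hs : lt (tq v1 v2 false gx gy (-1) (-1)) ∈ S ↔ colp D iH = true) :
    FzA D p s0 L S iH (tq v1 v2 false gx gy (-1) (-1)).1 (tq v1 v2 false gx gy (-1) (-1)).2 :=
  (Z.zn_f he hne).fz_diag hL hN Z.a12 hs

end Zc

section C

variable (hC : CoarseC D n H A B YP YQ CL CR) (hcut : colp D (s0 - 1) ≠ colp D s0)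
include hC

/-- the colour of the side of a row -/
lemma col_iS : colp D (iS D s0 n H sd Y) = cS D n H sd Y := by
  have hn := hC.toCoarse.pos
  have hn8 := hC.hn
  have hh := D.hh
  unfold iS cS
  rw [colp_rep]
  unfold qS
  split_ifs with c1 c2 c3
  · unfold colp
    rw [Int.zero_emod, colq_0]
  · unfold colp
    rw [Int.emod_eq_of_lt (by omega) (by unfold nP; omega), colq_t]
  · have hr := row_h hC.toCoarse (Y := Y) (by omega) (by omega)
    exact colp_left (by omega) (by omega)
  · have hr := row_h hC.toCoarse (Y := Y) (by omega) (by omega)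
    exact colp_right (by omega) (by omega)

include hcut

/-- rows of equal length have the same arc -/
lemma iS_succ (h0 : 0 ≤ Y) (h1 : Y + 1 < H)
    (he : if sd = true then A Y = A (Y + 1) else B Y = B (Y + 1)) :
    iS D s0 n H sd (Y + 1) = iS D s0 n H sd Y := by
  cases sd
  · rw [if_neg Bool.false_ne_true] at he
    rw [iS_R hC hcut (by omega) (by omega), iS_R hC hcut (by omega) (by omega)]
    exact arR_succ hC.toCoarse hcut h0 h1 he
  · rw [if_pos rfl] at he
    rw [iS_L hC hcut (by omega) (by omega), iS_L hC hcut (by omega) (by omega)]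
    exact arL_succ hC.toCoarse hcut h0 h1 he

/-- **The geometry near a marked corner.** -/
theorem zc_c {c : Bool × ℤ} (hc : c ∈ GmC D n H) :
    Zc D p s0 c.1 (flS H A B c) (gxS n H A B c) (gyS p n c) (iVs D s0 n H A B c)
      (iHs D s0 n H A B c) (n - 2) ∧
    colp D (iVs D s0 n H A B c) ≠ colp D (iHs D s0 n H A B c) := by
  obtain ⟨sd, Y⟩ := c
  unfold GmC at hc
  obtain ⟨h1, h2⟩ := mem_filter.1 hc
  have h3 := (mem_product.1 h1).2
  rw [mem_Icc] at h3
  simp only at h2 h3
  have hH : 0 < H := by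
    have h4 := D.hh
    have h5 := hC.hh
    have h6 := hC.toCoarse.pos
    by_contra hc
    have : n * H ≤ n * 0 := mul_le_mul_of_nonneg_left (by omega) h6.le
    omega
  have hcol := fun Y => col_iS (s0 := s0) (sd := sd) (Y := Y) hC
  have hne : colp D (iS D s0 n H sd (Y - 1)) ≠ colp D (iS D s0 n H sd Y) := by
    rw [hcol, hcol]; exact h2
  unfold gxS gyS iVs iHs yV yH eS
  rcases hf : flS H A B (sd, Y) with _ | _
  · have hf' : ¬ (Y = 0 ∨ (Y < H ∧ (if sd = true then A Y < A (Y - 1) else B (Y - 1) < B Y))) := by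
      unfold flS at hf
      exact of_decide_eq_false hf
    simp only [Bool.false_eq_true, if_false]
    rw [not_or, not_and] at hf'
    obtain ⟨hY0, hf1⟩ := hf'
    refine ⟨?_, hne⟩
    have e1 : n * Y - sh p = n * (Y - 1) + n - sh p := by ring
    rw [e1]
    have e2 : Y = Y - 1 + 1 := by ring
    have key : ¬ (Y < H ∧ (if sd = true then A (Y - 1) = A Y else B (Y - 1) = B Y)) := by
      rintro ⟨k1, k2⟩
      apply hne
      have := iS_succ (sd := sd) (Y := Y - 1) hC hcut (by omega) (by omega)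
        (by rw [sub_add_cancel]; exact k2)
      rw [sub_add_cancel] at this
      rw [this]
    cases sd
    · simp only [Bool.false_eq_true, if_false] at hf1 key ⊢
      have := zc_RC (Y := Y - 1) (p := p) hC hcut (by omega) (by omega) (by
        rw [sub_add_cancel]
        by_cases c : Y < H
        · right
          have := hf1 c
          by_contra hc
          exact key ⟨c, by omega⟩
        · left; omega)
      rw [sub_add_cancel] at this
      exact this
    · simp only [if_true] at hf1 key ⊢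
      have := zc_LC (Y := Y - 1) (p := p) hC hcut (by omega) (by omega) (by
        rw [sub_add_cancel]
        by_cases c : Y < H
        · right
          have := hf1 c
          by_contra hc
          exact key ⟨c, by omega⟩
        · left; omega)
      rw [sub_add_cancel] at this
      exact this
  · have hf' : (Y = 0 ∨ (Y < H ∧ (if sd = true then A Y < A (Y - 1) else B (Y - 1) < B Y))) := by
      unfold flS at hf
      exact of_decide_eq_true hf
    simp only [if_true]
    refine ⟨?_, hne.symm⟩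
    cases sd
    · simp only [Bool.false_eq_true, if_false] at hf' ⊢
      exact zc_RF (p := p) hC hcut (by omega) (by omega) (by tauto)
    · simp only [if_true] at hf' ⊢
      exact zc_LF (p := p) hC hcut (by omega) (by omega) (by tauto)

/-- **The geometry near a marked corner, in the chart.** -/
theorem zn_c {c : Bool × ℤ} (hc : c ∈ GmC D n H) (hL : 5 ≤ L) (hn : 6 ≤ n) (hS : NatS D p S) :
    Zn D p s0 c.1 (flS H A B c) (wS D p n H A B c) (gxS n H A B c) (gyS p n c)
      (iLs D p s0 n H A B c) (iFs D p s0 n H A B c) (n - 2) ∧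
    ((lt (tq c.1 (flS H A B c) (wS D p n H A B c) (gxS n H A B c) (gyS p n c) (-1) (-1)) ∈ S ↔
        colp D (iLs D p s0 n H A B c) = true) →
      FzA D p s0 L S (iLs D p s0 n H A B c)
        (tq c.1 (flS H A B c) (wS D p n H A B c) (gxS n H A B c) (gyS p n c) (-1) (-1)).1
        (tq c.1 (flS H A B c) (wS D p n H A B c) (gxS n H A B c) (gyS p n c) (-1) (-1)).2) := by
  obtain ⟨Z, hne⟩ := zc_c (p := p) hC hcut hc
  have hcol : colp D (iVs D s0 n H A B c) = cS D n H c.1 (yV H A B c) := by
    unfold iVs; exact col_iS hC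
  rcases hw : wS D p n H A B c with _ | _
  · have he : ev (gxS n H A B c, gyS p n c) ≠ colp D (iVs D s0 n H A B c) := by
      unfold wS at hw
      rw [hcol]
      simpa using hw
    have e1 : iLs D p s0 n H A B c = iHs D s0 n H A B c := by
      unfold iLs; rw [hw, if_neg Bool.false_ne_true]
    have e2 : iFs D p s0 n H A B c = iVs D s0 n H A B c := by
      unfold iFs; rw [hw, if_neg Bool.false_ne_true]
    rw [e1, e2]
    exact ⟨Z.zn_f he hne, Z.hd_f he hne hL (by omega)⟩
  · have he : ev (gxS n H A B c, gyS p n c) = colp D (iVs D s0 n H A B c) := by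
      unfold wS at hw
      rw [hcol]
      simpa using hw
    have e1 : iLs D p s0 n H A B c = iVs D s0 n H A B c := by
      unfold iLs; rw [hw, if_pos rfl]
    have e2 : iFs D p s0 n H A B c = iHs D s0 n H A B c := by
      unfold iFs; rw [hw, if_pos rfl]
    rw [e1, e2]
    exact ⟨Z.zn_t he hne, Z.hd_t he hne hL (by omega) hS⟩

end C

end Pool.Agent.H40.Sp
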