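import Mathlib
import Pool.Agent.H40.Sp.Zg
import Pool.Agent.H40.Sp.ErrW

set_option autoImplicit false
open Finset

/-! # The marked corners of the environment `XA` of a coarse window

`crW_X` : the structure `CrW`. -/

namespace Pool.Agent.H40.Sp

open Pool.Agent.H75.Perc Pool.Agent.H75.TwoArm Pool.Agent.Q1 Pool.Agent.H33.Q1
open Pool.Agent.H69.Q1
open Pool.Agent.H46.Sp Pool.Agent.H46.Sp.Win
open Pool.Agent.H74.Win Pool.Agent.H42.Sp Pool.Agent.H13.Sp
open Pool.Agent.H13.R45 (ev gp ev_true ev_false Tg)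
open Pool.Agent.H31.Sp (Coarse CoarseC CQ aL aR aB aT hA)
open Pool.Agent.H46.Sp.CG (dv dv_eq ab_mid AB_n row_h)
open Pool.Agent.H54.R45 (nd_gp node_exists el_adj adj_unit)
open Pool.Agent.H39.Q1 (nd_true nd_false el_true el_false nd el cU cV cx cy VN av nd_el TF mem_TF)

section Defs

variable (D : Win) (p : Bool) (s0 n H : ℤ) (A B : ℤ → ℤ) (h : ℤ)

/-- the ties near a marked corner -/
noncomputable def TnX (c : Bool × ℤ) : Finset (ℤ × ℤ) :=
  TnQ c.1 (flS H A B c) (wS D p n H A B c) (gxS n H A B c) (gyS p n c) h D p s0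

/-- the layer at a marked corner -/
noncomputable def LX (c : Bool × ℤ) : Finset (ℤ × ℤ) :=
  LQ c.1 (flS H A B c) (wS D p n H A B c) (gxS n H A B c) (gyS p n c) h (2 * h + 2)

/-- the wide layers at a marked corner -/
noncomputable def LamX (c : Bool × ℤ) : ℤ → Finset (ℤ × ℤ) :=
  LamQ c.1 (flS H A B c) (wS D p n H A B c) (gxS n H A B c) (gyS p n c) h (2 * h + 2) D p s0
    (iLs D p s0 n H A B c) (iFs D p s0 n H A B c)

end Defs

variable {D : Win} {n H : ℤ} {A B : ℤ → ℤ} {YP YQ : ℤ} {CL CR : ℤ → Bool} {p : Bool}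
  {s0 L h : ℤ} {S Bx : Finset (ℤ × ℤ)} {O : OutB D}

/-- the tiles at a node -/
lemma el_onT {g : ℤ × ℤ} {cc : Bool} {z : ℤ × ℤ} (hg : ev g = cc) (hu : IsUnit4 (z - gp g)) :
    ∃ X Y, el cc (gp g) z = lt (X, Y) ∧ OnT g X Y := by
  obtain ⟨X, Y, h1, h2, h3⟩ := el_adj hg hu
  refine ⟨X, Y, h1, ?_⟩
  unfold OnT
  omega

/-- every tile at a node is the tile of an edge -/
lemma onT_el {g : ℤ × ℤ} {cc : Bool} {X Y : ℤ} (hg : ev g = cc) (ho : OnT g X Y) :
    ∃ z, IsUnit4 (z - gp g) ∧ el cc (gp g) z = lt (X, Y) := by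
  unfold OnT at ho
  have h1 := adj_unit hg (X := X) (Y := Y) (by omega) (by omega)
  cases cc
  · refine ⟨lt (X, Y) - gp g + (1, 1), ?_, ?_⟩
    · rw [nd_false] at h1
      have e : lt (X, Y) - gp g + (1, 1) - gp g = lt (X, Y) - (2 * (gp g).1 - 1, 2 * (gp g).2 - 1) := by
        ext <;> simp <;> ring
      rw [e]; exact h1
    · rw [el_false]; ring
  · refine ⟨lt (X, Y) - gp g, ?_, ?_⟩
    · rw [nd_true] at h1
      have e : lt (X, Y) - gp g - gp g = lt (X, Y) - (2 * (gp g).1, 2 * (gp g).2) := by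
        ext <;> simp <;> ring
      rw [e]; exact h1
    · rw [el_true]; ring

/-- **The marked corners of the environment `XA` of a coarse window.** -/
theorem crW_X (hC : CoarseC D n H A B YP YQ CL CR) (hcut : colp D (s0 - 1) ≠ colp D s0)
    (hS : S ⊆ FR D p) (hNat : NatS D p S) (hL : 5 ≤ L) (hh : 1 ≤ h) (hn : 3 * h + 8 ≤ n)
    (hB : ∀ i, LaA D p s0 h i ⊆ Bx) (hex : ExA D p s0 n H A B O S L h) :
    CrW (WA O p S) (EN D p) Bx (TA D p) (fmA D p s0) (colp D) (WlA D p s0 L S) (LaA D p s0 h)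
      (bA D p) (oA D p) h (GmC D n H) (TnX D p s0 n H A B h) (LamX D p s0 n H A B h)
      (LX D p n H A B h) (iLs D p s0 n H A B) (iFs D p s0 n H A B) (kS D p n H A B)
      (fun _ => 2 * (2 * h + 2)) (fun _ => 2 * (2 * h + 2)) (fun _ => 2 * (2 * h + 2)) where
  cnr := by
    intro c hc
    obtain ⟨Z, hd⟩ := zn_c (p := p) hC hcut hc hL (by omega) hNat
    exact Z.cnrW hS hL hh rfl (by omega) hB hd
  cnn := by
    intro c hc
    obtain ⟨Z, hd⟩ := zn_c (p := p) hC hcut hc hL (by omega) hNat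
    exact Z.cnrN hh rfl (by omega)
  ex := by
    intro i x y hu hv ha hw
    obtain ⟨g, hg, rfl⟩ := node_exists (colp D i) x
    obtain ⟨X, Y, h1, h2⟩ := el_onT hg hu
    rw [h1] at ha ⊢
    have hv' : (∃ u v k, TieP D p k (colp D i) u v ∧ fmA D p s0 (lt (u, v)) = i ∧
        bt k (colp D i) (u, v) = g) ∨ ∃ u v, OnT g u v ∧ lt (u, v) ∈ LaA D p s0 h i := by
      rcases hv with ⟨e, he, hb⟩ | ⟨z, hz, he⟩
      · obtain ⟨he1, he2⟩ := mem_TF.1 he
        obtain ⟨u, v, k, cc, rfl, hT⟩ := exists_tie he1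
        have hco := hT.co (s0 := s0)
        rw [he2] at hco
        subst hco
        left
        refine ⟨u, v, k, hT, he2, ?_⟩
        rw [hT.b] at hb
        exact Pool.Agent.H13.R45.gp_inj ((ev_bt hT.odd).trans hg.symm) hb
      · right
        obtain ⟨u, v, k1, k2⟩ := el_onT hg hz
        rw [k1] at he
        exact ⟨u, v, k2, he⟩
    have hw' : ∀ u v, OnT g u v → lt (u, v) ∉ WlA D p s0 L S i := by
      intro u v ho hl
      obtain ⟨z, hz, he⟩ := onT_el hg ho
      exact hw z hz (by rw [he]; exact hl)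
    rcases hex i g X Y hg h2 hv' ha hw' with k | k | k
    · exact Or.inl k
    · right; left
      intro e he
      obtain ⟨he1, he2⟩ := mem_TF.1 he
      obtain ⟨u, v, kk, cc, rfl, hT⟩ := exists_tie he1
      have hco := hT.co (s0 := s0)
      rw [he2] at hco
      subst hco
      have := k u v kk hT he2
      rw [hT.b, nd_gp hg, nd_gp (ev_bt hT.odd)]
      unfold cU cV cx cy
      simp only
      have e1 : g.1 - g.2 - 0 + 1 * (g.1 + g.2 - 0) - ((bt kk (colp D i) (u, v)).1 -
        (bt kk (colp D i) (u, v)).2 - 0 + 1 * ((bt kk (colp D i) (u, v)).1 +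
        (bt kk (colp D i) (u, v)).2 - 0)) = 2 * (g.1 - (bt kk (colp D i) (u, v)).1) := by ring
      have e2 : 1 * (g.1 + g.2 - 0) - (g.1 - g.2 - 0) - (1 * ((bt kk (colp D i) (u, v)).1 +
        (bt kk (colp D i) (u, v)).2 - 0) - ((bt kk (colp D i) (u, v)).1 -
        (bt kk (colp D i) (u, v)).2 - 0)) = 2 * (g.2 - (bt kk (colp D i) (u, v)).2) := by ring
      rw [e1, e2, abs_mul, abs_mul, show |(2 : ℤ)| = 2 from rfl]
      exact this
    · right; right
      obtain ⟨c, hc, hk⟩ := k
      obtain ⟨Z, -⟩ := zn_c (p := p) hC hcut hc hL (by omega) hNat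
      have hUV := chQ_gp (v1 := c.1) (v2 := flS H A B c) (w := wS D p n H A B c)
        (gx := gxS n H A B c) (gy := gyS p n c) hg
      have hevL := Z.evL
      have hcF := Z.colF
      have hnz : i = iFs D p s0 n H A B c → ¬ (g.1 = gxS n H A B c ∧ g.2 = gyS p n c) := by
        rintro hi ⟨e1, e2⟩
        have e3 : g = (gxS n H A B c, gyS p n c) := Prod.ext e1 e2
        rw [hi, e3, hevL, hcF] at hg
        revert hg
        cases colp D (iLs D p s0 n H A B c) <;> simp
      have hnz' : ∀ {a b : ℤ}, a = gxS n H A B c → oP (flS H A B c) (gyS p n c) b = 0 →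
          a = gxS n H A B c ∧ b = gyS p n c := by
        intro a b k1 k2
        refine ⟨k1, ?_⟩
        unfold oP at k2; split_ifs at k2 <;> omega
      have hnz2 : ∀ {a b : ℤ}, oP c.1 (gxS n H A B c) a = 0 → b = gyS p n c →
          a = gxS n H A B c ∧ b = gyS p n c := by
        intro a b k1 k2
        refine ⟨?_, k2⟩
        unfold oP at k1; split_ifs at k1 <;> omega
      have z1 : g.1 = gxS n H A B c → oP c.1 (gxS n H A B c) g.1 = 0 := by
        intro k; unfold oP; split_ifs <;> omega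
      have z2 : g.2 = gyS p n c → oP (flS H A B c) (gyS p n c) g.2 = 0 := by
        intro k; unfold oP; split_ifs <;> omega
      rcases hw0 : wS D p n H A B c with _ | _
      · rw [hw0] at hUV
        simp only [Bool.false_eq_true, if_false] at hUV
        have e1 : iLs D p s0 n H A B c = iHs D s0 n H A B c := by
          unfold iLs; rw [hw0, if_neg Bool.false_ne_true]
        have e2 : iFs D p s0 n H A B c = iVs D s0 n H A B c := by
          unfold iFs; rw [hw0, if_neg Bool.false_ne_true]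
        rcases hk with ⟨q1, q2, q3, q4⟩ | ⟨q1, q2, q3, q4⟩
        · right
          have q5 := hnz (q1.trans e2.symm)
          have q6 : oP c.1 (gxS n H A B c) g.1 ≠ 0 := fun q => q5 (hnz2 q q2)
          have q7 := z2 q2
          refine ⟨c, hc, q1.trans e2.symm, ?_, ?_, ?_⟩
          · unfold kS; rw [hw0, hUV.1]; omega
          · unfold kS; rw [hw0, hUV.2]; omega
          · unfold kS; rw [hw0, hUV.2]; omega
        · left
          have q7 := z1 q2
          refine ⟨c, hc, q1.trans e1.symm, ?_, ?_, ?_⟩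
          · unfold kS; rw [hw0, hUV.2]; omega
          · unfold kS; rw [hw0, hUV.1]; omega
          · unfold kS; rw [hw0, hUV.1]; omega
      · rw [hw0] at hUV
        simp only [if_true] at hUV
        have e1 : iLs D p s0 n H A B c = iVs D s0 n H A B c := by
          unfold iLs; rw [hw0, if_pos rfl]
        have e2 : iFs D p s0 n H A B c = iHs D s0 n H A B c := by
          unfold iFs; rw [hw0, if_pos rfl]
        rcases hk with ⟨q1, q2, q3, q4⟩ | ⟨q1, q2, q3, q4⟩
        · left
          have q7 := z2 q2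
          refine ⟨c, hc, q1.trans e1.symm, ?_, ?_, ?_⟩
          · unfold kS; rw [hw0, hUV.2]; omega
          · unfold kS; rw [hw0, hUV.1]; omega
          · unfold kS; rw [hw0, hUV.1]; omega
        · right
          have q5 := hnz (q1.trans e2.symm)
          have q6 : oP (flS H A B c) (gyS p n c) g.2 ≠ 0 := fun q => q5 (hnz' q2 q)
          have q7 := z1 q2
          refine ⟨c, hc, q1.trans e2.symm, ?_, ?_, ?_⟩
          · unfold kS; rw [hw0, hUV.1]; omega
          · unfold kS; rw [hw0, hUV.2]; omega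
          · unfold kS; rw [hw0, hUV.2]; omega

end Pool.Agent.H40.Sp
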