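import Mathlib
import Pool.Agent.H40.Sp.CrX
import Pool.Agent.H59.W.EdgA
import Pool.Agent.H59.W.FineW

set_option autoImplicit false
open Finset

/-! # The structure `WCr` for the environment `XA` of a coarse window -/

namespace Pool.Agent.H40.Sp

open Pool.Agent.H75.Perc Pool.Agent.H75.TwoArm Pool.Agent.Q1 Pool.Agent.H33.Q1
open Pool.Agent.H69.Q1
open Pool.Agent.H46.Sp Pool.Agent.H46.Sp.Win
open Pool.Agent.H74.Win Pool.Agent.H42.Sp Pool.Agent.H13.Sp
open Pool.Agent.H13.R45 (ev gp ev_true ev_false Tg Ag OutF)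
open Pool.Agent.H31.Sp (laB_D Coarse CoarseC CQ hA Kp wlD fwD x0D ND epD hqD arcB verS bW poD poD_tie FlD)
open Pool.Agent.H99.NC (inR)
open Pool.Agent.H60.Q1 (wp)
open Pool.Agent.H39.Q1 (gm)
open Pool.Agent.H44.FM.AsmW (TW mem_TW)
open Pool.Agent.H39.Q1 (FarM nd el cU cV cx cy VN av nd_el TF mem_TF)

variable {D : Win} {n H : ℤ} {A B : ℤ → ℤ} {YP YQ : ℤ} {CL CR : ℤ → Bool} {p : Bool}
  {s0 L h : ℤ} {S Bx : Finset (ℤ × ℤ)} {O : OutB D}

/-- the surrounding property -/
theorem surX (hC : CoarseC D n H A B YP YQ CL CR) (hcut : colp D (s0 - 1) ≠ colp D s0)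
    (hNat : NatS D p S) (hL : 5 ≤ L) (hh : 1 ≤ h) (hn : 3 * h + 8 ≤ n) :
    ∀ c ∈ GmC D n H, ∀ ρ ≤ h, ∀ ω, (kS D p n H A B c).Sur ρ (LX D p n H A B h c) ω := by
  intro c hc ρ hρ ω
  obtain ⟨Z, -⟩ := zn_c (p := p) hC hcut hc hL (by omega) hNat
  exact Z.surQ hh rfl (by omega) hρ ω

/-- ties near a marked corner are near an end of their wall -/
theorem lnkX (hC : CoarseC D n H A B YP YQ CL CR) (hcut : colp D (s0 - 1) ≠ colp D s0)
    (hn : 16 ≤ n) (w0 : Kp H A B) :
    ∀ c ∈ GmC D n H, ∀ e ∈ TA D p, ∀ ρ : ℤ, 8 ≤ ρ →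
    (0 ≤ (kS D p n H A B c).U (nd (colp D (fmA D p s0 e)) (bA D p e)) ∧
      (kS D p n H A B c).U (nd (colp D (fmA D p s0 e)) (bA D p e)) ≤ 2 * ρ) →
    (0 ≤ (kS D p n H A B c).V (nd (colp D (fmA D p s0 e)) (bA D p e)) ∧
      (kS D p n H A B c).V (nd (colp D (fmA D p s0 e)) (bA D p e)) ≤ 2 * ρ) →
    ∃ τ : ℤ, (τ = 0 ∨ τ = ND D n H A B p s0 (wlD D n H A B p w0 e)) ∧
      inR (wp 1 (x0D D n H A B p s0 (wlD D n H A B p w0 e)) τ) (2 * ρ)
        (gm (epD H A B (wlD D n H A B p w0 e)) (bA D p e)) := by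
  intro c _ e he ρ hρ hU hV
  have hE : H59.W.EdgA D n H A B p s0 := H59.W.edgA (arcB hC hcut) hC.toCoarse
  have hq := fun w => hqD (p := p) hC.toCoarse hn w
  set w := wlD D n H A B p w0 e with hw
  have hfl : e ∉ FlD D n H A B p w0 (ρ + 1) w := by
    intro hf
    unfold FlD at hf
    obtain ⟨-, -, h1, h2⟩ := mem_filter.1 hf
    obtain ⟨u, v, s, cc, rfl, hT⟩ := exists_tie he
    obtain ⟨k5, k6, k7, k8⟩ := hE.tie' w0 hT
    rw [← hw] at k5
    rw [poD_tie hT] at h1 h2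
    rw [hT.co, hT.b] at hU hV
    have hUV := chQ_gp (v1 := c.1) (v2 := flS H A B c) (w := wS D p n H A B c)
      (gx := gxS n H A B c) (gy := gyS p n c) (ev_bt (k := s) (c := cc) hT.odd)
    unfold kS at hU hV
    rw [hUV.1] at hU
    rw [hUV.2] at hV
    set g := bt s cc (u, v) with hg
    have hx : |g.1 - gxS n H A B c| ≤ ρ ∧ |g.2 - gyS p n c| ≤ ρ := by
      unfold oP at hU hV
      constructor
      · rw [abs_le]
        split_ifs at hU hV <;> omega
      · rw [abs_le]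
        split_ifs at hU hV <;> omega
    rw [abs_le, abs_le] at hx
    have hn0 : 0 < n := by omega
    unfold bW at h1 h2
    rw [k5] at h1 h2
    unfold gxS gyS at hx
    have key : ∀ a b z : ℤ, n * a - ρ ≤ z → z ≤ n * a + ρ → n * b + (ρ + 1) ≤ z →
        z + (ρ + 1) ≤ n * b + n → False := by
      intro a b z g1 g2 g3 g4
      have g5 : b < a := by
        by_contra hc
        have : n * a ≤ n * b := mul_le_mul_of_nonneg_left (by omega) hn0.le
        omega
      have : n * (b + 1) ≤ n * a := mul_le_mul_of_nonneg_left (by omega) hn0.le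
      have e : n * (b + 1) = n * b + n := by ring
      omega
    rcases hv : verS s with _ | _
    · simp only [hv, Bool.false_eq_true, if_false] at h1 h2
      exact key (eS A B c.1 (yV H A B c)) w.1.2.1 g.1 (by omega) (by omega) h1 h2
    · simp only [hv, if_true] at h1 h2
      refine key c.2 w.1.2.2 (g.2 + sh p) (by omega) (by omega) (by omega) (by omega)
  rcases H59.W.end_D hE hq w0 w (r := ρ + 1) (ρ := 2 * ρ) (by omega) (mem_TW.2 ⟨he, hw.symm⟩) hfl
    with h1 | h1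
  · exact ⟨0, Or.inl rfl, h1⟩
  · exact ⟨_, Or.inr rfl, h1⟩

/-! ### The wide layers -/

lemma laA_sub {m m' i : ℤ} (hm : m ≤ m') : LaA D p s0 m i ⊆ LbA D p s0 m' i := by
  intro l hl
  obtain ⟨x, y, rfl⟩ := Pool.Agent.H74.R45.exists_lt (odd_LaA hl)
  unfold LaA at hl
  unfold LbA
  rw [mem_TB] at hl ⊢
  obtain ⟨h1, h2, u, v, h3, h4, h5, h6, h7, h8⟩ := hl
  refine ⟨h1, near_of (x' := x) (y' := y) h2 (by omega) (by omega) (by omega) (by omega), u, v, h3, h4,
    ?_, ?_, ?_, ?_⟩ <;> omega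

/-- the wide layers of a corner are near their arcs -/
lemma Zn.lam_sub {v1 v2 w : Bool} {gx gy iL iF N h m' i : ℤ}
    (Z : Zn D p s0 v1 v2 w gx gy iL iF N) (hh : 1 ≤ h) (hN : 3 * h + 6 ≤ N)
    (hm : 2 * h + 2 ≤ m') :
    LamQ v1 v2 w gx gy h (2 * h + 2) D p s0 iL iF i ⊆ LbA D p s0 m' i := by
  have key : ∀ a b a' b' : ℤ, -1 ≤ a → a < 2 * h + 2 → -1 ≤ b → b < 2 * h + 2 →
      (a' = -1 ∨ b' = -1) → -1 ≤ a' → a' < 2 * h + 2 → -1 ≤ b' → b' < 2 * h + 2 →
      (a ≤ a' + m' ∧ a' ≤ a + m') ∧ b ≤ b' + m' ∧ b' ≤ b + m' →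
      arc D p s0 (tq v1 v2 w gx gy a' b').1 (tq v1 v2 w gx gy a' b').2 = i →
      lt (tq v1 v2 w gx gy a b) ∈ LbA D p s0 m' i := by
    intro a b a' b' h1 h2 h3 h4 h5 h6 h7 h8 h9 h10 h11
    unfold LbA
    have hb := Z.inB (i := a) (j := b) (by omega) (by omega) (by omega) (by omega) (by omega)
    have hne := Z.near (i := a) (j := b) (by omega) (by omega) (by omega) (by omega) h1 h3
    have hd := dist_q (v1 := v1) (v2 := v2) (w := w) (gx := gx) (gy := gy) (i := a) (j := b)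
      (i' := a') (j' := b') (m := m')
    obtain ⟨g1, g2, g3, g4⟩ := hd.2 h10
    have hp := Z.inP a' b' (by omega) (by omega) (by omega) (by omega)
    rw [show lt (tq v1 v2 w gx gy a b) = lt ((tq v1 v2 w gx gy a b).1, (tq v1 v2 w gx gy a b).2)
      from rfl, mem_TB]
    refine ⟨hb, hne, _, _, fun hc => ?_, h11, g1, g2, g3, g4⟩
    have := hp.1 hc
    omega
  intro l hl
  unfold LamQ at hl
  split_ifs at hl with c1 c2
  · rcases mem_union.1 hl with hl | hl
    · exact laA_sub (by omega) hl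
    · rcases mem_union.1 hl with hl | hl
      · obtain ⟨a, b, rfl⟩ := LQ_T hl
        rw [mem_LQ] at hl
        exact key a b (-1) b (by omega) (by omega) (by omega) (by omega) (Or.inl rfl) (by omega)
          (by omega) (by omega) (by omega) (by omega) (by rw [c1]; exact Z.aL1 b (by omega) (by omega))
      · obtain ⟨a, b, rfl⟩ := R2_T hl
        rw [mem_R2] at hl
        exact key a b (-1) 0 (by omega) (by omega) (by omega) (by omega) (Or.inl rfl) (by omega)
          (by omega) (by omega) (by omega) (by omega) (by rw [c1]; exact Z.aL1 0 (by omega) (by omega))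
  · rcases mem_union.1 hl with hl | hl
    · exact laA_sub (by omega) hl
    · rcases mem_union.1 hl with hl | hl
      · obtain ⟨a, b, rfl⟩ := LQ_T hl
        rw [mem_LQ] at hl
        exact key a b a (-1) (by omega) (by omega) (by omega) (by omega) (Or.inr rfl) (by omega)
          (by omega) (by omega) (by omega) (by omega) (by rw [c2]; exact Z.aF1 a (by omega) (by omega))
      · obtain ⟨a, b, rfl⟩ := R1_T hl
        rw [mem_R1] at hl
        exact key a b 0 (-1) (by omega) (by omega) (by omega) (by omega) (Or.inr rfl) (by omega)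
          (by omega) (by omega) (by omega) (by omega) (by rw [c2]; exact Z.aF1 0 (by omega) (by omega))
  · exact laA_sub (by omega) hl

/-- **Corners far from the boundary see the wide layers as far.** -/
theorem farX {hS : S ⊆ FR D p} (hC : CoarseC D n H A B YP YQ CL CR)
    (hcut : colp D (s0 - 1) ≠ colp D s0) (hNat : NatS D p S) (hL : 5 ≤ L) (hh : 1 ≤ h)
    {m' : ℤ} (hm : 2 * h + 2 ≤ m') (hn : 2 * m' + 8 ≤ n)
    (hroot : ∀ g, Ag g O.c0 → OutF (D.a (D.yP - 1) - L + 1) (D.b D.yQ + L) (-L + 1) (D.h + L) g)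
    {c : ℤ × ℤ} (hc : ∀ g, Ag g c → ∀ x y, OnT g x y → Dp D p m' x y) :
    FarM (XA O p S hS) (TA D p) (fmA D p s0) (colp D) (WlA D p s0 L S) (LaA D p s0 h) (bA D p)
      (oA D p) c ∧
    ∀ γ ∈ GmC D n H, FarM (XA O p S hS) (TA D p) (fmA D p s0) (colp D) (WlA D p s0 L S)
      (LamX D p s0 n H A B h γ) (bA D p) (oA D p) c := by
  constructor
  · exact CG.far_C hC hL (by omega) hn hcut hroot (fun i => laA_sub (by omega)) hc
  · intro γ hγ
    obtain ⟨Z, -⟩ := zn_c (p := p) hC hcut hγ hL (by omega) hNat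
    exact CG.far_C hC hL (by omega) hn hcut hroot (fun i => Z.lam_sub hh (by omega) hm) hc

/-! ### The structure `WCr` -/

/-- **Walls and marked corners of the environment `XA` of a coarse window.** -/
theorem wcrX (hC : CoarseC D n H A B YP YQ CL CR) (hcut : colp D (s0 - 1) ≠ colp D s0)
    (hS : S ⊆ FR D p) (hNat : NatS D p S) (hL : 5 ≤ L) {Dd : ℤ} {Q : ℝ} (hD0 : 1 ≤ Dd)
    (hDh : 16 * Dd ≤ h) (hn : 4 * h + 40 ≤ n) (hQ : (n : ℝ) ≤ 2 * (Q * Dd))
    (hex : ExA D p s0 n H A B O S L h) (w0 : Kp H A B) :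
    H59.W.WCr (WA O p S) (EN D p) (LBA D p (h + 1)) (TA D p) (fmA D p s0) (colp D)
      (WlA D p s0 L S) (LaA D p s0 h) (bA D p) (oA D p) h (GmC D n H) (TnX D p s0 n H A B h)
      (LamX D p s0 n H A B h) (LX D p n H A B h) (iLs D p s0 n H A B) (iFs D p s0 n H A B)
      (kS D p n H A B) (fun _ => 2 * (2 * h + 2)) (fun _ => 2 * (2 * h + 2))
      (fun _ => 2 * (2 * h + 2)) (wlD D n H A B p w0) (fwD D n H A B s0) (epD H A B)
      (x0D D n H A B p s0) (ND D n H A B p s0) Dd Q where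
  wd := H59.W.wdD hC hcut (by omega) (by omega) (by omega) hQ w0
  cr := crW_X hC hcut hS hNat hL (by omega) (by omega) (fun _ => laB_D _) hex
  sur := surX hC hcut hNat hL (by omega) (by omega)
  lnk := lnkX hC hcut (by omega) w0
  D16 := hDh

end Pool.Agent.H40.Sp
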