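import Mathlib
import Pool.Agent.H40.Sp.LnkX
import Pool.Agent.H46.Sp.ExC

set_option autoImplicit false
open Finset

/-! # Walls and marked corners of the environment `XA` of a coarse window -/

namespace Pool.Agent.H40.Sp

open Pool.Agent.H46.Sp
open Pool.Agent.H74.Win Pool.Agent.H13.Sp
open Pool.Agent.H31.Sp (CoarseC Kp wlD fwD x0D ND epD)

variable {D : Win} {n H : ℤ} {A B : ℤ → ℤ} {YP YQ : ℤ} {CL CR : ℤ → Bool} {p : Bool}
  {s0 L h : ℤ} {S : Finset (ℤ × ℤ)} {O : OutB D}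

/-- **Walls and marked corners of the environment `XA` of a coarse window**, without open hypothesis. -/
theorem wcrC (hC : CoarseC D n H A B YP YQ CL CR) (hcut : colp D (s0 - 1) ≠ colp D s0)
    (hS : S ⊆ FR D p) (hNat : NatS D p S) (hL : 5 ≤ L) {Dd : ℤ} {Q : ℝ} (hD0 : 1 ≤ Dd)
    (hDh : 16 * Dd ≤ h) (hn : 4 * h + 40 ≤ n) (hQ : (n : ℝ) ≤ 2 * (Q * Dd)) (w0 : Kp H A B) :
    H59.W.WCr (WA O p S) (EN D p) (LBA D p (h + 1)) (TA D p) (fmA D p s0) (colp D)
      (WlA D p s0 L S) (LaA D p s0 h) (bA D p) (oA D p) h (GmC D n H) (TnX D p s0 n H A B h)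
      (LamX D p s0 n H A B h) (LX D p n H A B h) (iLs D p s0 n H A B) (iFs D p s0 n H A B)
      (kS D p n H A B) (fun _ => 2 * (2 * h + 2)) (fun _ => 2 * (2 * h + 2))
      (fun _ => 2 * (2 * h + 2)) (wlD D n H A B p w0) (fwD D n H A B s0) (epD H A B)
      (x0D D n H A B p s0) (ND D n H A B p s0) Dd Q :=
  wcrX hC hcut hS hNat hL hD0 hDh hn hQ (CG.exA hC hcut hS hNat hL (by omega) (by omega)) w0

/-- number of marked corners -/
lemma card_GmC (h0 : 0 ≤ H) : ((GmC D n H).card : ℤ) ≤ 2 * (H + 1) := by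
  unfold GmC
  have h1 := Finset.card_filter_le ((univ : Finset Bool) ×ˢ Icc 0 H)
    (fun c => cS D n H c.1 (c.2 - 1) ≠ cS D n H c.1 c.2)
  rw [card_product, card_univ, Fintype.card_bool, Int.card_Icc] at h1
  omega

end Pool.Agent.H40.Sp
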